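import Pool.Agent.L0h49.E.B2

/-! Constant symmetric parts: forms and sums outwards from the centre of the period. -/

set_option maxRecDepth 100000

namespace Pool.Agent.L0h49.F

open H419R2 Finset
open Pool.Agent.N911 Pool.Agent.L0h49.E

/-- iterated step -/
def it (a : ℕ) (f : Fm) : ℕ → Fm
  | 0 => f
  | n + 1 => (it a f n).step a

/-- constant word -/
def rp (a : ℕ) : ℕ → WL
  | 0 => .nil
  | n + 1 => .cons a (rp a n)

theorem rp_len (a n : ℕ) : (rp a n).len = n := by
  induction n with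
  | zero => rfl
  | succ n ih =>
    change (rp a n).len + 1 = n + 1
    rw [ih]

theorem rp_get {a n k : ℕ} (h : k < n) : (rp a n).get k = a := by
  induction n generalizing k with
  | zero => exact absurd h (Nat.not_lt_zero _)
  | succ n ih =>
    cases k with
    | zero => rfl
    | succ k => exact ih (Nat.lt_of_succ_lt_succ h)

theorem rp_pos {a : ℕ} (ha : 0 < a) (n : ℕ) : (rp a n).Pos := by
  induction n with
  | zero => trivial
  | succ n ih => exact ⟨ha, ih⟩

theorem it_succ (a : ℕ) (f : Fm) (n : ℕ) : it a f (n + 1) = (it a f n).step a := rfl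

theorem fs_rp {a n k : ℕ} (f : Fm) (h : k ≤ n) : fs (rp a n) f k = it a f k := by
  induction k with
  | zero => rfl
  | succ k ih =>
    have e : fs (rp a n) f (k + 1) = (fs (rp a n) f k).step ((rp a n).get k) := rfl
    rw [e, ih (by omega), rp_get (by omega)]
    rfl

theorem it_step (a : ℕ) (f : Fm) (n : ℕ) : it a (f.step a) n = it a f (n + 1) := by
  induction n with
  | zero => rfl
  | succ n ih =>
    rw [it_succ, ih]
    rfl

theorem it_add (a : ℕ) (f : Fm) (m n : ℕ) : it a (it a f m) n = it a f (m + n) := by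
  induction n with
  | zero => rfl
  | succ n ih =>
    rw [it_succ, ih]
    rfl

theorem it_disc (a : ℕ) (f : Fm) (n : ℕ) : (it a f n).disc = f.disc := by
  induction n with
  | zero => rfl
  | succ n ih => rw [it_succ, Fm.disc_step, ih]

theorem flip_flip (f : Fm) : flip (flip f) = f := rfl

theorem flip_step (a : ℕ) (f : Fm) : (flip (f.step a)).step a = flip f := by
  unfold Pool.Agent.L0h49.E.flip Fm.step
  simp only [Fm.mk.injEq, true_and]
  constructor <;> ring

theorem it_flip (a : ℕ) (f : Fm) {n k : ℕ} (h : k ≤ n) :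
    it a (flip (it a f n)) k = flip (it a f (n - k)) := by
  induction k with
  | zero => rfl
  | succ k ih =>
    rw [it_succ, ih (by omega)]
    have e : n - k = (n - (k + 1)) + 1 := by omega
    rw [e, it_succ, flip_step]

section sums

variable {N : ℕ} [NeZero N] {M : Type*} [CommRing M]

theorem wE_neg (x y : ZMod N) : wE (-x) y = -wE x y := by
  have h : ((wE (-x) y : ℤ) : ℝ) = ((-wE x y : ℤ) : ℝ) := by
    rw [wE_real, B1_neg, Int.cast_neg, wE_real]
    ring
  exact_mod_cast h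

theorem wE_swap (x y : ZMod N) : wE x y = wE y x := by
  have h : ((wE x y : ℤ) : ℝ) = ((wE y x : ℤ) : ℝ) := by
    rw [wE_real, wE_real]
    ring
  exact_mod_cast h

theorem SE_flip {f : ZMod N → M} (hodd : ∀ x, f (-x) = -f x) (A B C : ZMod N) :
    SE f C B A = SE f A B C := by
  unfold SE
  rw [Finset.sum_comm]
  rw [← Equiv.sum_comp (Equiv.neg (ZMod N)) (fun y => ∑ x : ZMod N,
    f (C * x ^ 2 + B * (x * y) - A * y ^ 2) * (wE x y : M))]
  apply Finset.sum_congr rfl
  intro x _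
  apply Finset.sum_congr rfl
  intro y _
  have e1 : C * y ^ 2 + B * (y * (Equiv.neg (ZMod N)) x) - A * ((Equiv.neg (ZMod N)) x) ^ 2 =
      -(A * x ^ 2 + B * (x * y) - C * y ^ 2) := by
    simp only [Equiv.neg_apply]
    ring
  have e2 : wE y ((Equiv.neg (ZMod N)) x) = -wE x y := by
    simp only [Equiv.neg_apply]
    rw [wE_swap, wE_neg]
  rw [e1, e2, hodd]
  push_cast
  ring

theorem SY_flip (f : ZMod N → M) (a A B C : ZMod N) :
    SY f C (2 * a * C - B) (A + a * B - a ^ 2 * C) = SY f C B A := by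
  unfold SY
  rw [Finset.sum_comm]
  conv_rhs => rw [Finset.sum_comm]
  apply Finset.sum_congr rfl
  intro y _
  rw [← Equiv.sum_comp (Equiv.subLeft (-(a * y)))]
  apply Finset.sum_congr rfl
  intro x _
  congr 2
  simp only [Equiv.subLeft_apply]
  ring

/-- first sum of a form -/
def se (χ : ZMod N → M) (f : Fm) : M := SE χ (f.A : ZMod N) f.B f.C
/-- second sum of a form -/
def sy (χ : ZMod N → M) (f : Fm) : M := SY χ (f.A : ZMod N) f.B f.C

theorem se_flip {χ : ZMod N → M} (hodd : ∀ x, χ (-x) = -χ x) (f : Fm) :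
    se χ (flip f) = se χ f := SE_flip hodd _ _ _

theorem sy_step (χ : ZMod N → M) (a : ℕ) (f : Fm) : sy χ (f.step a) = sy χ (flip f) := by
  unfold sy
  have e1 : ((f.step a).A : ZMod N) = f.C := rfl
  have e2 : ((f.step a).B : ZMod N) = 2 * (a : ZMod N) * f.C - f.B := by
    change ((2 * a * f.C - f.B : ℤ) : ZMod N) = _
    push_cast
    ring
  have e3 : ((f.step a).C : ZMod N) = f.A + (a : ZMod N) * f.B - (a : ZMod N) ^ 2 * f.C := by
    change ((f.A + a * f.B - a ^ 2 * f.C : ℤ) : ZMod N) = _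
    push_cast
    ring
  rw [e1, e2, e3, SY_flip]
  rfl

/-- the sum outwards from the centre -/
def SG (χ : ZMod N → M) (a : ℕ) (g : Fm) (n : ℕ) : M :=
  3 * se χ g + ∑ i ∈ range n, (6 * se χ (it a g (i + 1)) + 2 * a * sy χ (it a g (i + 1)))

theorem SG_zero (χ : ZMod N → M) (a : ℕ) (g : Fm) : SG χ a g 0 = 3 * se χ g := by
  unfold SG
  simp

theorem SG_succ (χ : ZMod N → M) (a : ℕ) (g : Fm) (n : ℕ) : SG χ a g (n + 1) =
    SG χ a g n + (6 * se χ (it a g (n + 1)) + 2 * a * sy χ (it a g (n + 1))) := by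
  unfold SG
  rw [Finset.sum_range_succ]
  ring

theorem RS_rp (χ : ZMod N → M) (a h : ℕ) (f : Fm) : RS χ (rp a h) f =
    ∑ k ∈ range h, (6 * se χ (it a f k) + 2 * a * sy χ (it a f (k + 1))) +
      3 * se χ (it a f h) := by
  induction h generalizing f with
  | zero =>
    change 3 * se χ f = _
    simp [it]
  | succ h ih =>
    have e : RS χ (rp a (h + 1)) f = 6 * se χ f + 2 * a * sy χ (f.step a) +
      RS χ (rp a h) (f.step a) := rfl
    rw [e, ih, Finset.sum_range_succ']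
    have e1 : ∑ k ∈ range h, (6 * se χ (it a (f.step a) k) +
        2 * a * sy χ (it a (f.step a) (k + 1))) =
        ∑ k ∈ range h, (6 * se χ (it a f (k + 1)) + 2 * a * sy χ (it a f (k + 1 + 1))) := by
      apply Finset.sum_congr rfl
      intro k _
      rw [it_step, it_step]
    rw [e1, it_step]
    have e2 : it a f 0 = f := rfl
    have e3 : it a f (0 + 1) = f.step a := rfl
    rw [e2, e3]
    ring

theorem RS_out {χ : ZMod N → M} (hodd : ∀ x, χ (-x) = -χ x) {a h : ℕ} {f : Fm}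
    (hs : flip (it a f h) = it a f h) : RS χ (rp a h) f = SG χ a (it a f h) h := by
  rw [RS_rp]
  unfold SG
  have e1 : ∀ i ≤ h, it a (it a f h) i = flip (it a f (h - i)) := by
    intro i hi
    rw [← it_flip a f hi, hs]
  have e2 : ∑ k ∈ range h, (6 * se χ (it a f k) + 2 * a * sy χ (it a f (k + 1))) =
      ∑ i ∈ range h, (6 * se χ (it a (it a f h) (i + 1)) +
        2 * a * sy χ (it a (it a f h) (i + 1))) := by
    rw [← Finset.sum_range_reflect]
    apply Finset.sum_congr rfl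
    intro i hi
    have hi' := Finset.mem_range.mp hi
    have e3 : h - 1 - i + 1 = h - i := by omega
    have e4 : h - 1 - i = h - (i + 1) := by omega
    have e5 : se χ (it a f (h - 1 - i)) = se χ (it a (it a f h) (i + 1)) := by
      rw [e1 (i + 1) (by omega), se_flip hodd, e4]
    have e6 : sy χ (it a f (h - 1 - i + 1)) = sy χ (it a (it a f h) (i + 1)) := by
      rw [e3, it_succ a (it a f h) i, sy_step, e1 i (by omega), flip_flip]
    rw [e5, e6]
  rw [e2]
  ring

theorem RelW_out {χ : ZMod N → M} (hodd : ∀ x, χ (-x) = -χ x) {a h : ℕ} {t P : ℤ}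
    (hs : flip (it a (f0 t P) h) = it a (f0 t P) h) : RelW χ (rp a h) t P =
    SG χ a (it a (f0 t P) h) h + t * sy χ (it a (it a (f0 t P) h) (h + 1)) := by
  unfold RelW
  rw [RS_out hodd hs]
  have e1 : sy χ (it a (it a (f0 t P) h) (h + 1)) = SY χ 1 (t : ZMod N) (P : ZMod N) := by
    rw [it_succ, sy_step]
    have e2 : it a (it a (f0 t P) h) h = flip (it a (f0 t P) 0) := by
      have := it_flip a (f0 t P) (le_refl h)
      rw [hs, Nat.sub_self] at this
      exact this
    rw [e2, flip_flip]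
    unfold sy
    have e3 : (((it a (f0 t P) 0).A : ℤ) : ZMod N) = 1 := by
      change ((1 : ℤ) : ZMod N) = 1
      simp
    rw [e3]
    rfl
  rw [e1]

end sums

/-- scaling -/
def sm (u : ℤ) (f : Fm) : Fm := ⟨u * f.A, u * f.B, u * f.C⟩

theorem it_sm (a : ℕ) (u : ℤ) (f : Fm) (n : ℕ) : it a (sm u f) n = sm u (it a f n) := by
  induction n with
  | zero => rfl
  | succ n ih =>
    rw [it_succ, ih, it_succ]
    unfold sm Fm.step
    simp only [Fm.mk.injEq, true_and]
    constructor <;> ring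

theorem sm_disc (u : ℤ) (f : Fm) : (sm u f).disc = u ^ 2 * f.disc := by
  unfold sm Fm.disc
  ring

section scale

variable {N : ℕ} [NeZero N] {M : Type*} [CommRing M] {χ : ZMod N → M}
  (hmul : ∀ x y, χ (x * y) = χ x * χ y)

include hmul

theorem se_sm (u : ℤ) (f : Fm) : se χ (sm u f) = χ u * se χ f := by
  unfold se sm SE
  rw [Finset.mul_sum]
  apply Finset.sum_congr rfl
  intro x _
  rw [Finset.mul_sum]
  apply Finset.sum_congr rfl
  intro y _
  have e : (((u * f.A : ℤ) : ZMod N)) * x ^ 2 + ((u * f.B : ℤ) : ZMod N) * (x * y) -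
      ((u * f.C : ℤ) : ZMod N) * y ^ 2 = u * (f.A * x ^ 2 + f.B * (x * y) - f.C * y ^ 2) := by
    push_cast
    ring
  change χ ((((u * f.A : ℤ) : ZMod N)) * x ^ 2 + ((u * f.B : ℤ) : ZMod N) * (x * y) -
      ((u * f.C : ℤ) : ZMod N) * y ^ 2) * _ = _
  rw [e, hmul]
  ring

theorem sy_sm (u : ℤ) (f : Fm) : sy χ (sm u f) = χ u * sy χ f := by
  unfold sy sm SY
  rw [Finset.mul_sum]
  apply Finset.sum_congr rfl
  intro x _
  rw [Finset.mul_sum]
  apply Finset.sum_congr rfl
  intro y _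
  have e : (((u * f.A : ℤ) : ZMod N)) * x ^ 2 + ((u * f.B : ℤ) : ZMod N) * (x * y) -
      ((u * f.C : ℤ) : ZMod N) * y ^ 2 = u * (f.A * x ^ 2 + f.B * (x * y) - f.C * y ^ 2) := by
    push_cast
    ring
  change χ ((((u * f.A : ℤ) : ZMod N)) * x ^ 2 + ((u * f.B : ℤ) : ZMod N) * (x * y) -
      ((u * f.C : ℤ) : ZMod N) * y ^ 2) * _ = _
  rw [e, hmul]
  ring

theorem SG_sm (a : ℕ) (u : ℤ) (g : Fm) (n : ℕ) : SG χ a (sm u g) n = χ u * SG χ a g n := by
  induction n with
  | zero => rw [SG_zero, SG_zero, se_sm hmul]; ring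
  | succ n ih =>
    rw [SG_succ, SG_succ, ih, it_sm, se_sm hmul, sy_sm hmul]
    ring

end scale

/-- congruent forms -/
structure Cg (l : ℕ) (f g : Fm) : Prop where
  hA : (f.A : ZMod l) = g.A
  hB : (f.B : ZMod l) = g.B
  hC : (f.C : ZMod l) = g.C

theorem Cg.step {l : ℕ} {f g : Fm} (h : Cg l f g) (a : ℕ) : Cg l (f.step a) (g.step a) := by
  have e : ∀ k : Fm, ((k.step a).A : ZMod l) = k.C ∧
      ((k.step a).B : ZMod l) = 2 * (a : ZMod l) * k.C - k.B ∧
      ((k.step a).C : ZMod l) = k.A + (a : ZMod l) * k.B - (a : ZMod l) ^ 2 * k.C := by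
    intro k
    refine ⟨rfl, ?_, ?_⟩
    · change ((2 * a * k.C - k.B : ℤ) : ZMod l) = _
      push_cast
      ring
    · change ((k.A + a * k.B - a ^ 2 * k.C : ℤ) : ZMod l) = _
      push_cast
      ring
  obtain ⟨f1, f2, f3⟩ := e f
  obtain ⟨g1, g2, g3⟩ := e g
  refine ⟨?_, ?_, ?_⟩
  · rw [f1, g1, h.hC]
  · rw [f2, g2, h.hC, h.hB]
  · rw [f3, g3, h.hA, h.hB, h.hC]

theorem Cg.it {l : ℕ} {f g : Fm} (h : Cg l f g) (a n : ℕ) : Cg l (it a f n) (it a g n) := by
  induction n with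
  | zero => exact h
  | succ n ih => exact ih.step a

theorem Cg.trans {l : ℕ} {f g k : Fm} (h : Cg l f g) (h' : Cg l g k) : Cg l f k :=
  ⟨h.hA.trans h'.hA, h.hB.trans h'.hB, h.hC.trans h'.hC⟩

theorem Cg.refl (l : ℕ) (f : Fm) : Cg l f f := ⟨rfl, rfl, rfl⟩

theorem it_lin (a : ℕ) (f : Fm) (n : ℕ) : it a f n =
    ⟨f.A * (it a ⟨1, 0, 0⟩ n).A + f.B * (it a ⟨0, 1, 0⟩ n).A + f.C * (it a ⟨0, 0, 1⟩ n).A,
     f.A * (it a ⟨1, 0, 0⟩ n).B + f.B * (it a ⟨0, 1, 0⟩ n).B + f.C * (it a ⟨0, 0, 1⟩ n).B,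
     f.A * (it a ⟨1, 0, 0⟩ n).C + f.B * (it a ⟨0, 1, 0⟩ n).C + f.C * (it a ⟨0, 0, 1⟩ n).C⟩ := by
  induction n with
  | zero =>
    change f = _
    cases f
    simp [it]
  | succ n ih =>
    rw [it_succ, ih, it_succ, it_succ, it_succ]
    unfold Fm.step
    simp only [Fm.mk.injEq, true_and]
    constructor <;> ring

/-- the period modulo `l` -/
def pOK (l a n : ℕ) : Bool :=
  decide ((it a ⟨1, 0, 0⟩ n).A % l = 1 ∧ (it a ⟨1, 0, 0⟩ n).B % l = 0 ∧
    (it a ⟨1, 0, 0⟩ n).C % l = 0 ∧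
    (it a ⟨0, 1, 0⟩ n).A % l = 0 ∧ (it a ⟨0, 1, 0⟩ n).B % l = 1 ∧
    (it a ⟨0, 1, 0⟩ n).C % l = 0 ∧
    (it a ⟨0, 0, 1⟩ n).A % l = 0 ∧ (it a ⟨0, 0, 1⟩ n).B % l = 0 ∧
    (it a ⟨0, 0, 1⟩ n).C % l = 1)

theorem zm_of {l : ℕ} {x y : ℤ} (h : x % l = y) : (x : ZMod l) = y := by
  rw [← h, ZMod.intCast_mod]

theorem per_one {l a n : ℕ} (h : pOK l a n = true) (f : Fm) : Cg l (it a f n) f := by
  unfold pOK at h
  rw [decide_eq_true_iff] at h
  obtain ⟨h1, h2, h3, h4, h5, h6, h7, h8, h9⟩ := h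
  rw [it_lin]
  refine ⟨?_, ?_, ?_⟩ <;> push_cast <;> simp only [zm_of h1, zm_of h2, zm_of h3, zm_of h4, zm_of h5,
    zm_of h6, zm_of h7, zm_of h8, zm_of h9] <;> push_cast <;> ring

theorem per_add {l a n : ℕ} (h : pOK l a n = true) (f : Fm) (i : ℕ) :
    Cg l (it a f (i + n)) (it a f i) := by
  rw [Nat.add_comm, ← it_add]
  exact (per_one h f).it a i

theorem per_mul {l a n : ℕ} (h : pOK l a n = true) (f : Fm) (i k : ℕ) :
    Cg l (it a f (i + n * k)) (it a f i) := by
  induction k with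
  | zero => exact Cg.refl _ _
  | succ k ih =>
    have e : i + n * (k + 1) = (i + n * k) + n := by ring
    rw [e]
    exact (per_add h f _).trans ih

theorem per_dvd {l a n L : ℕ} (h : pOK l a n = true) (hL : n ∣ L) (f : Fm) (i : ℕ) :
    Cg l (it a f (i + L)) (it a f i) := by
  obtain ⟨k, rfl⟩ := hL
  exact per_mul h f i k

theorem Cg.crt {l m : ℕ} (hc : Nat.Coprime l m) {f g : Fm} (h1 : Cg l f g) (h2 : Cg m f g) :
    Cg (l * m) f g := by
  have key : ∀ x y : ℤ, (x : ZMod l) = y → (x : ZMod m) = y → (x : ZMod (l * m)) = y := by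
    intro x y h3 h4
    rw [ZMod.intCast_eq_intCast_iff_dvd_sub] at h3 h4 ⊢
    push_cast
    exact IsCoprime.mul_dvd (Nat.isCoprime_iff_coprime.mpr hc) h3 h4
  exact ⟨key _ _ h1.hA h2.hA, key _ _ h1.hB h2.hB, key _ _ h1.hC h2.hC⟩

section period

variable {N : ℕ} [NeZero N] {M : Type*} [CommRing M] {χ : ZMod N → M} {a L : ℕ} {g : Fm}
  (hp : ∀ i, Cg N (it a g (i + L)) (it a g i))

include hp

theorem se_per (i : ℕ) : se χ (it a g (i + L)) = se χ (it a g i) := by
  unfold se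
  rw [(hp i).hA, (hp i).hB, (hp i).hC]

theorem sy_per (i : ℕ) : sy χ (it a g (i + L)) = sy χ (it a g i) := by
  unfold sy
  rw [(hp i).hA, (hp i).hB, (hp i).hC]

theorem SG_per (r : ℕ) : SG χ a g (r + L) = SG χ a g r + (SG χ a g L - SG χ a g 0) := by
  induction r with
  | zero => rw [Nat.zero_add]; ring
  | succ r ih =>
    have e : r + 1 + L = (r + L) + 1 := by ring
    rw [e, SG_succ, ih, SG_succ]
    have e2 : r + L + 1 = (r + 1) + L := by ring
    rw [e2, se_per hp, sy_per hp]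
    ring

theorem SG_mul (r m : ℕ) :
    SG χ a g (r + L * m) = SG χ a g r + m * (SG χ a g L - SG χ a g 0) := by
  induction m with
  | zero => simp
  | succ m ih =>
    have e : r + L * (m + 1) = (r + L * m) + L := by ring
    rw [e, SG_per hp, ih]
    push_cast
    ring

theorem sy_mul (r m : ℕ) : sy χ (it a g (r + L * m)) = sy χ (it a g r) := by
  induction m with
  | zero => rfl
  | succ m ih =>
    have e : r + L * (m + 1) = (r + L * m) + L := by ring
    rw [e, sy_per hp, ih]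

end period

end Pool.Agent.L0h49.F
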