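import Pool.Agent.L0h49.F.S1
import Pool.Agent.L0h49.F.A1

/-! Values of the search functions. -/

set_option maxRecDepth 100000

namespace Pool.Agent.L0h49.F

open H419R2 Finset
open Pool.Agent.N911 Pool.Agent.L0h49.E

/-- head -/
def hq : TL → ℕ
  | .nil => 0
  | .cons q _ _ => q
/-- head -/
def hk : TL → ℕ
  | .nil => 0
  | .cons _ k _ => k
/-- tail -/
def tl : TL → TL
  | .nil => .nil
  | .cons _ _ r => r

theorem hd_eq (T : TL) (g : ℕ → ℕ → TL → Bool) : hd T g = g (hq T) (hk T) (tl T) := by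
  cases T <;> rfl

/-- the trace -/
def mkGP (l I a : ℕ) : ℕ → ℕ → ℕ → ℕ → TL
  | 0, c, B, C => .cons (7 * c) (7 * (B * l + C)) .nil
  | n + 1, c, B, C => .cons (7 * c) (7 * (B * l + C)) (mkGP l I a n (c * C % l)
      ((2 * a * C + (l - B)) * look I C % l)
      ((1 + a * B + a * a * (l - C)) * look I C % l))

theorem mkG_eq (l I a n c B C : ℕ) (g : TL → Bool) :
    mkG l I a n c B C g = g (mkGP l I a n c B C) := by
  induction n generalizing c B C g with
  | zero =>
    have e : mkG l I a 0 c B C g = force (Nat.mul 7 c) (fun q =>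
      force (Nat.mul 7 (Nat.add (Nat.mul B l) C)) (fun k => g (TL.cons q k TL.nil))) := rfl
    rw [e, force_eq, force_eq]
    rfl
  | succ n ih =>
    have e : mkG l I a (n + 1) c B C g = force (Nat.mul 7 c) (fun q =>
      force (Nat.mul 7 (Nat.add (Nat.mul B l) C)) (fun k => force (look I C) (fun i =>
      force (Nat.mod (Nat.mul c C) l) (fun c' =>
      force (Nat.mod (Nat.mul (Nat.add (Nat.mul (Nat.mul 2 a) C) (Nat.sub l B)) i) l) (fun B' =>
      force (Nat.mod (Nat.mul (Nat.add (Nat.add 1 (Nat.mul a B)) (Nat.mul (Nat.mul a a)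
        (Nat.sub l C))) i) l) (fun C' =>
          mkG l I a n c' B' C' (fun r => g (TL.cons q k r)))))))) := rfl
    rw [e]
    simp only [force_eq]
    rw [ih]
    rfl

/-- packed residues of `t` -/
def tvP (l a : ℕ) : ℕ → TL → ℕ
  | 0, _ => 0
  | n + 1, T => (2 * a + (l - hk T / 7 / l)) % l + 128 * tvP l a n (tl T)

theorem tvl_eq (l a n : ℕ) (T : TL) (g : ℕ → Bool) : tvl l a n T g = g (tvP l a n T) := by
  induction n generalizing T g with
  | zero => rfl
  | succ n ih =>
    have e : tvl l a (n + 1) T g = hd T (fun _ k r =>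
      force (Nat.mod (Nat.add (Nat.mul 2 a) (Nat.sub l (Nat.div (Nat.div k 7) l))) l) (fun t =>
        tvl l a n r (fun n => force (Nat.add t (Nat.mul 128 n)) g))) := rfl
    rw [e, hd_eq, force_eq, ih, force_eq]
    rfl

/-- the list of centres -/
def ctP (l I Q a n nl : ℕ) : ℕ → CL → CL
  | 0, S => S
  | b + 1, S => ctP l I Q a n nl b (bif tb Q ((b * b + 4) % l) then S else
      CL.cons (tvP l a nl (tl (mkGP l I a n 1 b 1))) (mkGP l I a n 1 b 1) S)

theorem ctr_eq (l I Q a n nl : ℕ) (g : CL → Bool) :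
    ctr l I Q a n nl g = g (ctP l I Q a n nl l CL.nil) := by
  have key : ∀ (b : ℕ) (S : CL), @Nat.rec (fun _ => CL → Bool) g
    (fun b ih S => @Bool.rec (fun _ => Bool)
      (mkG l I a n 1 b 1 (fun T => hd T (fun _ _ r => tvl l a nl r (fun tv =>
        ih (CL.cons tv T S))))) (ih S)
      (tb Q (Nat.mod (Nat.add (Nat.mul b b) 4) l))) b S = g (ctP l I Q a n nl b S) := by
    intro b
    induction b with
    | zero => intro S; rfl
    | succ b ih =>
      intro S
      have e : ctP l I Q a n nl (b + 1) S = ctP l I Q a n nl b (bif tb Q ((b * b + 4) % l) then S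
        else CL.cons (tvP l a nl (tl (mkGP l I a n 1 b 1))) (mkGP l I a n 1 b 1) S) := rfl
      rw [e]
      have e2 : (b * b + 4) % l = Nat.mod (Nat.add (Nat.mul b b) 4) l := rfl
      rw [e2]
      cases hb : tb Q (Nat.mod (Nat.add (Nat.mul b b) 4) l) with
      | true =>
        rw [Bool.cond_true, ← ih]
        change @Bool.rec (fun _ => Bool) _ _ (tb Q (Nat.mod (Nat.add (Nat.mul b b) 4) l)) = _
        rw [hb]
      | false =>
        rw [Bool.cond_false, ← ih]
        change @Bool.rec (fun _ => Bool) _ _ (tb Q (Nat.mod (Nat.add (Nat.mul b b) 4) l)) = _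
        rw [hb]
        change mkG l I a n 1 b 1 _ = _
        rw [mkG_eq, hd_eq, tvl_eq]
  exact key l CL.nil

/-- partial sums -/
def pflP (gx ge : ℕ → ℕ → ℕ) (p a4 : ℕ) : ℕ → TL → TL → ℕ → ℕ × ℕ
  | 0, _, _, D => (0, D)
  | n + 1, T, T', D => (D + 128 * (gx (hq T) (hq T') * (ge (hk T) (hk T') / 128) % p) + 16384 *
      (pflP gx ge p a4 n (tl T) (tl T') ((D + (2 * (gx (hq T) (hq T') *
        (ge (hk T) (hk T') % 128)) + a4 * (gx (hq T) (hq T') * (ge (hk T) (hk T') / 128) % p)))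
          % p)).1,
      (pflP gx ge p a4 n (tl T) (tl T') ((D + (2 * (gx (hq T) (hq T') *
        (ge (hk T) (hk T') % 128)) + a4 * (gx (hq T) (hq T') * (ge (hk T) (hk T') / 128) % p)))
          % p)).2)

theorem pfl_eq (gx ge : ℕ → ℕ → ℕ) (p a4 n : ℕ) (T T' : TL) (D : ℕ) (k : ℕ → ℕ → Bool) :
    pfl gx ge p a4 n T T' D k = k (pflP gx ge p a4 n T T' D).1 (pflP gx ge p a4 n T T' D).2 := by
  induction n generalizing T T' D k with
  | zero => rfl
  | succ n ih =>
    have e : pfl gx ge p a4 (n + 1) T T' D k = hd T (fun x e r => hd T' (fun q i r' =>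
      force (ge e i) (fun v => force (gx x q) (fun x =>
      force (Nat.mod (Nat.mul x (Nat.div v 128)) p) (fun y =>
      force (Nat.mod (Nat.add D (Nat.add (Nat.mul 2 (Nat.mul x (Nat.mod v 128)))
        (Nat.mul a4 y))) p) (fun D' => pfl gx ge p a4 n r r' D' (fun N W =>
          force (Nat.add (Nat.add D (Nat.mul 128 y)) (Nat.mul 16384 N)) (fun N => k N W)))))))) :=
      rfl
    rw [e, hd_eq, hd_eq]
    simp only [force_eq]
    rw [ih]
    rfl

/-- profile -/
def pfP (gx ge : ℕ → ℕ → ℕ) (p a n : ℕ) (T T' : TL) : ℕ × ℕ :=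
  ((pflP gx ge p (4 * a) n (tl T) (tl T') (gx (hq T) (hq T') * (ge (hk T) (hk T') % 128) % p)).1,
   ((pflP gx ge p (4 * a) n (tl T) (tl T') (gx (hq T) (hq T') * (ge (hk T) (hk T') % 128) % p)).2 +
    (p - gx (hq T) (hq T') * (ge (hk T) (hk T') % 128) % p)) % p)

theorem pf_eq (gx ge : ℕ → ℕ → ℕ) (p a n : ℕ) (T T' : TL) (k : ℕ → ℕ → Bool) :
    pf gx ge p a n T T' k = k (pfP gx ge p a n T T').1 (pfP gx ge p a n T T').2 := by
  unfold pf
  rw [hd_eq, hd_eq, force_eq, force_eq, pfl_eq, force_eq]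
  rfl

/-- profiles over a list of centres -/
def mpNP (gx ge : ℕ → ℕ → ℕ) (p a n : ℕ) (A : TL) : CL → NL
  | .nil => .nil
  | .cons _ T S => .cons (pfP gx ge p a n A T).1 (pfP gx ge p a n A T).2
      (mpNP gx ge p a n A S)

theorem mpN_eq (gx ge : ℕ → ℕ → ℕ) (p a n : ℕ) (A : TL) (S : CL) (g : NL → Bool) :
    mpN gx ge p a n A S g = g (mpNP gx ge p a n A S) := by
  induction S generalizing g with
  | nil => rfl
  | cons tv T S ih =>
    have e : mpN gx ge p a n A (.cons tv T S) g = pf gx ge p a n A T (fun N W =>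
      mpN gx ge p a n A S (fun y => g (NL.cons N W y))) := rfl
    rw [e, pf_eq, ih]
    rfl

/-- pairs of profiles -/
def mpQP (p a n : ℕ) (A A' : TL) : CL → QL
  | .nil => .nil
  | .cons _ T S => .cons (pfP sl1 sl2 p a n A T).1 (pfP sl1 sl2 p a n A T).2
      (pfP sl1 sl2 p a n A' T).1 (pfP sl1 sl2 p a n A' T).2 (mpQP p a n A A' S)

theorem mpQ_eq (p a n : ℕ) (A A' : TL) (S : CL) (g : QL → Bool) :
    mpQ p a n A A' S g = g (mpQP p a n A A' S) := by
  induction S generalizing g with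
  | nil => rfl
  | cons tv T S ih =>
    have e : mpQ p a n A A' (.cons tv T S) g = pf sl1 sl2 p a n A T (fun N W =>
      pf sl1 sl2 p a n A' T (fun N' W' =>
      mpQ p a n A A' S (fun y => g (QL.cons N W N' W' y)))) := rfl
    rw [e, pf_eq, pf_eq, ih]
    rfl

/-- combination of two traces -/
def zpP (fx fe : ℕ → ℕ → ℕ) : TL → TL → TL
  | .nil, _ => .nil
  | .cons x e T, T' => .cons (fx x (hq T')) (fe e (hk T')) (zpP fx fe T (tl T'))

theorem zp_eq (fx fe : ℕ → ℕ → ℕ) (T T' : TL) (g : TL → Bool) :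
    zp fx fe T T' g = g (zpP fx fe T T') := by
  induction T generalizing T' g with
  | nil => rfl
  | cons x e T ih =>
    have e' : zp fx fe (.cons x e T) T' g = hd T' (fun q i r' => force (fx x q) (fun x =>
      force (fe e i) (fun e => zp fx fe T r' (fun r => g (TL.cons x e r))))) := rfl
    rw [e', hd_eq, force_eq, force_eq, ih]
    rfl

/-- profiles of a relation with three primes -/
def mpLP (p a n : ℕ) (A : TL) (S' : CL) : CL → NLL
  | .nil => .nil
  | .cons _ T S => .cons (mpNP sl1 sl2 p a n (zpP (sl 5) (sl 50) A T) S') (mpLP p a n A S' S)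

theorem mpL_eq (p a n : ℕ) (A : TL) (S S' : CL) (g : NLL → Bool) :
    mpL p a n A S S' g = g (mpLP p a n A S' S) := by
  induction S generalizing g with
  | nil => rfl
  | cons tv T S ih =>
    have e : mpL p a n A (.cons tv T S) S' g = zp (sl 5) (sl 50) A T (fun A' =>
      mpN sl1 sl2 p a n A' S' (fun y => mpL p a n A S S' (fun z => g (NLL.cons y z)))) := rfl
    rw [e, zp_eq, mpN_eq, ih]
    rfl

/-- data modulo 19 -/
def mk19P (a n : ℕ) (S5 : CL) : CL → DL
  | .nil => .nil
  | .cons tv T S => .cons tv T (mpNP sl1 sl2 13 a n (mp (sl 5 X95) (sl 50 E95) T) S5)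
      (mk19P a n S5 S)

theorem mk19_eq (a n : ℕ) (S S5 : CL) (g : DL → Bool) :
    mk19 a n S S5 g = g (mk19P a n S5 S) := by
  induction S generalizing g with
  | nil => rfl
  | cons tv T S ih =>
    have e : mk19 a n (.cons tv T S) S5 g = mapT (sl 5 X95) (sl 50 E95) T (fun A =>
      mpN sl1 sl2 13 a n A S5 (fun y => mk19 a n S S5 (fun z => g (DL.cons tv T y z)))) := rfl
    rw [e, mapT_eq, mpN_eq, ih]
    rfl

/-- data modulo 19 relative to a centre modulo 7 -/
def mkXP (o : Op) (a n : ℕ) (T7 A A' : TL) : DL → XL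
  | .nil => .nil
  | .cons tv T y S => .cons tv (pfP sl1 sl2 37 a n A T).1 (pfP sl1 sl2 37 a n A T).2
      (pfP sl1 sl2 13 a n A' T).1 (pfP sl1 sl2 13 a n A' T).2
      (pfP o.gx o.ge 73 a o.m T7 T).1 (pfP o.gx o.ge 73 a o.m T7 T).2 T y (mkXP o a n T7 A A' S)

theorem mkX_eq (o : Op) (a n : ℕ) (T7 A A' : TL) (S : DL) (g : XL → Bool) :
    mkX o a n T7 A A' S g = g (mkXP o a n T7 A A' S) := by
  induction S generalizing g with
  | nil => rfl
  | cons tv T y S ih =>
    have e : mkX o a n T7 A A' (.cons tv T y S) g = pf sl1 sl2 37 a n A T (fun N W =>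
      pf sl1 sl2 13 a n A' T (fun N' W' => pf o.gx o.ge 73 a o.m T7 T (fun N'' W'' =>
      mkX o a n T7 A A' S (fun z => g (XL.cons tv N W N' W' N'' W'' T y z))))) := rfl
    rw [e, pf_eq, pf_eq, pf_eq, ih]
    rfl

/-- data modulo 13 relative to a centre modulo 7 -/
def mkVP (a n : ℕ) (A : TL) : CL → VL
  | .nil => .nil
  | .cons tv T S => .cons tv (pfP sl1 sl2 37 a n A T).1 (pfP sl1 sl2 37 a n A T).2 T
      (mkVP a n A S)

theorem mkV_eq (a n : ℕ) (A : TL) (S : CL) (g : VL → Bool) :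
    mkV a n A S g = g (mkVP a n A S) := by
  induction S generalizing g with
  | nil => rfl
  | cons tv T S ih =>
    have e : mkV a n A (.cons tv T S) g = pf sl1 sl2 37 a n A T (fun N W =>
      mkV a n A S (fun z => g (VL.cons tv N W T z))) := rfl
    rw [e, pf_eq, ih]
    rfl

/-- data modulo 7 -/
def mkZP (o : Op) (a n133 n105 n91 : ℕ) (S19 : DL) (S3 S5 S13 : CL) : CL → ZL
  | .nil => .nil
  | .cons _ T S => .cons T
      (mkXP o a n133 T (mp (sl 19 X133_37) (sl 722 E133_37) T)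
        (mp (sl 19 X133_13) (sl 722 E133_13) T) S19)
      (mpLP 13 a n105 (mp (sl 15 X105) (sl 450 E105) T) S5 S3)
      (mkVP a n91 (mp (sl 13 X91) (sl 338 E91) T) S13)
      (mkZP o a n133 n105 n91 S19 S3 S5 S13 S)

theorem mkZ_eq (o : Op) (a n133 n105 n91 : ℕ) (S : CL) (S19 : DL) (S3 S5 S13 : CL)
    (g : ZL → Bool) : mkZ o a n133 n105 n91 S S19 S3 S5 S13 g =
    g (mkZP o a n133 n105 n91 S19 S3 S5 S13 S) := by
  induction S generalizing g with
  | nil => rfl
  | cons tv T S ih =>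
    have e : mkZ o a n133 n105 n91 (.cons tv T S) S19 S3 S5 S13 g =
      mapT (sl 19 X133_37) (sl 722 E133_37) T (fun A => mapT (sl 19 X133_13) (sl 722 E133_13) T
        (fun A' => mkX o a n133 T A A' S19 (fun x19 =>
      mapT (sl 15 X105) (sl 450 E105) T (fun B => mpL 13 a n105 B S3 S5 (fun x3 =>
      mapT (sl 13 X91) (sl 338 E91) T (fun C => mkV a n91 C S13 (fun x13 =>
      mkZ o a n133 n105 n91 S S19 S3 S5 S13 (fun z => g (ZL.cons T x19 x3 x13 z))))))))) := rfl
    rw [e, mapT_eq, mapT_eq, mkX_eq, mapT_eq, mpL_eq, mapT_eq, mkV_eq, ih]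
    rfl

/-! ### Positions -/

/-- entry at a position -/
def CL.At : CL → ℕ → ℕ → TL → Prop
  | .nil, _, _, _ => False
  | .cons tv T _, 0, tv', T' => tv' = tv ∧ T' = T
  | .cons _ _ l, i + 1, tv', T' => l.At i tv' T'

/-- entry at a position -/
def NL.At : NL → ℕ → ℕ × ℕ → Prop
  | .nil, _, _ => False
  | .cons N W _, 0, w => w = (N, W)
  | .cons _ _ l, i + 1, w => l.At i w

/-- entry at a position -/
def QL.At : QL → ℕ → ℕ × ℕ → ℕ × ℕ → Prop
  | .nil, _, _, _ => False
  | .cons N W N' W' _, 0, w, w' => w = (N, W) ∧ w' = (N', W')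
  | .cons _ _ _ _ l, i + 1, w, w' => l.At i w w'

/-- entry at a position -/
def NLL.At : NLL → ℕ → NL → Prop
  | .nil, _, _ => False
  | .cons y _, 0, y' => y' = y
  | .cons _ l, i + 1, y' => l.At i y'

/-- membership -/
def DL.Mem (tv : ℕ) (T : TL) (y : NL) : DL → Prop
  | .nil => False
  | .cons tv' T' y' l => (tv = tv' ∧ T = T' ∧ y = y') ∨ DL.Mem tv T y l

/-- membership -/
def XL.Mem (tv : ℕ) (w w' w'' : ℕ × ℕ) (T : TL) (y : NL) : XL → Prop
  | .nil => False
  | .cons tv' N W N' W' N'' W'' T' y' l => (tv = tv' ∧ w = (N, W) ∧ w' = (N', W') ∧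
      w'' = (N'', W'') ∧ T = T' ∧ y = y') ∨ XL.Mem tv w w' w'' T y l

/-- membership -/
def VL.Mem (tv : ℕ) (w : ℕ × ℕ) (T : TL) : VL → Prop
  | .nil => False
  | .cons tv' N W T' l => (tv = tv' ∧ w = (N, W) ∧ T = T') ∨ VL.Mem tv w T l

/-- membership -/
def ZL.Mem (T : TL) (x : XL) (y : NLL) (z : VL) : ZL → Prop
  | .nil => False
  | .cons T' x' y' z' l => (T = T' ∧ x = x' ∧ y = y' ∧ z = z') ∨ ZL.Mem T x y z l

theorem mpNP_at {gx ge : ℕ → ℕ → ℕ} {p a n : ℕ} {A : TL} {S : CL} {i tv : ℕ} {T : TL}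
    (h : S.At i tv T) : (mpNP gx ge p a n A S).At i (pfP gx ge p a n A T) := by
  induction S generalizing i with
  | nil => exact h.elim
  | cons tv' T' S ih =>
    cases i with
    | zero =>
      obtain ⟨rfl, rfl⟩ := h
      rfl
    | succ i => exact ih h

theorem mpQP_at {p a n : ℕ} {A A' : TL} {S : CL} {i tv : ℕ} {T : TL}
    (h : S.At i tv T) : (mpQP p a n A A' S).At i (pfP sl1 sl2 p a n A T)
      (pfP sl1 sl2 p a n A' T) := by
  induction S generalizing i with
  | nil => exact h.elim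
  | cons tv' T' S ih =>
    cases i with
    | zero =>
      obtain ⟨rfl, rfl⟩ := h
      exact ⟨rfl, rfl⟩
    | succ i => exact ih h

theorem mpLP_at {p a n : ℕ} {A : TL} {S S' : CL} {i tv : ℕ} {T : TL}
    (h : S.At i tv T) : (mpLP p a n A S' S).At i
      (mpNP sl1 sl2 p a n (zpP (sl 5) (sl 50) A T) S') := by
  induction S generalizing i with
  | nil => exact h.elim
  | cons tv' T' S ih =>
    cases i with
    | zero =>
      obtain ⟨rfl, rfl⟩ := h
      rfl
    | succ i => exact ih h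

theorem mk19P_mem {a n : ℕ} {S5 S : CL} {i tv : ℕ} {T : TL} (h : S.At i tv T) :
    DL.Mem tv T (mpNP sl1 sl2 13 a n (mp (sl 5 X95) (sl 50 E95) T) S5) (mk19P a n S5 S) := by
  induction S generalizing i with
  | nil => exact h.elim
  | cons tv' T' S ih =>
    cases i with
    | zero =>
      obtain ⟨rfl, rfl⟩ := h
      exact Or.inl ⟨rfl, rfl, rfl⟩
    | succ i => exact Or.inr (ih h)

theorem mkXP_mem {o : Op} {a n : ℕ} {T7 A A' : TL} {S : DL} {tv : ℕ} {T : TL} {y : NL}
    (h : DL.Mem tv T y S) : XL.Mem tv (pfP sl1 sl2 37 a n A T) (pfP sl1 sl2 13 a n A' T)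
      (pfP o.gx o.ge 73 a o.m T7 T) T y (mkXP o a n T7 A A' S) := by
  induction S with
  | nil => exact h.elim
  | cons tv' T' y' S ih =>
    rcases h with ⟨rfl, rfl, rfl⟩ | h
    · exact Or.inl ⟨rfl, rfl, rfl, rfl, rfl, rfl⟩
    · exact Or.inr (ih h)

theorem mkVP_mem {a n : ℕ} {A : TL} {S : CL} {i tv : ℕ} {T : TL} (h : S.At i tv T) :
    VL.Mem tv (pfP sl1 sl2 37 a n A T) T (mkVP a n A S) := by
  induction S generalizing i with
  | nil => exact h.elim
  | cons tv' T' S ih =>
    cases i with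
    | zero =>
      obtain ⟨rfl, rfl⟩ := h
      exact Or.inl ⟨rfl, rfl, rfl⟩
    | succ i => exact Or.inr (ih h)

theorem mkZP_mem {o : Op} {a n133 n105 n91 : ℕ} {S19 : DL} {S3 S5 S13 S : CL} {i tv : ℕ} {T : TL}
    (h : S.At i tv T) : ZL.Mem T
      (mkXP o a n133 T (mp (sl 19 X133_37) (sl 722 E133_37) T)
        (mp (sl 19 X133_13) (sl 722 E133_13) T) S19)
      (mpLP 13 a n105 (mp (sl 15 X105) (sl 450 E105) T) S5 S3)
      (mkVP a n91 (mp (sl 13 X91) (sl 338 E91) T) S13)
      (mkZP o a n133 n105 n91 S19 S3 S5 S13 S) := by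
  induction S generalizing i with
  | nil => exact h.elim
  | cons tv' T' S ih =>
    cases i with
    | zero =>
      obtain ⟨rfl, rfl⟩ := h
      exact Or.inl ⟨rfl, rfl, rfl, rfl⟩
    | succ i => exact Or.inr (ih h)

theorem XL.all_mem {S : XL} {f : ℕ → ℕ → ℕ → ℕ → ℕ → ℕ → ℕ → TL → NL → Bool}
    (h : S.all f = true) {tv : ℕ} {w w' w'' : ℕ × ℕ} {T : TL} {y : NL}
    (hm : XL.Mem tv w w' w'' T y S) : f tv w.1 w.2 w'.1 w'.2 w''.1 w''.2 T y = true := by
  induction S with
  | nil => exact hm.elim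
  | cons tv' N W N' W' N'' W'' T' y' l ih =>
    have h' : cj (f tv' N W N' W' N'' W'' T' y') (l.all f) = true := h
    rw [cj_true] at h'
    rcases hm with ⟨rfl, rfl, rfl, rfl, rfl, rfl⟩ | hm
    · exact h'.1
    · exact ih h'.2 hm

theorem VL.all_mem {S : VL} {f : ℕ → ℕ → ℕ → TL → Bool} (h : S.all f = true) {tv : ℕ}
    {w : ℕ × ℕ} {T : TL} (hm : VL.Mem tv w T S) : f tv w.1 w.2 T = true := by
  induction S with
  | nil => exact hm.elim
  | cons tv' N W T' l ih =>
    have h' : cj (f tv' N W T') (l.all f) = true := h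
    rw [cj_true] at h'
    rcases hm with ⟨rfl, rfl, rfl⟩ | hm
    · exact h'.1
    · exact ih h'.2 hm

theorem ZL.all_mem {S : ZL} {f : TL → XL → NLL → VL → Bool} (h : S.all f = true) {T : TL}
    {x : XL} {y : NLL} {z : VL} (hm : ZL.Mem T x y z S) : f T x y z = true := by
  induction S with
  | nil => exact hm.elim
  | cons T' x' y' z' l ih =>
    have h' : cj (f T' x' y' z') (l.all f) = true := h
    rw [cj_true] at h'
    rcases hm with ⟨rfl, rfl, rfl, rfl⟩ | hm
    · exact h'.1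
    · exact ih h'.2 hm

theorem CL.all_at {S : CL} {f : ℕ → TL → Bool} (h : S.all f = true) {i tv : ℕ} {T : TL}
    (hm : S.At i tv T) : f tv T = true := by
  induction S generalizing i with
  | nil => exact hm.elim
  | cons tv' T' l ih =>
    have h' : cj (f tv' T') (l.all f) = true := h
    rw [cj_true] at h'
    cases i with
    | zero =>
      obtain ⟨rfl, rfl⟩ := hm
      exact h'.1
    | succ i => exact ih h'.2 hm

theorem all2_at {S : QL} {S' : NLL} {f : ℕ → ℕ → ℕ → ℕ → NL → Bool}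
    (h : all2 S S' f = true) {i : ℕ} {w w' : ℕ × ℕ} {y : NL} (h1 : S.At i w w')
    (h2 : S'.At i y) : f w.1 w.2 w'.1 w'.2 y = true := by
  induction S generalizing S' i with
  | nil => exact h1.elim
  | cons N W N' W' l ih =>
    cases S' with
    | nil => exact h2.elim
    | cons y' r =>
      have h' : cj (f N W N' W' y') (all2 l r f) = true := h
      rw [cj_true] at h'
      cases i with
      | zero =>
        obtain ⟨rfl, rfl⟩ := h1
        obtain rfl := h2
        exact h'.1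
      | succ i => exact ih h'.2 h1 h2

theorem all3_at {S S' S'' : NL} {f : ℕ → ℕ → ℕ → ℕ → ℕ → ℕ → Bool}
    (h : all3 S S' S'' f = true) {i : ℕ} {w w' w'' : ℕ × ℕ} (h1 : S.At i w)
    (h2 : S'.At i w') (h3 : S''.At i w'') : f w.1 w.2 w'.1 w'.2 w''.1 w''.2 = true := by
  induction S generalizing S' S'' i with
  | nil => exact h1.elim
  | cons N W l ih =>
    cases S' with
    | nil => exact h2.elim
    | cons N' W' r =>
      cases S'' with
      | nil => exact h3.elim
      | cons N'' W'' r' =>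
        have h' : cj (f N W N' W' N'' W'') (all3 l r r' f) = true := h
        rw [cj_true] at h'
        cases i with
        | zero =>
          obtain rfl := h1
          obtain rfl := h2
          obtain rfl := h3
          exact h'.1
        | succ i => exact ih h'.2 h1 h2 h3

end Pool.Agent.L0h49.F
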