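import Pool.Agent.L0h49.F.A2
import Pool.Agent.L0h49.E.B3

/-! Soundness of the search: representations, profiles and single steps. -/

set_option maxRecDepth 100000

namespace Pool.Agent.L0h49.F

open H419R2 Finset
open Pool.Agent.N911 Pool.Agent.L0h49.E

/-- the first `n` entries -/
def Rq : ℕ → TL → (ℕ → ℕ) → (ℕ → ℕ) → Prop
  | 0, _, _, _ => True
  | _ + 1, .nil, _, _ => False
  | n + 1, .cons q k r, u, v => q = u 0 ∧ k = v 0 ∧ Rq n r (fun i => u (i + 1)) (fun i => v (i + 1))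

theorem Rq.mono {n m : ℕ} {T : TL} {u v : ℕ → ℕ} (h : Rq m T u v) (hn : n ≤ m) : Rq n T u v := by
  induction n generalizing m T u v with
  | zero => trivial
  | succ n ih =>
    obtain ⟨m, rfl⟩ : ∃ k, m = k + 1 := ⟨m - 1, by omega⟩
    cases T with
    | nil => exact h.elim
    | cons q k r =>
      obtain ⟨h1, h2, h3⟩ := h
      exact ⟨h1, h2, ih h3 (by omega)⟩

theorem Rq.hq {n : ℕ} {T : TL} {u v : ℕ → ℕ} (h : Rq (n + 1) T u v) : hq T = u 0 := by
  cases T with
  | nil => exact h.elim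
  | cons q k r => exact h.1

theorem Rq.hk {n : ℕ} {T : TL} {u v : ℕ → ℕ} (h : Rq (n + 1) T u v) : hk T = v 0 := by
  cases T with
  | nil => exact h.elim
  | cons q k r => exact h.2.1

theorem Rq.tl {n : ℕ} {T : TL} {u v : ℕ → ℕ} (h : Rq (n + 1) T u v) :
    Rq n (tl T) (fun i => u (i + 1)) (fun i => v (i + 1)) := by
  cases T with
  | nil => exact h.elim
  | cons q k r => exact h.2.2

theorem Rq.mp {n : ℕ} {T : TL} {u v : ℕ → ℕ} (h : Rq n T u v) (fx fe : ℕ → ℕ) :
    Rq n (mp fx fe T) (fun i => fx (u i)) (fun i => fe (v i)) := by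
  induction n generalizing T u v with
  | zero => trivial
  | succ n ih =>
    cases T with
    | nil => exact h.elim
    | cons q k r =>
      obtain ⟨h1, h2, h3⟩ := h
      exact ⟨by rw [h1], by rw [h2], ih h3⟩

theorem Rq.zp {n : ℕ} {T T' : TL} {u v u' v' : ℕ → ℕ} (h : Rq n T u v) (h' : Rq n T' u' v')
    (fx fe : ℕ → ℕ → ℕ) :
    Rq n (zpP fx fe T T') (fun i => fx (u i) (u' i)) (fun i => fe (v i) (v' i)) := by
  induction n generalizing T u v T' u' v' with
  | zero => trivial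
  | succ n ih =>
    cases T with
    | nil => exact h.elim
    | cons q k r =>
      have e1 := h'.hq
      have e2 := h'.hk
      obtain ⟨h1, h2, h3⟩ := h
      exact ⟨by rw [h1, e1], by rw [h2, e2], ih h3 h'.tl⟩

theorem it_zero (a : ℕ) (f : Fm) : it a f 0 = f := rfl

theorem mkGP_rep {D : ℤ} (H : BaseH D) {l I : ℕ} (l1 : 1 < l) (hI : chkI l I = true)
    (hl : l ∣ M2n) (a n : ℕ) {f : Fm} (hf : f.disc = D) :
    Rq (n + 1) (mkGP l I a n (res f.A l) (res (nBh f) l) (res (nCh f) l))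
      (fun i => 7 * res (it a f i).A l) (fun i => ixh l (it a f i)) := by
  have hl0 : 0 < l := by omega
  induction n generalizing f with
  | zero => exact ⟨rfl, rfl, trivial⟩
  | succ n ih =>
    have eA := H.ivA hf hl
    have eC := H.ivC hf hl
    have ci : ((look I (res (nCh f) l) : ℕ) : ZMod l) = ((f.A * ivh f.C : ℤ) : ZMod l) := by
      apply inv_of l1 hI
      unfold nCh
      push_cast at eA eC ⊢
      linear_combination (f.C : ZMod l) * (ivh f.C : ZMod l) * eA + eC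
    have cA := res_cast' f.A hl0
    have cB := res_cast' (nBh f) hl0
    have cC := res_cast' (nCh f) hl0
    have cl : ((l : ℕ) : ZMod l) = 0 := CharP.cast_eq_zero _ _
    have h1 : res f.A l * res (nCh f) l % l = res (f.step a).A l := by
      apply mod_res hl0
      change ((res f.A l * res (nCh f) l : ℕ) : ZMod l) = ((f.C : ℤ) : ZMod l)
      rw [Nat.cast_mul, cA, cC]
      unfold nCh
      push_cast at eA ⊢
      linear_combination (f.C : ZMod l) * eA
    have h2 : (2 * a * res (nCh f) l + (l - res (nBh f) l)) * look I (res (nCh f) l) % l =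
        res (nBh (f.step a)) l := by
      apply mod_res hl0
      change (((2 * a * res (nCh f) l + (l - res (nBh f) l)) * look I (res (nCh f) l) : ℕ) : ZMod l) =
        (((2 * a * f.C - f.B) * ivh f.C : ℤ) : ZMod l)
      rw [Nat.cast_mul, Nat.cast_add, Nat.cast_mul, Nat.cast_mul,
        Nat.cast_sub (res_lt (nBh f) hl0).le, cB, cC, ci, cl]
      unfold nCh nBh
      push_cast at eA ⊢
      linear_combination (2 * (a : ZMod l) * f.C - f.B) * (ivh f.C : ZMod l) * eA
    have h3 : (1 + a * res (nBh f) l + a * a * (l - res (nCh f) l)) * look I (res (nCh f) l) % l =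
        res (nCh (f.step a)) l := by
      apply mod_res hl0
      change (((1 + a * res (nBh f) l + a * a * (l - res (nCh f) l)) * look I (res (nCh f) l) : ℕ) :
        ZMod l) = (((f.A + a * f.B - a ^ 2 * f.C) * ivh f.C : ℤ) : ZMod l)
      rw [Nat.cast_mul, Nat.cast_add, Nat.cast_add, Nat.cast_mul, Nat.cast_mul, Nat.cast_mul,
        Nat.cast_sub (res_lt (nCh f) hl0).le, cB, cC, ci, cl]
      unfold nCh nBh
      push_cast at eA ⊢
      linear_combination ((a : ZMod l) * f.B - (a : ZMod l) ^ 2 * f.C) * (ivh f.C : ZMod l) * eA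
    refine ⟨rfl, rfl, ?_⟩
    rw [h1, h2, h3]
    have e := ih (f := f.step a) (by rw [Fm.disc_step]; exact hf)
    have e1 : ∀ i, it a (f.step a) i = it a f (i + 1) := fun i => it_step a f i
    simp only [e1] at e
    exact e

theorem nBh_cg {D : ℤ} (H : BaseH D) {l : ℕ} (hl : l ∣ M2n) {f g : Fm} (hf : f.disc = D)
    (hg : g.disc = D) (h : Cg l f g) : ((nBh f : ℤ) : ZMod l) = nBh g := by
  have e1 := H.ivA hf hl
  have e2 := H.ivA hg hl
  unfold nBh
  push_cast at e1 e2 ⊢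
  rw [← h.hA] at e2
  rw [← h.hB]
  linear_combination (f.B : ZMod l) * (ivh g.A : ZMod l) * e1 -
    (f.B : ZMod l) * (ivh f.A : ZMod l) * e2

theorem sl1_digit_zero {d n : ℕ} (hd : d < 128) : sl1 (d + 128 * n) 0 = d := by
  change (d + 128 * n) >>> 0 % 128 = d
  rw [Nat.shiftRight_zero, Nat.add_mul_mod_self_left, Nat.mod_eq_of_lt hd]

theorem sl1_digit_succ {d n i : ℕ} (hd : d < 128) :
    sl1 (d + 128 * n) (7 * (i + 1)) = sl1 n (7 * i) := by
  change (d + 128 * n) >>> (7 * (i + 1)) % 128 = n >>> (7 * i) % 128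
  have e : 7 * (i + 1) = 7 + 7 * i := by ring
  rw [e, Nat.shiftRight_add]
  congr 2
  rw [Nat.shiftRight_eq_div_pow]
  have e2 : (2 : ℕ) ^ 7 = 128 := by norm_num
  rw [e2]
  omega

theorem sl2_digit_zero {d n : ℕ} (hd : d < 16384) : sl2 (d + 16384 * n) (7 * 0) = d := by
  change (d + 16384 * n) >>> 0 % 16384 = d
  rw [Nat.shiftRight_zero, Nat.add_mul_mod_self_left, Nat.mod_eq_of_lt hd]

theorem sl2_div (n i : ℕ) : sl2 (n / 16384) (7 * i) = sl2 n (7 * (i + 1)) := by
  change (n / 16384) >>> (7 * i + 7 * i) % 16384 = n >>> (7 * (i + 1) + 7 * (i + 1)) % 16384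
  have e : 7 * (i + 1) + 7 * (i + 1) = 14 + (7 * i + 7 * i) := by ring
  have e2 : n / 16384 = n >>> 14 := by rw [Nat.shiftRight_eq_div_pow]
  rw [e, e2, ← Nat.shiftRight_add]

theorem sl2_digit_succ {d n i : ℕ} (hd : d < 16384) :
    sl2 (d + 16384 * n) (7 * (i + 1)) = sl2 n (7 * i) := by
  rw [← sl2_div]
  congr 1
  omega

theorem tvP_digit {l a : ℕ} (hl : l ≤ 128) (hl0 : 0 < l) {n : ℕ} {T : TL} {u v : ℕ → ℕ}
    (h : Rq n T u v) {i : ℕ} (hi : i < n) :
    sl1 (tvP l a n T) (7 * i) = (2 * a + (l - v i / 7 / l)) % l := by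
  induction n generalizing T u v i with
  | zero => omega
  | succ n ih =>
    have e : tvP l a (n + 1) T = (2 * a + (l - hk T / 7 / l)) % l + 128 * tvP l a n (tl T) := rfl
    have hd : (2 * a + (l - hk T / 7 / l)) % l < 128 := lt_of_lt_of_le (Nat.mod_lt _ hl0) hl
    rw [e]
    cases i with
    | zero =>
      rw [Nat.mul_zero, sl1_digit_zero hd, h.hk]
    | succ i =>
      rw [sl1_digit_succ hd]
      exact ih h.tl (by omega)

theorem tv_digit {l a n m : ℕ} (hl : l ≤ 128) (l1 : 1 < l) {g : Fm} {T : TL}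
    (h : Rq (m + 1) T (fun i => 7 * res (it a g i).A l) (fun i => ixh l (it a g i)))
    (hn : n ≤ m) {i : ℕ} (hi : i < n) :
    sl1 (tvP l a n (tl T)) (7 * i) = res (2 * a - nBh (it a g (i + 1))) l := by
  have hl0 : 0 < l := by omega
  rw [tvP_digit hl hl0 (h.tl.mono hn) hi]
  apply mod_res hl0
  change ((2 * a + (l - ixh l (it a g (i + 1)) / 7 / l) : ℕ) : ZMod l) = _
  have e : ixh l (it a g (i + 1)) / 7 / l = res (nBh (it a g (i + 1))) l := by
    unfold ixh pk
    rw [Nat.mul_div_cancel_left _ (by norm_num)]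
    rw [mul_comm, Nat.mul_add_div hl0, Nat.div_eq_of_lt (res_lt _ hl0), add_zero]
  have cl : ((l : ℕ) : ZMod l) = 0 := CharP.cast_eq_zero _ _
  rw [e, Nat.cast_add, Nat.cast_sub (res_lt _ hl0).le, res_cast' _ hl0, cl]
  push_cast
  ring

/-- partial sums -/
def DD (p a4 : ℕ) (xs es : ℕ → ℕ) (D : ℕ) : ℕ → ℕ
  | 0 => D
  | i + 1 => (DD p a4 xs es D i + (2 * (xs i * (es i % 128)) + a4 * (xs i * (es i / 128) % p))) % p

theorem DD_shift (p a4 : ℕ) (xs es : ℕ → ℕ) (D i : ℕ) :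
    DD p a4 (fun i => xs (i + 1)) (fun i => es (i + 1))
      ((D + (2 * (xs 0 * (es 0 % 128)) + a4 * (xs 0 * (es 0 / 128) % p))) % p) i =
    DD p a4 xs es D (i + 1) := by
  induction i with
  | zero => rfl
  | succ i ih =>
    have e : ∀ (xs es : ℕ → ℕ) (D i : ℕ), DD p a4 xs es D (i + 1) = (DD p a4 xs es D i +
      (2 * (xs i * (es i % 128)) + a4 * (xs i * (es i / 128) % p))) % p := fun _ _ _ _ => rfl
    rw [e, ih, e]
    rfl

theorem DD_lt {p a4 : ℕ} {xs es : ℕ → ℕ} {D : ℕ} (hp : 0 < p) (hD : D < p) (i : ℕ) :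
    DD p a4 xs es D i < p := by
  cases i with
  | zero => exact hD
  | succ i => exact Nat.mod_lt _ hp

theorem pflP_spec {gx ge : ℕ → ℕ → ℕ} {p a4 : ℕ} (hp : 0 < p) (hp' : p ≤ 128) {n : ℕ} {T T' : TL}
    {u v u' v' : ℕ → ℕ} (h : Rq n T u v) (h' : Rq n T' u' v') {D : ℕ} (hD : D < p) :
    (pflP gx ge p a4 n T T' D).2 =
      DD p a4 (fun i => gx (u i) (u' i)) (fun i => ge (v i) (v' i)) D n ∧
    ∀ i < n, sl2 (pflP gx ge p a4 n T T' D).1 (7 * i) =
      DD p a4 (fun i => gx (u i) (u' i)) (fun i => ge (v i) (v' i)) D i +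
        128 * (gx (u i) (u' i) * (ge (v i) (v' i) / 128) % p) := by
  induction n generalizing T T' u v u' v' D with
  | zero => exact ⟨rfl, fun i hi => absurd hi (by omega)⟩
  | succ n ih =>
    have e1 : (pflP gx ge p a4 (n + 1) T T' D).1 =
      D + 128 * (gx (hq T) (hq T') * (ge (hk T) (hk T') / 128) % p) + 16384 *
      (pflP gx ge p a4 n (tl T) (tl T') ((D + (2 * (gx (hq T) (hq T') *
        (ge (hk T) (hk T') % 128)) + a4 * (gx (hq T) (hq T') * (ge (hk T) (hk T') / 128) % p)))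
          % p)).1 := rfl
    have e2 : (pflP gx ge p a4 (n + 1) T T' D).2 =
      (pflP gx ge p a4 n (tl T) (tl T') ((D + (2 * (gx (hq T) (hq T') *
        (ge (hk T) (hk T') % 128)) + a4 * (gx (hq T) (hq T') * (ge (hk T) (hk T') / 128) % p)))
          % p)).2 := rfl
    rw [e1, e2, h.hq, h.hk, h'.hq, h'.hk]
    obtain ⟨i1, i2⟩ := ih h.tl h'.tl (D := (D + (2 * (gx (u 0) (u' 0) *
        (ge (v 0) (v' 0) % 128)) + a4 * (gx (u 0) (u' 0) * (ge (v 0) (v' 0) / 128) % p))) % p)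
        (Nat.mod_lt _ hp)
    have hy : gx (u 0) (u' 0) * (ge (v 0) (v' 0) / 128) % p < p := Nat.mod_lt _ hp
    refine ⟨?_, ?_⟩
    · rw [i1]
      exact DD_shift p a4 (fun i => gx (u i) (u' i)) (fun i => ge (v i) (v' i)) D n
    · intro i hi
      cases i with
      | zero =>
        rw [sl2_digit_zero (by omega)]
        rfl
      | succ i =>
        rw [sl2_digit_succ (by omega), i2 i (by omega)]
        congr 1
        exact DD_shift p a4 (fun i => gx (u i) (u' i)) (fun i => ge (v i) (v' i)) D i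

/-- valid profile -/
structure Prf (c : CD) [NeZero c.q] (a : ℕ) (g : Fm) (L : ℕ) (w : ℕ × ℕ) : Prop where
  dg : ∀ h < L, ((sl2 w.1 (7 * h) % 128 : ℕ) : ZMod c.p) = 2 * SG (chi c.q c.p c.T) a g h ∧
    ((sl2 w.1 (7 * h) / 128 : ℕ) : ZMod c.p) = sy (chi c.q c.p c.T) (it a g (h + 1))
  sm : (w.2 : ZMod c.p) = 2 * (SG (chi c.q c.p c.T) a g L - SG (chi c.q c.p c.T) a g 0)

theorem pfP_prf {c : CD} [NeZero c.q] {D : ℤ} {gx ge : ℕ → ℕ → ℕ} {X E : Fm → ℕ}
    (hE : HE c D X E) {g : Fm} (hg : g.disc = D) {T T' : TL} {a n m : ℕ} {u v u' v' : ℕ → ℕ}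
    (h : Rq (m + 1) T u v) (h' : Rq (m + 1) T' u' v') (hn : n ≤ m)
    (hX : ∀ i, gx (u i) (u' i) = X (it a g i)) (hY : ∀ i, ge (v i) (v' i) = E (it a g i))
    {p : ℕ} (hpc : c.p = p) (hp : 0 < p) (hp' : p ≤ 128) :
    Prf c a g n (pfP gx ge p a n T T') := by
  subst hpc
  have h0 : gx (hq T) (hq T') * (ge (hk T) (hk T') % 128) % c.p < c.p := Nat.mod_lt _ hp
  obtain ⟨s1, s2⟩ := pflP_spec (gx := gx) (ge := ge) (a4 := 4 * a) hp hp' (h.tl.mono hn)
    (h'.tl.mono hn) h0
  have hd : ∀ i, (it a g i).disc = D := fun i => by rw [it_disc]; exact hg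
  have key : ∀ i, ((DD c.p (4 * a) (fun i => gx (u (i + 1)) (u' (i + 1)))
      (fun i => ge (v (i + 1)) (v' (i + 1)))
      (gx (hq T) (hq T') * (ge (hk T) (hk T') % 128) % c.p) i : ℕ) : ZMod c.p) =
      2 * SG (chi c.q c.p c.T) a g i := by
    intro i
    induction i with
    | zero =>
      change ((gx (hq T) (hq T') * (ge (hk T) (hk T') % 128) % c.p : ℕ) : ZMod c.p) = _
      rw [ZMod.natCast_mod, h.hq, h.hk, h'.hq, h'.hk, hX, hY, SG_zero, Nat.cast_mul,
        hE.hx _ (hd 0)]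
      unfold se
      rw [it_zero]
      ring
    | succ i ih =>
      have e : DD c.p (4 * a) (fun i => gx (u (i + 1)) (u' (i + 1)))
        (fun i => ge (v (i + 1)) (v' (i + 1)))
        (gx (hq T) (hq T') * (ge (hk T) (hk T') % 128) % c.p) (i + 1) =
        (DD c.p (4 * a) (fun i => gx (u (i + 1)) (u' (i + 1)))
        (fun i => ge (v (i + 1)) (v' (i + 1)))
        (gx (hq T) (hq T') * (ge (hk T) (hk T') % 128) % c.p) i +
        (2 * (gx (u (i + 1)) (u' (i + 1)) * (ge (v (i + 1)) (v' (i + 1)) % 128)) +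
          4 * a * (gx (u (i + 1)) (u' (i + 1)) * (ge (v (i + 1)) (v' (i + 1)) / 128) % c.p)))
            % c.p := rfl
      rw [e, ZMod.natCast_mod, Nat.cast_add, ih, hX, hY, Nat.cast_add, Nat.cast_mul 2,
        Nat.cast_mul (X _), hE.hx _ (hd _), Nat.cast_mul, Nat.cast_mul 4, ZMod.natCast_mod,
        Nat.cast_mul (X _), hE.hy _ (hd _), SG_succ]
      unfold se sy
      push_cast
      ring
  refine ⟨?_, ?_⟩
  · intro i hi
    have e : sl2 (pfP gx ge c.p a n T T').1 (7 * i) = _ := s2 i hi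
    have l1 := DD_lt (a4 := 4 * a) (xs := fun i => gx (u (i + 1)) (u' (i + 1)))
      (es := fun i => ge (v (i + 1)) (v' (i + 1))) hp h0 i
    rw [e]
    constructor
    · rw [Nat.add_mul_mod_self_left, Nat.mod_eq_of_lt (by omega), key]
    · rw [Nat.add_mul_div_left _ _ (by norm_num), Nat.div_eq_of_lt (by omega), Nat.zero_add,
        ZMod.natCast_mod, hX, hY, Nat.cast_mul, hE.hy _ (hd _)]
      rfl
  · have e : (pfP gx ge c.p a n T T').2 = ((pflP gx ge c.p (4 * a) n (tl T) (tl T')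
      (gx (hq T) (hq T') * (ge (hk T) (hk T') % 128) % c.p)).2 +
      (c.p - gx (hq T) (hq T') * (ge (hk T) (hk T') % 128) % c.p)) % c.p := rfl
    rw [e, ZMod.natCast_mod, Nat.cast_add, Nat.cast_sub h0.le, s1, key]
    have k0 := key 0
    have e0 : DD c.p (4 * a) (fun i => gx (u (i + 1)) (u' (i + 1)))
      (fun i => ge (v (i + 1)) (v' (i + 1)))
      (gx (hq T) (hq T') * (ge (hk T) (hk T') % 128) % c.p) 0 =
      gx (hq T) (hq T') * (ge (hk T) (hk T') % 128) % c.p := rfl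
    rw [e0] at k0
    rw [k0, CharP.cast_eq_zero]
    ring

/-- known residue -/
def St (h R Mo : ℕ) : Prop := ∃ s, h = R + Mo * s

theorem St.mod {h R Mo n : ℕ} (H : St h R Mo) (hn : n ∣ Mo) : h % n = R % n := by
  obtain ⟨s, rfl⟩ := H
  obtain ⟨k, rfl⟩ := hn
  rw [mul_assoc, Nat.add_mul_mod_self_left]

theorem ext_sound {n R Mo h : ℕ} {f : ℕ → ℕ → Bool} (hn : 0 < n) (H : St h R Mo)
    (hf : ext n R Mo f = true) : ∃ R' Mo', St h R' Mo' ∧ Mo ∣ Mo' ∧ n ∣ Mo' ∧ f R' Mo' = true := by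
  unfold ext at hf
  rw [force_eq, force_eq, allN_iff] at hf
  obtain ⟨s, rfl⟩ := H
  have hr : 0 < Nat.div n (Nat.gcd Mo n) := by
    change 0 < n / Nat.gcd Mo n
    exact Nat.div_pos (Nat.le_of_dvd hn (Nat.gcd_dvd_right _ _)) (Nat.gcd_pos_of_pos_right _ hn)
  have h1 := hf (s % Nat.div n (Nat.gcd Mo n)) (Nat.mod_lt _ hr)
  rw [force_eq] at h1
  refine ⟨_, _, ⟨s / Nat.div n (Nat.gcd Mo n), ?_⟩, ⟨_, rfl⟩, ?_, h1⟩
  · change R + Mo * s = R + Mo * (s % Nat.div n (Nat.gcd Mo n)) +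
      Mo * Nat.div n (Nat.gcd Mo n) * (s / Nat.div n (Nat.gcd Mo n))
    have e := Nat.mod_add_div s (Nat.div n (Nat.gcd Mo n))
    calc R + Mo * s = R + Mo * (s % Nat.div n (Nat.gcd Mo n) +
        Nat.div n (Nat.gcd Mo n) * (s / Nat.div n (Nat.gcd Mo n))) := by rw [e]
      _ = _ := by ring
  · change n ∣ Mo * (n / Nat.gcd Mo n)
    obtain ⟨x, hx⟩ := Nat.gcd_dvd_left Mo n
    have e : Nat.gcd Mo n * (n / Nat.gcd Mo n) = n := Nat.mul_div_cancel' (Nat.gcd_dvd_right _ _)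
    refine ⟨x, ?_⟩
    calc Mo * (n / Nat.gcd Mo n) = Nat.gcd Mo n * x * (n / Nat.gcd Mo n) := by rw [← hx]
      _ = Nat.gcd Mo n * (n / Nat.gcd Mo n) * x := by ring
      _ = n * x := by rw [e]

theorem lin_inv {p I A b : ℕ} (hp : p.Prime) (hI : chkI p I = true) (hA : A < p) (hA0 : A ≠ 0)
    (hb : b < p) {x : ZMod p} (hx : (A : ZMod p) * x + b = 0) :
    (((p - b) * look I A % p : ℕ) : ZMod p) = x := by
  have hF := Fact.mk hp
  have hu : IsUnit ((A : ℕ) : ZMod p) := by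
    rw [isUnit_iff_ne_zero]
    intro h0
    rw [ZMod.natCast_eq_zero_iff] at h0
    have := Nat.le_of_dvd (by omega) h0
    omega
  have h5 := chkI_sound hp.one_lt hI hA hu
  rw [ZMod.natCast_mod, Nat.cast_mul, Nat.cast_sub hb.le, CharP.cast_eq_zero]
  linear_combination -((look I A : ℕ) : ZMod p) * hx + x * h5

theorem sv_sound {p I A B : ℕ} (hp : p.Prime) (hI : chkI p I = true) {f : ℕ → Bool}
    (h : sv p I A B f = true) {x : ℕ} (hxp : x < p) (hx : (A : ZMod p) * x + B = 0) :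
    f x = true := by
  have hp0 := hp.pos
  unfold sv at h
  have hA : ((A % p : ℕ) : ZMod p) = A := ZMod.natCast_mod _ _
  have hB : ((B % p : ℕ) : ZMod p) = B := ZMod.natCast_mod _ _
  have hAl : A % p < p := Nat.mod_lt _ hp0
  have e : Nat.mod A p = A % p := rfl
  rw [e] at h
  generalize A % p = A' at h hA hAl
  cases A' with
  | zero =>
    have h' : imp (Nat.beq (Nat.mod B p) 0) (allN p f) = true := h
    rw [← hA, Nat.cast_zero, zero_mul, zero_add] at hx
    have h1 := imp_true h' (beq_mod hx)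
    rw [allN_iff] at h1
    exact h1 x hxp
  | succ n =>
    have h' : force (Nat.mod (Nat.mul (Nat.sub p (Nat.mod B p)) (look I (Nat.succ n))) p) f =
      true := h
    rw [force_eq] at h'
    have e1 := lin_inv hp hI hAl (by omega) (Nat.mod_lt B hp0) (x := (x : ZMod p))
      (by rw [hA, hB]; exact hx)
    have e2 : Nat.mod (Nat.mul (Nat.sub p (Nat.mod B p)) (look I (Nat.succ n))) p = x := by
      change (p - B % p) * look I (n + 1) % p = x
      rw [ZMod.natCast_mod, ZMod.natCast_eq_natCast_iff'] at e1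
      rw [e1, Nat.mod_eq_of_lt hxp]
    rw [e2] at h'
    exact h'

theorem lc_eq (m n : ℕ) : lc m n = Nat.lcm m n := rfl

section relation

variable {c : CD} [NeZero c.q] {a h L : ℕ} {g : Fm} {t : ℤ}

/-- the relation with the period reduced -/
theorem rel_red (hper : ∀ i, Cg c.q (it a g (i + L)) (it a g i)) {w : ℕ × ℕ}
    (hP : Prf c a g L w) (hL : 0 < L)
    (hR : SG (chi c.q c.p c.T) a g h + t * sy (chi c.q c.p c.T) (it a g (h + 1)) = 0) :
    ((sl2 w.1 (7 * (h % L)) % 128 : ℕ) : ZMod c.p) + w.2 * (h / L : ℕ) +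
      2 * t * ((sl2 w.1 (7 * (h % L)) / 128 : ℕ) : ZMod c.p) = 0 := by
  obtain ⟨d1, d2⟩ := hP.dg (h % L) (Nat.mod_lt _ hL)
  rw [d1, d2, hP.sm]
  have e := Nat.mod_add_div h L
  have e1 : SG (chi c.q c.p c.T) a g h = SG (chi c.q c.p c.T) a g (h % L) +
      (h / L : ℕ) * (SG (chi c.q c.p c.T) a g L - SG (chi c.q c.p c.T) a g 0) := by
    conv_lhs => rw [← e]
    exact SG_mul hper (h % L) (h / L)
  have e2 : sy (chi c.q c.p c.T) (it a g (h + 1)) =
      sy (chi c.q c.p c.T) (it a g (h % L + 1)) := by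
    have e3 : h + 1 = (h % L + 1) + L * (h / L) := by omega
    conv_lhs => rw [e3]
    exact sy_mul hper (h % L + 1) (h / L)
  rw [e1, e2] at hR
  linear_combination 2 * hR

theorem rl_sound (hper : ∀ i, Cg c.q (it a g (i + L)) (it a g i)) {w : ℕ × ℕ}
    (hP : Prf c a g L w) (hL : 0 < L)
    (hR : SG (chi c.q c.p c.T) a g h + t * sy (chi c.q c.p c.T) (it a g (h + 1)) = 0)
    {p I : ℕ} (hpc : c.p = p) (hp : p.Prime) (hI : chkI p I = true) {R Mo tt : ℕ}
    (ht : (tt : ZMod p) = t) (H : St h R Mo) (hd : L ∣ Mo) {f : ℕ → ℕ → Bool}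
    (hf : rl p I L w.1 w.2 R Mo tt f = true) :
    ∃ R' Mo', St h R' Mo' ∧ Mo ∣ Mo' ∧ f R' Mo' = true := by
  subst hpc
  have hp0 := hp.pos
  have r := rel_red hper hP hL hR
  rw [H.mod hd] at r
  obtain ⟨s, rfl⟩ := H
  obtain ⟨k, rfl⟩ := hd
  have e1 : (R + L * k * s) / L = R / L + k * s := by
    rw [mul_assoc, Nat.add_mul_div_left _ _ hL]
  rw [e1] at r
  have e2 : L * k / L = k := Nat.mul_div_cancel_left k hL
  unfold rl at hf
  rw [force_eq, force_eq] at hf
  have hb : ((Nat.mod (Nat.add (Nat.add (Nat.mod (sl2 w.1 (Nat.mul 7 (Nat.mod R L))) 128)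
      (Nat.mul w.2 (Nat.div R L))) (Nat.mul (Nat.mul 2 tt)
      (Nat.div (sl2 w.1 (Nat.mul 7 (Nat.mod R L))) 128))) c.p : ℕ) : ZMod c.p) =
      ((sl2 w.1 (7 * (R % L)) % 128 : ℕ) : ZMod c.p) + w.2 * (R / L : ℕ) +
      2 * t * ((sl2 w.1 (7 * (R % L)) / 128 : ℕ) : ZMod c.p) := by
    change (((sl2 w.1 (7 * (R % L)) % 128 + w.2 * (R / L) + 2 * tt *
      (sl2 w.1 (7 * (R % L)) / 128)) % c.p : ℕ) : ZMod c.p) = _
    rw [ZMod.natCast_mod, Nat.cast_add, Nat.cast_add, Nat.cast_mul, Nat.cast_mul, Nat.cast_mul 2,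
      ht]
    push_cast
    ring
  have hbl : Nat.mod (Nat.add (Nat.add (Nat.mod (sl2 w.1 (Nat.mul 7 (Nat.mod R L))) 128)
      (Nat.mul w.2 (Nat.div R L))) (Nat.mul (Nat.mul 2 tt)
      (Nat.div (sl2 w.1 (Nat.mul 7 (Nat.mod R L))) 128))) c.p < c.p := Nat.mod_lt _ hp0
  set b := Nat.mod (Nat.add (Nat.add (Nat.mod (sl2 w.1 (Nat.mul 7 (Nat.mod R L))) 128)
      (Nat.mul w.2 (Nat.div R L))) (Nat.mul (Nat.mul 2 tt)
      (Nat.div (sl2 w.1 (Nat.mul 7 (Nat.mod R L))) 128))) c.p with hbd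
  have hA : ((Nat.mod (Nat.mul w.2 (Nat.div (L * k) L)) c.p : ℕ) : ZMod c.p) = w.2 * k := by
    change ((w.2 * (L * k / L) % c.p : ℕ) : ZMod c.p) = _
    rw [e2, ZMod.natCast_mod, Nat.cast_mul]
  have hAl : Nat.mod (Nat.mul w.2 (Nat.div (L * k) L)) c.p < c.p := Nat.mod_lt _ hp0
  have hx : (w.2 * k : ZMod c.p) * s + b = 0 := by
    rw [hb]
    push_cast at r
    linear_combination r
  rw [← hA] at hx
  generalize Nat.mod (Nat.mul w.2 (Nat.div (L * k) L)) c.p = A at hf hx hAl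
  cases A with
  | zero =>
    have hf' : imp (Nat.beq b 0) (f R (L * k)) = true := hf
    rw [Nat.cast_zero, zero_mul, zero_add, ZMod.natCast_eq_zero_iff] at hx
    have hb0 : b = 0 := Nat.eq_zero_of_dvd_of_lt hx hbl
    refine ⟨R, L * k, ⟨s, rfl⟩, dvd_rfl, imp_true hf' (by rw [hb0]; rfl)⟩
  | succ A =>
    have hf' : force (Nat.mod (Nat.mul (Nat.sub c.p b) (look I (Nat.succ A))) c.p) (fun s =>
       force (Nat.add R (Nat.mul (L * k) s)) (fun R' => force (Nat.mul (L * k) c.p)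
        (fun Mo' => f R' Mo'))) = true := hf
    rw [force_eq, force_eq, force_eq] at hf'
    have e3 := lin_inv hp hI hAl (by omega) hbl hx
    have e4 : ((p_ : ℕ) → p_ = (c.p - b) * look I (A + 1) % c.p → (p_ : ZMod c.p) = s) := by
      intro p_ hp_
      rw [hp_]; exact e3
    have e5 := e4 _ rfl
    rw [ZMod.natCast_eq_natCast_iff'] at e5
    have e6 : (c.p - b) * look I (A + 1) % c.p < c.p := Nat.mod_lt _ hp0
    rw [Nat.mod_eq_of_lt e6] at e5
    refine ⟨_, _, ⟨s / c.p, ?_⟩, ⟨c.p, rfl⟩, hf'⟩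
    change R + L * k * s = R + L * k * ((c.p - b) * look I (A + 1) % c.p) + L * k * c.p * (s / c.p)
    rw [e5]
    have e := Nat.mod_add_div s c.p
    calc R + L * k * s = R + L * k * (s % c.p + c.p * (s / c.p)) := by rw [e]
      _ = _ := by ring

end relation

/-- what is proved by the scan at one place -/
theorem scn_sound {L W0 W1 W2 : ℕ} {nx : ℕ → ℕ → ℕ → Bool} {n : ℕ} {h N0 N1 N2 : ℕ}
    (hs : scn L W0 W1 W2 nx n h N0 N1 N2 = true) {i : ℕ} (hi : i < n) :
    sv 19 I19 W2 (sl2 N2 (7 * i) % 128) (fun s =>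
      sv 19 I19 (2 * (sl2 N0 (7 * i) / 128)) (sl2 N0 (7 * i) % 128 + s * W0) (fun t =>
        imp (Nat.beq ((sl2 N1 (7 * i) % 128 + s * W1 + 2 * t * (sl2 N1 (7 * i) / 128)) % 19) 0)
          (nx (h + i + L * s) (L * 19) t))) = true := by
  induction n generalizing h N0 N1 N2 i with
  | zero => omega
  | succ n ih =>
    have hs' : cj
      (sv 19 I19 W2 (Nat.mod N2 128) (fun s => force (Nat.mod N0 16384) (fun d =>
        sv 19 I19 (Nat.mul 2 (Nat.div d 128)) (Nat.add (Nat.mod d 128) (Nat.mul s W0)) (fun t =>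
          force (Nat.mod N1 16384) (fun d => imp (Nat.beq (Nat.mod (Nat.add (Nat.add (Nat.mod d 128)
            (Nat.mul s W1)) (Nat.mul (Nat.mul 2 t) (Nat.div d 128))) 19) 0)
            (force (Nat.add h (Nat.mul L s)) (fun R => force (Nat.mul L 19) (fun Mo =>
              nx R Mo t))))))))
      (force (Nat.succ h) (fun h => force (Nat.div N0 16384) (fun N0 =>
        force (Nat.div N1 16384) (fun N1 => force (Nat.div N2 16384) (fun N2 =>
          scn L W0 W1 W2 nx n h N0 N1 N2))))) = true := hs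
    rw [cj_true] at hs'
    obtain ⟨h1, h2⟩ := hs'
    rw [force_eq, force_eq, force_eq, force_eq] at h2
    cases i with
    | zero =>
      simp only [force_eq] at h1
      have e : ∀ N, sl2 N (7 * 0) = N % 16384 := fun N => rfl
      rw [e, e, e]
      have e2 : N2 % 16384 % 128 = N2 % 128 := Nat.mod_mod_of_dvd _ (by norm_num)
      rw [e2]
      exact h1
    | succ i =>
      have h3 := ih h2 (by omega : i < n)
      have e : ∀ N, sl2 (Nat.div N 16384) (7 * i) = sl2 N (7 * (i + 1)) := fun N => sl2_div N i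
      rw [e, e, e] at h3
      have e2 : Nat.succ h + i = h + (i + 1) := by omega
      rw [e2] at h3
      exact h3

/-- the true centre is in the list -/
theorem ctP_mem {l I Q a n nl : ℕ} {b : ℕ} (hb : tb Q ((b * b + 4) % l) = false) {k : ℕ}
    (hk : b < k) (S : CL) : ∃ i, (ctP l I Q a n nl k S).At i
      (tvP l a nl (tl (mkGP l I a n 1 b 1))) (mkGP l I a n 1 b 1) := by
  have mono : ∀ (k : ℕ) (S : CL) (i tv : ℕ) (T : TL), S.At i tv T →
      ∃ i, (ctP l I Q a n nl k S).At i tv T := by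
    intro k
    induction k with
    | zero => intro S i tv T h; exact ⟨i, h⟩
    | succ k ih =>
      intro S i tv T h
      change ∃ i, (ctP l I Q a n nl k (bif tb Q ((k * k + 4) % l) then S else
        CL.cons (tvP l a nl (tl (mkGP l I a n 1 k 1))) (mkGP l I a n 1 k 1) S)).At i tv T
      cases tb Q ((k * k + 4) % l) with
      | true => exact ih S i tv T h
      | false => exact ih (CL.cons _ _ S) (i + 1) tv T h
  induction k generalizing S with
  | zero => omega
  | succ k ih =>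
    change ∃ i, (ctP l I Q a n nl k (bif tb Q ((k * k + 4) % l) then S else
        CL.cons (tvP l a nl (tl (mkGP l I a n 1 k 1))) (mkGP l I a n 1 k 1) S)).At i _ _
    rcases Nat.lt_succ_iff_lt_or_eq.mp hk with h | h
    · exact ih h _
    · subst h
      rw [hb, Bool.cond_false]
      exact mono b _ 0 _ _ ⟨rfl, rfl⟩

end Pool.Agent.L0h49.F
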