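import Pool.Agent.L0h49.F.A3
import Pool.Agent.N911.D1
import Pool.Agent.N911.D3

/-! Soundness of the search: stages. -/

set_option maxRecDepth 100000

namespace Pool.Agent.L0h49.F

open H419R2 Finset
open Pool.Agent.N911 Pool.Agent.L0h49.E

/-- all that is used about a form at the centre -/
structure LS (a h : ℕ) (g : Fm) (t D : ℤ) : Prop where
  base : BaseH D
  disc : g.disc = D
  hA : ∀ l : ℕ, l ∈ LPh → (g.A : ZMod l) = 1
  hC : ∀ l : ℕ, l ∈ LPh → (g.C : ZMod l) = 1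
  ht : ∀ l : ℕ, l ∈ LPh → (t : ZMod l) = ((2 * a - nBh (it a g (h + 1)) : ℤ) : ZMod l)
  rel : ∀ c : CD, c.OK → c.q ∣ M2n → c.p ∣ M2n → ∀ _ : NeZero c.q,
    SG (chi c.q c.p c.T) a g h + t * sy (chi c.q c.p c.T) (it a g (h + 1)) = 0

/-- valid periods -/
structure POK (π : Pr) (a m : ℕ) : Prop where
  p3 : pOK 3 a π.n3 = true
  p5 : pOK 5 a π.n5 = true
  p7 : pOK 7 a π.n7 = true
  p13 : pOK 13 a π.n13 = true
  p19 : pOK 19 a π.n19 = true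
  p37 : pOK 37 a π.n37 = true
  z3 : 0 < π.n3
  z5 : 0 < π.n5
  z7 : 0 < π.n7
  z13 : 0 < π.n13
  z19 : 0 < π.n19
  z37 : 0 < π.n37
  b1 : lc π.n37 π.n7 ≤ m
  b2 : lc π.n37 π.n3 ≤ m
  b3 : lc π.n37 π.n5 ≤ m
  b4 : lc π.n19 π.n5 ≤ m
  b5 : lc π.n7 π.n19 ≤ m
  b6 : lc π.n7 (lc π.n3 π.n5) ≤ m
  b7 : lc π.n7 π.n13 ≤ m

/-- check of periods -/
def prOK (π : Pr) (a m : ℕ) : Bool :=
  cj (pOK 3 a π.n3) (cj (pOK 5 a π.n5) (cj (pOK 7 a π.n7) (cj (pOK 13 a π.n13)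
  (cj (pOK 19 a π.n19) (cj (pOK 37 a π.n37)
  (decide (0 < π.n3 ∧ 0 < π.n5 ∧ 0 < π.n7 ∧ 0 < π.n13 ∧ 0 < π.n19 ∧ 0 < π.n37 ∧
    lc π.n37 π.n7 ≤ m ∧ lc π.n37 π.n3 ≤ m ∧ lc π.n37 π.n5 ≤ m ∧ lc π.n19 π.n5 ≤ m ∧
    lc π.n7 π.n19 ≤ m ∧ lc π.n7 (lc π.n3 π.n5) ≤ m ∧ lc π.n7 π.n13 ≤ m)))))))

theorem POK_of {π : Pr} {a m : ℕ} (h : prOK π a m = true) : POK π a m := by
  unfold prOK at h
  rw [cj_true, cj_true, cj_true, cj_true, cj_true, cj_true, decide_eq_true_iff] at h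
  obtain ⟨h1, h2, h3, h4, h5, h6, h7, h8, h9, h10, h11, h12, h13, h14, h15, h16, h17, h18, h19⟩ := h
  exact ⟨h1, h2, h3, h4, h5, h6, h7, h8, h9, h10, h11, h12, h13, h14, h15, h16, h17, h18, h19⟩

/-- data of the true centre -/
structure Cn (l a m nl : ℕ) (g : Fm) (tv : ℕ) (T : TL) : Prop where
  tr : Rq (m + 1) T (fun i => 7 * res (it a g i).A l) (fun i => ixh l (it a g i))
  dg : ∀ i < nl, sl1 tv (7 * i) = res (2 * a - nBh (it a g (i + 1))) l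

section ls

variable {a h : ℕ} {g : Fm} {t D : ℤ} (S : LS a h g t D)

include S

theorem LS.trace {l I : ℕ} (hlp : l ∈ LPh) (l1 : 1 < l) (hI : chkI l I = true) (m : ℕ) :
    Rq (m + 1) (mkGP l I a m 1 (res (nBh g) l) 1)
      (fun i => 7 * res (it a g i).A l) (fun i => ixh l (it a g i)) := by
  have e1 : res g.A l = 1 := by
    symm
    apply res_unique l1
    rw [S.hA l hlp]
    simp
  have e2 : res (nCh g) l = 1 := by
    symm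
    apply res_unique l1
    have e3 := S.base.ivA S.disc (LPh_dvd hlp)
    push_cast at e3
    rw [S.hA l hlp, one_mul] at e3
    unfold nCh
    push_cast
    rw [S.hC l hlp, e3]
    simp
  have e := mkGP_rep S.base l1 hI (LPh_dvd hlp) a m S.disc
  rw [e1, e2] at e
  exact e

theorem LS.tb {l Q : ℕ} (hlp : l ∈ LPh) (l1 : 1 < l) (hQ : chkIq l Q = true) :
    tb Q ((res (nBh g) l * res (nBh g) l + 4) % l) = false := by
  have hl0 : 0 < l := by omega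
  by_contra hc
  have hc' := Bool.eq_true_of_not_eq_false hc
  have h2 := tb_square hl0 hQ hc'
  apply S.base.nsq l hlp
  have e3 := S.base.ivA S.disc (LPh_dvd hlp)
  push_cast at e3
  have hA := S.hA l hlp
  have hC := S.hC l hlp
  rw [hA, one_mul] at e3
  have h3 : ((res (nBh g) l * res (nBh g) l + 4 : ℕ) : ZMod l) = ((D : ℤ) : ZMod l) := by
    push_cast
    rw [res_cast' (nBh g) hl0, ← S.disc]
    unfold nBh Fm.disc
    push_cast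
    rw [hA, hC, e3]
    ring
  rw [h3] at h2
  exact h2

theorem LS.ctr {l I Q m nl : ℕ} (hlp : l ∈ LPh) (l1 : 1 < l) (l128 : l ≤ 128)
    (hI : chkI l I = true) (hQ : chkIq l Q = true) (hn : nl ≤ m) {f : CL → Bool}
    (hf : ctr l I Q a m nl f = true) :
    ∃ L : CL, ∃ (i tv : ℕ) (T : TL), L.At i tv T ∧ Cn l a m nl g tv T ∧ f L = true := by
  rw [ctr_eq] at hf
  obtain ⟨i, hi⟩ := ctP_mem (I := I) (a := a) (n := m) (nl := nl) (S.tb hlp l1 hQ)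
    (res_lt (nBh g) (by omega : 0 < l)) CL.nil
  have htr := S.trace hlp l1 hI m
  exact ⟨_, i, _, _, hi, ⟨htr, fun j hj => tv_digit l128 l1 htr hn hj⟩, hf⟩

theorem Cn.rs {l m nl tv : ℕ} {T : TL} (C : Cn l a m nl g tv T) (hlp : l ∈ LPh) (l1 : 1 < l)
    (hp : pOK l a nl = true) (h0 : 0 < nl) {R Mo : ℕ} (H : St h R Mo) (hd : nl ∣ Mo) :
    sl1 tv (7 * (R % nl)) = res t l := by
  have hl0 : 0 < l := by omega
  rw [← H.mod hd, C.dg _ (Nat.mod_lt _ h0)]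
  apply res_congr hl0
  rw [S.ht l hlp]
  have e : h + 1 = (h % nl + 1) + nl * (h / nl) := by
    have := Nat.mod_add_div h nl
    omega
  have e1 := nBh_cg S.base (LPh_dvd hlp) (by rw [it_disc]; exact S.disc)
    (by rw [it_disc]; exact S.disc) (per_mul hp g (h % nl + 1) (h / nl))
  rw [← e] at e1
  push_cast
  rw [e1]

/-- one relation -/
theorem LS.rl {c : CD} (hc : c.OK) (hq : c.q ∣ M2n) (hpm : c.p ∣ M2n) [hne : NeZero c.q]
    {L : ℕ} (hL : 0 < L) (hper : ∀ i, Cg c.q (it a g (i + L)) (it a g i)) {X E : Fm → ℕ}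
    (hE : HE c D X E) {gx ge : ℕ → ℕ → ℕ} {T T' : TL} {m : ℕ} {u v u' v' : ℕ → ℕ}
    (hT : Rq (m + 1) T u v) (hT' : Rq (m + 1) T' u' v') (hLm : L ≤ m)
    (hX : ∀ i, gx (u i) (u' i) = X (it a g i)) (hY : ∀ i, ge (v i) (v' i) = E (it a g i))
    {p I : ℕ} (hpc : c.p = p) (hp : p.Prime) (hI : chkI p I = true) (hp' : p ≤ 128)
    {R Mo tt : ℕ} (htt : tt = res t p) (H : St h R Mo) (hd : L ∣ Mo) {f : ℕ → ℕ → Bool}
    (hf : rl p I L (pfP gx ge p a L T T').1 (pfP gx ge p a L T T').2 R Mo tt f = true) :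
    ∃ R' Mo', St h R' Mo' ∧ Mo ∣ Mo' ∧ f R' Mo' = true :=
  rl_sound hper (pfP_prf hE S.disc hT hT' hLm hX hY hpc hp.pos hp') hL (S.rel c hc hq hpm hne)
    hpc hp hI (by rw [htt, res_cast' t hp.pos]) H hd hf

end ls

/-- two primes -/
theorem Cg_two {q l1 l2 n1 n2 a : ℕ} (hq : q = l1 * l2) (hc : Nat.Coprime l1 l2)
    (h1 : pOK l1 a n1 = true) (h2 : pOK l2 a n2 = true) (g : Fm) (i : ℕ) :
    Cg q (it a g (i + lc n1 n2)) (it a g i) := by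
  subst hq
  exact Cg.crt hc (per_dvd h1 (Nat.dvd_lcm_left _ _) g i) (per_dvd h2 (Nat.dvd_lcm_right _ _) g i)

theorem Cg_three {q l1 l2 l3 n1 n2 n3 a : ℕ} (hq : q = l1 * (l2 * l3)) (hc : Nat.Coprime l1 (l2 * l3))
    (hc' : Nat.Coprime l2 l3)
    (h1 : pOK l1 a n1 = true) (h2 : pOK l2 a n2 = true) (h3 : pOK l3 a n3 = true)
    (g : Fm) (i : ℕ) : Cg q (it a g (i + lc n1 (lc n2 n3))) (it a g i) := by
  subst hq
  refine Cg.crt hc (per_dvd h1 (Nat.dvd_lcm_left _ _) g i) (Cg.crt hc' ?_ ?_)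
  · exact per_dvd h2 ((Nat.dvd_lcm_left _ _).trans (Nat.dvd_lcm_right _ _)) g i
  · exact per_dvd h3 ((Nat.dvd_lcm_right _ _).trans (Nat.dvd_lcm_right _ _)) g i

theorem lc_pos {m n : ℕ} (hm : 0 < m) (hn : 0 < n) : 0 < lc m n := Nat.lcm_pos hm hn

theorem lc_dvd {m n k : ℕ} (hm : m ∣ k) (hn : n ∣ k) : lc m n ∣ k := Nat.lcm_dvd hm hn

/-- all true centres -/
structure Ctx (π : Pr) (a m h : ℕ) (g : Fm) (t D : ℤ) (T3 T5 T7 T13 T19 T37 : TL)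
    (tv13 tv19 tv37 : ℕ) : Prop where
  S : LS a h g t D
  K : POK π a m
  C3 : Rq (m + 1) T3 (fun i => 7 * res (it a g i).A 3) (fun i => ixh 3 (it a g i))
  C5 : Rq (m + 1) T5 (fun i => 7 * res (it a g i).A 5) (fun i => ixh 5 (it a g i))
  C7 : Rq (m + 1) T7 (fun i => 7 * res (it a g i).A 7) (fun i => ixh 7 (it a g i))
  C13 : Cn 13 a m π.n13 g tv13 T13
  C19 : Cn 19 a m π.n19 g tv19 T19
  C37 : Cn 37 a m π.n37 g tv37 T37

section ctx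

variable {π : Pr} {a m h : ℕ} {g : Fm} {t D : ℤ} {T3 T5 T7 T13 T19 T37 : TL}
    {tv13 tv19 tv37 : ℕ} (X : Ctx π a m h g t D T3 T5 T7 T13 T19 T37 tv13 tv19 tv37)
    {R Mo tt : ℕ} {f : ℕ → ℕ → Bool}

include X

theorem Ctx.r91 (htt : tt = res t 37) (H : St h R Mo) (d7 : π.n7 ∣ Mo) (d13 : π.n13 ∣ Mo)
    (hf : rl 37 I37 (lc π.n7 π.n13)
      (pfP sl1 sl2 37 a (lc π.n7 π.n13) (mp (sl 13 X91) (sl 338 E91) T7) T13).1
      (pfP sl1 sl2 37 a (lc π.n7 π.n13) (mp (sl 13 X91) (sl 338 E91) T7) T13).2 R Mo tt f = true) :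
    ∃ R' Mo', St h R' Mo' ∧ Mo ∣ Mo' ∧ f R' Mo' = true := by
  have i1 : NeZero c91_37.q := ⟨by decide +kernel⟩
  exact X.S.rl (p := 37) c91_37_ok (by decide +kernel) (by decide +kernel) (lc_pos X.K.z7 X.K.z13)
    (Cg_two (q := c91_37.q) (by decide +kernel) (by norm_num) X.K.p7 X.K.p13 g) (heh_91 X.S.base)
    (X.C7.mp _ _) X.C13.tr X.K.b7 (fun i => rfl) (fun i => rfl) rfl (by norm_num) ci37
    (by norm_num) htt H (lc_dvd d7 d13) hf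

theorem Ctx.r133_13 (htt : tt = res t 13) (H : St h R Mo) (d7 : π.n7 ∣ Mo) (d19 : π.n19 ∣ Mo)
    (hf : rl 13 I13 (lc π.n7 π.n19)
      (pfP sl1 sl2 13 a (lc π.n7 π.n19) (mp (sl 19 X133_13) (sl 722 E133_13) T7) T19).1
      (pfP sl1 sl2 13 a (lc π.n7 π.n19) (mp (sl 19 X133_13) (sl 722 E133_13) T7) T19).2
        R Mo tt f = true) :
    ∃ R' Mo', St h R' Mo' ∧ Mo ∣ Mo' ∧ f R' Mo' = true := by
  have i1 : NeZero c133_13.q := ⟨by decide +kernel⟩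
  exact X.S.rl (p := 13) c133_13_ok (by decide +kernel) (by decide +kernel) (lc_pos X.K.z7 X.K.z19)
    (Cg_two (q := c133_13.q) (by decide +kernel) (by norm_num) X.K.p7 X.K.p19 g)
    (heh_133_13 X.S.base)
    (X.C7.mp _ _) X.C19.tr X.K.b5 (fun i => rfl) (fun i => rfl) rfl (by norm_num) ci13
    (by norm_num) htt H (lc_dvd d7 d19) hf

theorem Ctx.r133_37 (htt : tt = res t 37) (H : St h R Mo) (d7 : π.n7 ∣ Mo) (d19 : π.n19 ∣ Mo)
    (hf : rl 37 I37 (lc π.n7 π.n19)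
      (pfP sl1 sl2 37 a (lc π.n7 π.n19) (mp (sl 19 X133_37) (sl 722 E133_37) T7) T19).1
      (pfP sl1 sl2 37 a (lc π.n7 π.n19) (mp (sl 19 X133_37) (sl 722 E133_37) T7) T19).2
        R Mo tt f = true) :
    ∃ R' Mo', St h R' Mo' ∧ Mo ∣ Mo' ∧ f R' Mo' = true := by
  have i1 : NeZero c133_37.q := ⟨by decide +kernel⟩
  exact X.S.rl (p := 37) c133_37_ok (by decide +kernel) (by decide +kernel) (lc_pos X.K.z7 X.K.z19)
    (Cg_two (q := c133_37.q) (by decide +kernel) (by norm_num) X.K.p7 X.K.p19 g)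
    (heh_133_37 X.S.base)
    (X.C7.mp _ _) X.C19.tr X.K.b5 (fun i => rfl) (fun i => rfl) rfl (by norm_num) ci37
    (by norm_num) htt H (lc_dvd d7 d19) hf

theorem Ctx.r185 (htt : tt = res t 13) (H : St h R Mo) (d37 : π.n37 ∣ Mo) (d5 : π.n5 ∣ Mo)
    (hf : rl 13 I13 (lc π.n37 π.n5)
      (pfP sl1 sl2 13 a (lc π.n37 π.n5) (mp (sl 5 X185) (sl 50 E185) T37) T5).1
      (pfP sl1 sl2 13 a (lc π.n37 π.n5) (mp (sl 5 X185) (sl 50 E185) T37) T5).2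
        R Mo tt f = true) :
    ∃ R' Mo', St h R' Mo' ∧ Mo ∣ Mo' ∧ f R' Mo' = true := by
  have i1 : NeZero c185_13.q := ⟨by decide +kernel⟩
  exact X.S.rl (p := 13) c185_13_ok (by decide +kernel) (by decide +kernel) (lc_pos X.K.z37 X.K.z5)
    (Cg_two (q := c185_13.q) (by decide +kernel) (by norm_num) X.K.p37 X.K.p5 g)
    (heh_185 X.S.base)
    (X.C37.tr.mp _ _) X.C5 X.K.b3 (fun i => rfl) (fun i => rfl) rfl (by norm_num) ci13
    (by norm_num) htt H (lc_dvd d37 d5) hf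

theorem Ctx.r95 (htt : tt = res t 13) (H : St h R Mo) (d19 : π.n19 ∣ Mo) (d5 : π.n5 ∣ Mo)
    (hf : rl 13 I13 (lc π.n19 π.n5)
      (pfP sl1 sl2 13 a (lc π.n19 π.n5) (mp (sl 5 X95) (sl 50 E95) T19) T5).1
      (pfP sl1 sl2 13 a (lc π.n19 π.n5) (mp (sl 5 X95) (sl 50 E95) T19) T5).2
        R Mo tt f = true) :
    ∃ R' Mo', St h R' Mo' ∧ Mo ∣ Mo' ∧ f R' Mo' = true := by
  have i1 : NeZero c95_13.q := ⟨by decide +kernel⟩
  exact X.S.rl (p := 13) c95_13_ok (by decide +kernel) (by decide +kernel) (lc_pos X.K.z19 X.K.z5)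
    (Cg_two (q := c95_13.q) (by decide +kernel) (by norm_num) X.K.p19 X.K.p5 g)
    (heh_95 X.S.base)
    (X.C19.tr.mp _ _) X.C5 X.K.b4 (fun i => rfl) (fun i => rfl) rfl (by norm_num) ci13
    (by norm_num) htt H (lc_dvd d19 d5) hf

theorem Ctx.r105 (htt : tt = res t 13) (H : St h R Mo) (d7 : π.n7 ∣ Mo) (d3 : π.n3 ∣ Mo)
    (d5 : π.n5 ∣ Mo)
    (hf : rl 13 I13 (lc π.n7 (lc π.n3 π.n5))
      (pfP sl1 sl2 13 a (lc π.n7 (lc π.n3 π.n5))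
        (zpP (sl 5) (sl 50) (mp (sl 15 X105) (sl 450 E105) T7) T3) T5).1
      (pfP sl1 sl2 13 a (lc π.n7 (lc π.n3 π.n5))
        (zpP (sl 5) (sl 50) (mp (sl 15 X105) (sl 450 E105) T7) T3) T5).2
        R Mo tt f = true) :
    ∃ R' Mo', St h R' Mo' ∧ Mo ∣ Mo' ∧ f R' Mo' = true := by
  have i1 : NeZero c105_13.q := ⟨by decide +kernel⟩
  exact X.S.rl (p := 13) c105_13_ok (by decide +kernel) (by decide +kernel)
    (lc_pos X.K.z7 (lc_pos X.K.z3 X.K.z5))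
    (Cg_three (q := c105_13.q) (by decide +kernel) (by norm_num) (by norm_num)
      X.K.p7 X.K.p3 X.K.p5 g)
    (heh_105 X.S.base)
    ((X.C7.mp _ _).zp X.C3 _ _) X.C5 X.K.b6 (fun i => rfl) (fun i => rfl) rfl (by norm_num) ci13
    (by norm_num) htt H (lc_dvd d7 (lc_dvd d3 d5)) hf

theorem Ctx.r111_0 (htt : tt = res t 19) (H : St h R Mo) (d37 : π.n37 ∣ Mo) (d3 : π.n3 ∣ Mo)
    (hf : rl 19 I19 (lc π.n37 π.n3)
      (pfP sl1 sl2 19 a (lc π.n37 π.n3) (mp (sl 3 X111_0) (sl 18 E111_0) T37) T3).1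
      (pfP sl1 sl2 19 a (lc π.n37 π.n3) (mp (sl 3 X111_0) (sl 18 E111_0) T37) T3).2
        R Mo tt f = true) :
    ∃ R' Mo', St h R' Mo' ∧ Mo ∣ Mo' ∧ f R' Mo' = true := by
  have i1 : NeZero c111_19_0.q := ⟨by decide +kernel⟩
  exact X.S.rl (p := 19) c111_19_0_ok (by decide +kernel) (by decide +kernel) (lc_pos X.K.z37 X.K.z3)
    (Cg_two (q := c111_19_0.q) (by decide +kernel) (by norm_num) X.K.p37 X.K.p3 g)
    (heh_111_0 X.S.base)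
    (X.C37.tr.mp _ _) X.C3 X.K.b2 (fun i => rfl) (fun i => rfl) rfl (by norm_num) ci19
    (by norm_num) htt H (lc_dvd d37 d3) hf

theorem Ctx.r111_1 (htt : tt = res t 19) (H : St h R Mo) (d37 : π.n37 ∣ Mo) (d3 : π.n3 ∣ Mo)
    (hf : rl 19 I19 (lc π.n37 π.n3)
      (pfP sl1 sl2 19 a (lc π.n37 π.n3) (mp (sl 3 X111_1) (sl 18 E111_1) T37) T3).1
      (pfP sl1 sl2 19 a (lc π.n37 π.n3) (mp (sl 3 X111_1) (sl 18 E111_1) T37) T3).2
        R Mo tt f = true) :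
    ∃ R' Mo', St h R' Mo' ∧ Mo ∣ Mo' ∧ f R' Mo' = true := by
  have i1 : NeZero c111_19_1.q := ⟨by decide +kernel⟩
  exact X.S.rl (p := 19) c111_19_1_ok (by decide +kernel) (by decide +kernel) (lc_pos X.K.z37 X.K.z3)
    (Cg_two (q := c111_19_1.q) (by decide +kernel) (by norm_num) X.K.p37 X.K.p3 g)
    (heh_111_1 X.S.base)
    (X.C37.tr.mp _ _) X.C3 X.K.b2 (fun i => rfl) (fun i => rfl) rfl (by norm_num) ci19
    (by norm_num) htt H (lc_dvd d37 d3) hf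

end ctx

/-- a valid option -/
structure OpS (o : Op) (π : Pr) (a m h : ℕ) (g : Fm) (t D : ℤ) : Prop where
  flt : ∀ {T3 T5 T7 T13 T19 T37 : TL} {tv13 tv19 tv37 : ℕ},
    Ctx π a m h g t D T3 T5 T7 T13 T19 T37 tv13 tv19 tv37 → ∀ {R Mo : ℕ} {k : ℕ → ℕ → Bool},
    St h R Mo → π.n7 ∣ Mo → π.n19 ∣ Mo →
    o.flt (pfP o.gx o.ge 73 a o.m T7 T19).1 (pfP o.gx o.ge 73 a o.m T7 T19).2 R Mo k = true →
    ∃ R' Mo', St h R' Mo' ∧ Mo ∣ Mo' ∧ k R' Mo' = true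
  fin : ∀ {T3 T5 T7 T13 T19 T37 : TL} {tv13 tv19 tv37 : ℕ},
    Ctx π a m h g t D T3 T5 T7 T13 T19 T37 tv13 tv19 tv37 → ∀ {R Mo : ℕ},
    St h R Mo → π.n7 ∣ Mo → π.n13 ∣ Mo → π.n19 ∣ Mo →
    o.fin T7 T13 T19 R Mo = true → False

section stages

variable {π : Pr} {o : Op} {a m h : ℕ} {g : Fm} {t D : ℤ} {T3 T5 T7 T13 T19 T37 : TL}
    {tv13 tv19 tv37 : ℕ} (X : Ctx π a m h g t D T3 T5 T7 T13 T19 T37 tv13 tv19 tv37)
    (O : OpS o π a m h g t D)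
    {R Mo : ℕ}

include X O

theorem s13_sound {x13 : VL} (hx : VL.Mem tv13
    (pfP sl1 sl2 37 a (lc π.n7 π.n13) (mp (sl 13 X91) (sl 338 E91) T7) T13) T13 x13)
    {t37 t13 : ℕ} (h37 : t37 = res t 37) (h13 : t13 = res t 13) (H : St h R Mo)
    (d7 : π.n7 ∣ Mo) (d19 : π.n19 ∣ Mo)
    (hs : s13 π o T7 T19 t37 x13 t13 R Mo = true) : False := by
  unfold s13 at hs
  obtain ⟨R1, M1, H1, e1, n1, hs⟩ := ext_sound X.K.z13 H hs
  have h1 := VL.all_mem hs hx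
  have h2 := imp_true h1 (by
    have e : sl1 tv13 (Nat.mul 7 (Nat.mod R1 π.n13)) = t13 := by
      rw [h13]
      exact Cn.rs X.S X.C13 k13 (by norm_num) X.K.p13 X.K.z13 H1 n1
    rw [e]
    exact Nat.beq_refl t13)
  obtain ⟨R2, M2, H2, e2, h3⟩ := X.r91 h37 H1 (d7.trans e1) n1 h2
  exact O.fin X H2 ((d7.trans e1).trans e2) (n1.trans e2) ((d19.trans e1).trans e2) h3

theorem s5_sound {x13 : VL} (hx : VL.Mem tv13
    (pfP sl1 sl2 37 a (lc π.n7 π.n13) (mp (sl 13 X91) (sl 338 E91) T7) T13) T13 x13)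
    {y185 y95 y105 : NL} {i5 : ℕ}
    (h185 : y185.At i5 (pfP sl1 sl2 13 a (lc π.n37 π.n5) (mp (sl 5 X185) (sl 50 E185) T37) T5))
    (h95 : y95.At i5 (pfP sl1 sl2 13 a (lc π.n19 π.n5) (mp (sl 5 X95) (sl 50 E95) T19) T5))
    (h105 : y105.At i5 (pfP sl1 sl2 13 a (lc π.n7 (lc π.n3 π.n5))
        (zpP (sl 5) (sl 50) (mp (sl 15 X105) (sl 450 E105) T7) T3) T5))
    {t37 : ℕ} (h37 : t37 = res t 37) (H : St h R Mo)
    (d7 : π.n7 ∣ Mo) (d19 : π.n19 ∣ Mo) (d37 : π.n37 ∣ Mo) (d3 : π.n3 ∣ Mo)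
    (hs : s5 π o T7 T19 t37 x13 y185 y95 y105
      (pfP sl1 sl2 13 a (lc π.n7 π.n19) (mp (sl 19 X133_13) (sl 722 E133_13) T7) T19).1
      (pfP sl1 sl2 13 a (lc π.n7 π.n19) (mp (sl 19 X133_13) (sl 722 E133_13) T7) T19).2
      R Mo = true) : False := by
  unfold s5 at hs
  obtain ⟨R1, M1, H1, e1, n1, hs⟩ := ext_sound X.K.z5 H hs
  have h1 := all3_at hs h185 h95 h105
  rw [allN_iff] at h1
  have h2 := h1 (res t 13) (res_lt t (by norm_num))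
  obtain ⟨R2, M2, H2, e2, h3⟩ := X.r133_13 rfl H1 (d7.trans e1) (d19.trans e1) h2
  have f2 := e1.trans e2
  obtain ⟨R3, M3, H3, e3, h4⟩ := X.r185 rfl H2 (d37.trans f2) (n1.trans e2) h3
  have f3 := f2.trans e3
  have n3 := n1.trans (e2.trans e3)
  obtain ⟨R4, M4, H4, e4, h5⟩ := X.r95 rfl H3 (d19.trans f3) n3 h4
  have f4 := f3.trans e4
  have n4 := n3.trans e4
  obtain ⟨R5, M5, H5, e5, h6⟩ := X.r105 rfl H4 (d7.trans f4) (d3.trans f4) n4 h5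
  have f5 := f4.trans e5
  exact s13_sound X O hx h37 rfl H5 (d7.trans f5) (d19.trans f5) h6

theorem s3_sound {x13 : VL} (hx : VL.Mem tv13
    (pfP sl1 sl2 37 a (lc π.n7 π.n13) (mp (sl 13 X91) (sl 338 E91) T7) T13) T13 x13)
    {q3 : QL} {x3 : NLL} {y185 y95 y105 : NL} {i5 i3 : ℕ}
    (hq3 : q3.At i3 (pfP sl1 sl2 19 a (lc π.n37 π.n3) (mp (sl 3 X111_0) (sl 18 E111_0) T37) T3)
      (pfP sl1 sl2 19 a (lc π.n37 π.n3) (mp (sl 3 X111_1) (sl 18 E111_1) T37) T3))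
    (hx3 : x3.At i3 y105)
    (h185 : y185.At i5 (pfP sl1 sl2 13 a (lc π.n37 π.n5) (mp (sl 5 X185) (sl 50 E185) T37) T5))
    (h95 : y95.At i5 (pfP sl1 sl2 13 a (lc π.n19 π.n5) (mp (sl 5 X95) (sl 50 E95) T19) T5))
    (h105 : y105.At i5 (pfP sl1 sl2 13 a (lc π.n7 (lc π.n3 π.n5))
        (zpP (sl 5) (sl 50) (mp (sl 15 X105) (sl 450 E105) T7) T3) T5))
    {t37 t19 : ℕ} (h37 : t37 = res t 37) (h19 : t19 = res t 19) (H : St h R Mo)
    (d7 : π.n7 ∣ Mo) (d19 : π.n19 ∣ Mo) (d37 : π.n37 ∣ Mo)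
    (hs : s3 π o T7 T19 t37 t19 q3 x3 x13 y185 y95
      (pfP sl1 sl2 13 a (lc π.n7 π.n19) (mp (sl 19 X133_13) (sl 722 E133_13) T7) T19).1
      (pfP sl1 sl2 13 a (lc π.n7 π.n19) (mp (sl 19 X133_13) (sl 722 E133_13) T7) T19).2
      R Mo = true) : False := by
  unfold s3 at hs
  obtain ⟨R1, M1, H1, e1, n1, hs⟩ := ext_sound X.K.z3 H hs
  have h1 := all2_at hs hq3 hx3
  obtain ⟨R2, M2, H2, e2, h3⟩ := X.r111_0 h19 H1 (d37.trans e1) n1 h1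
  have f2 := e1.trans e2
  obtain ⟨R3, M3, H3, e3, h4⟩ := X.r111_1 h19 H2 (d37.trans f2) (n1.trans e2) h3
  have f3 := f2.trans e3
  exact s5_sound X O hx h185 h95 h105 h37 H3 (d7.trans f3) (d19.trans f3) (d37.trans f3)
    (n1.trans (e2.trans e3)) h4

theorem s19_sound {x13 : VL} (hx : VL.Mem tv13
    (pfP sl1 sl2 37 a (lc π.n7 π.n13) (mp (sl 13 X91) (sl 338 E91) T7) T13) T13 x13)
    {q3 : QL} {x3 : NLL} {x19 : XL} {y185 y95 y105 : NL} {i5 i3 : ℕ}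
    (hq3 : q3.At i3 (pfP sl1 sl2 19 a (lc π.n37 π.n3) (mp (sl 3 X111_0) (sl 18 E111_0) T37) T3)
      (pfP sl1 sl2 19 a (lc π.n37 π.n3) (mp (sl 3 X111_1) (sl 18 E111_1) T37) T3))
    (hx3 : x3.At i3 y105)
    (h185 : y185.At i5 (pfP sl1 sl2 13 a (lc π.n37 π.n5) (mp (sl 5 X185) (sl 50 E185) T37) T5))
    (h95 : y95.At i5 (pfP sl1 sl2 13 a (lc π.n19 π.n5) (mp (sl 5 X95) (sl 50 E95) T19) T5))
    (h105 : y105.At i5 (pfP sl1 sl2 13 a (lc π.n7 (lc π.n3 π.n5))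
        (zpP (sl 5) (sl 50) (mp (sl 15 X105) (sl 450 E105) T7) T3) T5))
    (hx19 : XL.Mem tv19
      (pfP sl1 sl2 37 a (lc π.n7 π.n19) (mp (sl 19 X133_37) (sl 722 E133_37) T7) T19)
      (pfP sl1 sl2 13 a (lc π.n7 π.n19) (mp (sl 19 X133_13) (sl 722 E133_13) T7) T19)
      (pfP o.gx o.ge 73 a o.m T7 T19) T19 y95 x19)
    {t19 : ℕ} (h19 : t19 = res t 19) (H : St h R Mo) (d7 : π.n7 ∣ Mo) (d37 : π.n37 ∣ Mo)
    (hs : s19 π o T7 tv37 q3 y185 x19 x3 x13 R Mo t19 = true) : False := by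
  unfold s19 at hs
  obtain ⟨R1, M1, H1, e1, n1, hs⟩ := ext_sound X.K.z19 H hs
  have h1 := XL.all_mem hs hx19
  have h2 := imp_true h1 (by
    have e : sl1 tv19 (Nat.mul 7 (Nat.mod R1 π.n19)) = t19 := by
      rw [h19]
      exact Cn.rs X.S X.C19 k19 (by norm_num) X.K.p19 X.K.z19 H1 n1
    rw [e]
    exact Nat.beq_refl t19)
  rw [force_eq] at h2
  have e37 : sl1 tv37 (Nat.mul 7 (Nat.mod R1 π.n37)) = res t 37 :=
    Cn.rs X.S X.C37 k37 (by norm_num) X.K.p37 X.K.z37 H1 (d37.trans e1)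
  rw [e37] at h2
  obtain ⟨R2, M2, H2, e2, h3⟩ := X.r133_37 rfl H1 (d7.trans e1) n1 h2
  have f2 := e1.trans e2
  obtain ⟨R3, M3, H3, e3, h4⟩ := O.flt X H2 (d7.trans f2) (n1.trans e2) h3
  have f3 := f2.trans e3
  exact s3_sound X O hx hq3 hx3 h185 h95 h105 rfl h19 H3 (d7.trans f3)
    (n1.trans (e2.trans e3)) (d37.trans f3) h4

end stages

end Pool.Agent.L0h49.F
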