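import Pool.Agent.L0h49.F.A4

/-! Soundness of the search. -/

set_option maxRecDepth 100000

namespace Pool.Agent.L0h49.F

open H419R2 Finset
open Pool.Agent.N911 Pool.Agent.L0h49.E

theorem sl2_shift (N k i : ℕ) : sl2 (N >>> (14 * k)) (7 * i) = sl2 N (7 * (k + i)) := by
  change (N >>> (14 * k)) >>> (7 * i + 7 * i) % 16384 =
    N >>> (7 * (k + i) + 7 * (k + i)) % 16384
  rw [← Nat.shiftRight_add]
  congr 2
  ring

section stages

variable {π : Pr} {o : Op} {a m h : ℕ} {g : Fm} {t D : ℤ} {T3 T5 T7 T13 T19 : TL}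
    {tv13 tv19 : ℕ} (S : LS a h g t D) (K : POK π a m) (O : OpS o π a m h g t D)
    {R Mo : ℕ}

include S K O

theorem s37_sound {S3 S5 S13 S19 S7 : CL} {i3 i5 i13 i19 i7 tv3 tv5 tv7 tv13 tv19 : ℕ}
    {T3 T5 T7 T13 T19 : TL} {h0 cnt : ℕ} (g1 : h0 ≤ h % lc π.n37 π.n7)
    (g2 : h % lc π.n37 π.n7 < h0 + cnt)
    (m3 : S3.At i3 tv3 T3) (C3 : Cn 3 a m π.n3 g tv3 T3)
    (m5 : S5.At i5 tv5 T5) (C5 : Cn 5 a m π.n5 g tv5 T5)
    (m7 : S7.At i7 tv7 T7) (C7 : Cn 7 a m π.n7 g tv7 T7)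
    (m13 : S13.At i13 tv13 T13) (C13 : Cn 13 a m π.n13 g tv13 T13)
    (m19 : S19.At i19 tv19 T19) (C19 : Cn 19 a m π.n19 g tv19 T19)
    (hs : s37 π o a m S3 S5 (mkZP o a (lc π.n7 π.n19) (lc π.n7 (lc π.n3 π.n5)) (lc π.n7 π.n13)
      (mk19P a (lc π.n19 π.n5) S5 S19) S3 S5 S13 S7) h0 cnt (res (nBh g) 37) = true) : False := by
  unfold s37 at hs
  rw [mkG_eq, hd_eq, tvl_eq, mapT_eq, mapT_eq, mapT_eq, mapT_eq, mapT_eq, force_eq, mpQ_eq,
    mapT_eq, force_eq, mpN_eq, force_eq] at hs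
  set T37 := mkGP 37 I37 a m 1 (res (nBh g) 37) 1 with hT37
  have t37 := S.trace k37 (by norm_num) ci37 m
  rw [← hT37] at t37
  have C37 : Cn 37 a m π.n37 g (tvP 37 a π.n37 (tl T37)) T37 :=
    ⟨t37, fun j hj => tv_digit (by norm_num) (by norm_num) t37
      ((Nat.le_of_dvd (lc_pos K.z37 K.z7) (Nat.dvd_lcm_left _ _)).trans K.b1) hj⟩
  have X : Ctx π a m h g t D T3 T5 T7 T13 T19 T37 tv13 tv19 (tvP 37 a π.n37 (tl T37)) :=
    ⟨S, K, C3.tr, C5.tr, C7.tr, C13, C19, C37⟩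
  have hz := ZL.all_mem hs (mkZP_mem m7)
  rw [pf_eq, pf_eq, pf_eq, force_eq, force_eq, force_eq, force_eq] at hz
  have L0 : 0 < lc π.n37 π.n7 := lc_pos K.z37 K.z7
  have i0 : NeZero c259_19_0.q := ⟨by decide +kernel⟩
  have i1 : NeZero c259_19_1.q := ⟨by decide +kernel⟩
  have i2 : NeZero c259_19_2.q := ⟨by decide +kernel⟩
  have per0 : ∀ i, Cg c259_19_0.q (it a g (i + lc π.n37 π.n7)) (it a g i) :=
    Cg_two (q := c259_19_0.q) (by decide +kernel) (by norm_num) K.p37 K.p7 g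
  have per1 : ∀ i, Cg c259_19_1.q (it a g (i + lc π.n37 π.n7)) (it a g i) :=
    Cg_two (q := c259_19_1.q) (by decide +kernel) (by norm_num) K.p37 K.p7 g
  have per2 : ∀ i, Cg c259_19_2.q (it a g (i + lc π.n37 π.n7)) (it a g i) :=
    Cg_two (q := c259_19_2.q) (by decide +kernel) (by norm_num) K.p37 K.p7 g
  have P0 : Prf c259_19_0 a g (lc π.n37 π.n7) (pfP sl1 sl2 19 a (lc π.n37 π.n7)
      (mp (sl 7 X259_0) (sl 98 E259_0) T37) T7) :=
    pfP_prf (heh_259_0 S.base) S.disc (t37.mp _ _) C7.tr K.b1 (fun i => rfl) (fun i => rfl) rfl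
      (by norm_num) (by norm_num)
  have P1 : Prf c259_19_1 a g (lc π.n37 π.n7) (pfP sl1 sl2 19 a (lc π.n37 π.n7)
      (mp (sl 7 X259_1) (sl 98 E259_1) T37) T7) :=
    pfP_prf (heh_259_1 S.base) S.disc (t37.mp _ _) C7.tr K.b1 (fun i => rfl) (fun i => rfl) rfl
      (by norm_num) (by norm_num)
  have P2 : Prf c259_19_2 a g (lc π.n37 π.n7) (pfP sl1 sl1 19 a (lc π.n37 π.n7)
      (mp (sl 7 X259_2) (sl 49 E259_2) T37) T7) :=
    pfP_prf (heh_259_2 S.base) S.disc (t37.mp _ _) C7.tr K.b1 (fun i => rfl) (fun i => rfl) rfl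
      (by norm_num) (by norm_num)
  have r0 := rel_red per0 P0 L0 (S.rel c259_19_0 c259_19_0_ok (by decide +kernel)
    (by decide +kernel) i0)
  have r1 := rel_red per1 P1 L0 (S.rel c259_19_1 c259_19_1_ok (by decide +kernel)
    (by decide +kernel) i1)
  have r2 := rel_red per2 P2 L0 (S.rel c259_19_2 c259_19_2_ok (by decide +kernel)
    (by decide +kernel) i2)
  have y2 : ((sl2 (pfP sl1 sl1 19 a (lc π.n37 π.n7) (mp (sl 7 X259_2) (sl 49 E259_2) T37) T7).1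
      (7 * (h % lc π.n37 π.n7)) / 128 : ℕ) : ZMod c259_19_2.p) = 0 := by
    rw [(P2.dg _ (Nat.mod_lt h L0)).2]
    have e := (heh_259_2 S.base).hy (it a g (h % lc π.n37 π.n7 + 1))
      (by rw [it_disc]; exact S.disc)
    rw [Nat.div_eq_of_lt (sl1_lt _ _), Nat.cast_zero, mul_zero] at e
    exact e.symm
  rw [y2, mul_zero, add_zero] at r2
  set w0 := pfP sl1 sl2 19 a (lc π.n37 π.n7) (mp (sl 7 X259_0) (sl 98 E259_0) T37) T7 with hw0
  set w1 := pfP sl1 sl2 19 a (lc π.n37 π.n7) (mp (sl 7 X259_1) (sl 98 E259_1) T37) T7 with hw1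
  set w2 := pfP sl1 sl1 19 a (lc π.n37 π.n7) (mp (sl 7 X259_2) (sl 49 E259_2) T37) T7 with hw2
  have pp : ∀ x : ℕ, ((x % 19 : ℕ) : ZMod 19) = x := fun x => ZMod.natCast_mod _ _
  have q0 : ((sl2 w0.1 (7 * (h % lc π.n37 π.n7)) % 128 : ℕ) : ZMod 19) +
      w0.2 * (h / lc π.n37 π.n7 : ℕ) + 2 * t * ((sl2 w0.1 (7 * (h % lc π.n37 π.n7)) / 128 : ℕ) :
      ZMod 19) = 0 := r0
  have q1 : ((sl2 w1.1 (7 * (h % lc π.n37 π.n7)) % 128 : ℕ) : ZMod 19) +
      w1.2 * (h / lc π.n37 π.n7 : ℕ) + 2 * t * ((sl2 w1.1 (7 * (h % lc π.n37 π.n7)) / 128 : ℕ) :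
      ZMod 19) = 0 := r1
  have q2 : ((sl2 w2.1 (7 * (h % lc π.n37 π.n7)) % 128 : ℕ) : ZMod 19) +
      w2.2 * (h / lc π.n37 π.n7 : ℕ) = 0 := r2
  have h19 := res_cast' t (show 0 < 19 by norm_num)
  have u1 := scn_sound hz (show h % lc π.n37 π.n7 - h0 < cnt by omega)
  have es : ∀ N, sl2 (Nat.shiftRight N (Nat.mul 14 h0)) (7 * (h % lc π.n37 π.n7 - h0)) =
      sl2 N (7 * (h % lc π.n37 π.n7)) := by
    intro N
    have e1 := sl2_shift N h0 (h % lc π.n37 π.n7 - h0)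
    rw [Nat.add_sub_cancel' g1] at e1
    exact e1
  rw [es, es, es, Nat.add_sub_cancel' g1] at u1
  have u2 := sv_sound (by norm_num) ci19 u1 (x := h / lc π.n37 π.n7 % 19)
    (Nat.mod_lt _ (by norm_num)) (by
      rw [pp]
      linear_combination q2)
  have u3 := sv_sound (by norm_num) ci19 u2 (x := res t 19) (res_lt t (by norm_num)) (by
      rw [Nat.cast_add, Nat.cast_mul, Nat.cast_mul, pp, h19]
      push_cast
      push_cast at q0
      linear_combination q0)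
  have u4 := imp_true u3 (beq_mod (by
      rw [Nat.cast_add, Nat.cast_add, Nat.cast_mul, Nat.cast_mul, Nat.cast_mul, pp, h19]
      push_cast
      push_cast at q1
      linear_combination q1))
  have HS : St h (h % lc π.n37 π.n7 + lc π.n37 π.n7 * (h / lc π.n37 π.n7 % 19))
      (lc π.n37 π.n7 * 19) := by
    refine ⟨h / lc π.n37 π.n7 / 19, ?_⟩
    have e1 := Nat.mod_add_div h (lc π.n37 π.n7)
    have e2 := Nat.mod_add_div (h / lc π.n37 π.n7) 19
    calc h = h % lc π.n37 π.n7 + lc π.n37 π.n7 * (h / lc π.n37 π.n7) := e1.symm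
      _ = h % lc π.n37 π.n7 + lc π.n37 π.n7 * (h / lc π.n37 π.n7 % 19 +
          19 * (h / lc π.n37 π.n7 / 19)) := by rw [e2]
      _ = _ := by ring
  refine s19_sound X O (mkVP_mem m13) (mpQP_at m3) (mpLP_at m3) (mpNP_at m5) (mpNP_at m5)
    (mpNP_at m5) (mkXP_mem (mk19P_mem m19)) rfl HS ?_ ?_ u4
  · exact (Nat.dvd_lcm_right _ _).trans (Dvd.intro _ rfl)
  · exact (Nat.dvd_lcm_left _ _).trans (Dvd.intro _ rfl)

/-- the search is sound -/
theorem srch_sound {lo n h0 cnt : ℕ} (h1 : lo ≤ res (nBh g) 37) (h2 : res (nBh g) 37 < lo + n)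
    (g1 : h0 ≤ h % lc π.n37 π.n7) (g2 : h % lc π.n37 π.n7 < h0 + cnt)
    (hs : srch π o a m lo n h0 cnt = true) : False := by
  unfold srch at hs
  have l3 : π.n3 ≤ m := ((Nat.le_of_dvd (lc_pos K.z37 K.z3) (Nat.dvd_lcm_right _ _)).trans K.b2)
  have l5 : π.n5 ≤ m := ((Nat.le_of_dvd (lc_pos K.z37 K.z5) (Nat.dvd_lcm_right _ _)).trans K.b3)
  have l7 : π.n7 ≤ m := ((Nat.le_of_dvd (lc_pos K.z37 K.z7) (Nat.dvd_lcm_right _ _)).trans K.b1)
  have l13 : π.n13 ≤ m := ((Nat.le_of_dvd (lc_pos K.z7 K.z13) (Nat.dvd_lcm_right _ _)).trans K.b7)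
  have l19 : π.n19 ≤ m := ((Nat.le_of_dvd (lc_pos K.z7 K.z19) (Nat.dvd_lcm_right _ _)).trans K.b5)
  obtain ⟨S3, i3, tv3, T3, m3, C3, hs⟩ := S.ctr k3 (by norm_num) (by norm_num) ci3 iq3 l3 hs
  obtain ⟨S5, i5, tv5, T5, m5, C5, hs⟩ := S.ctr k5 (by norm_num) (by norm_num) ci5 iq5 l5 hs
  obtain ⟨S13, i13, tv13, T13, m13, C13, hs⟩ :=
    S.ctr k13 (by norm_num) (by norm_num) ci13 iq13 l13 hs
  obtain ⟨S7, i7, tv7, T7, m7, C7, hs⟩ := S.ctr k7 (by norm_num) (by norm_num) ci7 iq7 l7 hs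
  obtain ⟨S19, i19, tv19, T19, m19, C19, hs⟩ :=
    S.ctr k19 (by norm_num) (by norm_num) ci19 iq19 l19 hs
  rw [force_eq, mk19_eq, force_eq, force_eq, force_eq, mkZ_eq, allN_iff] at hs
  have h3 := hs (res (nBh g) 37 - lo) (by omega)
  rw [force_eq] at h3
  have e : Nat.add lo (res (nBh g) 37 - lo) = res (nBh g) 37 := by
    change lo + (res (nBh g) 37 - lo) = _
    omega
  rw [e] at h3
  have e2 : tb Q37 (Nat.mod (Nat.add (Nat.mul (res (nBh g) 37) (res (nBh g) 37)) 4) 37) = false :=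
    S.tb k37 (by norm_num) iq37
  rw [e2] at h3
  exact s37_sound S K O g1 g2 m3 C3 m5 C5 m7 C7 m13 C13 m19 C19 h3

end stages

theorem o0_ok {π : Pr} {a m h : ℕ} {g : Fm} {t D : ℤ} : OpS o0 π a m h g t D where
  flt := fun _ _ _ _ H _ _ hk => ⟨_, _, H, dvd_rfl, hk⟩
  fin := fun _ _ _ _ _ _ _ hk => absurd hk (by simp [o0])

theorem heh_247_0 {D : ℤ} (H : BaseH D) [NeZero c247_73_0.q] : HE c247_73_0 D
    (fun f => x247 c247_73_0 (7 * res f.A 13) (7 * res f.A 19))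
    (fun f => e247 c247_73_0 (ixh 13 f) (ixh 19 f)) :=
  HEh_of c247_73_0_ok (by decide +kernel) H
    (fun f _ => chD_sound (l1 := 13) (e1 := 209) (l2 := 19) (e2 := 39) (by norm_num) (by norm_num)
      (by decide +kernel) f.A)
    (fun f _ => evD_sound c247_73_0_ok (l1 := 13) (e1 := 209) (l2 := 19) (e2 := 39) (by norm_num)
      (by norm_num) (by decide +kernel) (nBh f) (nCh f))

theorem heh_247_1 {D : ℤ} (H : BaseH D) [NeZero c247_73_1.q] : HE c247_73_1 D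
    (fun f => x247 c247_73_1 (7 * res f.A 13) (7 * res f.A 19))
    (fun f => e247 c247_73_1 (ixh 13 f) (ixh 19 f)) :=
  HEh_of c247_73_1_ok (by decide +kernel) H
    (fun f _ => chD_sound (l1 := 13) (e1 := 209) (l2 := 19) (e2 := 39) (by norm_num) (by norm_num)
      (by decide +kernel) f.A)
    (fun f _ => evD_sound c247_73_1_ok (l1 := 13) (e1 := 209) (l2 := 19) (e2 := 39) (by norm_num)
      (by norm_num) (by decide +kernel) (nBh f) (nCh f))

section opt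

variable {π : Pr} {a m h : ℕ} {g : Fm} {t D : ℤ}

theorem o73_ok {n73 : ℕ} (S : LS a h g t D) (p73 : pOK 73 a n73 = true) (z73 : 0 < n73)
    {S73 : CL} {i tv : ℕ} {T : TL} (m73 : S73.At i tv T) (C73 : Cn 73 a n73 n73 g tv T) :
    OpS (o73 c133_73 π n73 S73) π a m h g t D where
  flt := by
    intro T3 T5 T7 T13 T19 T37 tv13 tv19 tv37 X R Mo k H d7 d19 hk
    have i1 : NeZero c133_73.q := ⟨by decide +kernel⟩
    have hk' : ext n73 R Mo (fun R Mo => S73.all (fun tv _ =>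
      force (sl1 tv (Nat.mul 7 (Nat.mod R n73))) (fun t =>
        rl 73 I73 (lc π.n7 π.n19)
          (pfP (x133_73 c133_73) (e133_73 c133_73) 73 a (lc π.n7 π.n19) T7 T19).1
          (pfP (x133_73 c133_73) (e133_73 c133_73) 73 a (lc π.n7 π.n19) T7 T19).2
          R Mo t k))) = true := hk
    obtain ⟨R1, M1, H1, e1, n1, hs⟩ := ext_sound z73 H hk'
    have h1 := CL.all_at hs m73
    rw [force_eq] at h1
    have e : sl1 tv (Nat.mul 7 (Nat.mod R1 n73)) = res t 73 :=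
      Cn.rs S C73 k73 (by norm_num) p73 z73 H1 n1
    obtain ⟨R2, M2, H2, e2, h2⟩ := S.rl (p := 73) c133_73_ok (by decide +kernel)
      (by decide +kernel)
      (lc_pos X.K.z7 X.K.z19)
      (Cg_two (q := c133_73.q) (by decide +kernel) (by norm_num) X.K.p7 X.K.p19 g)
      (heh_133_73 X.S.base) X.C7 X.C19.tr X.K.b5 (fun i => rfl) (fun i => rfl) rfl (by norm_num)
      ci73 (by norm_num) e H1 (lc_dvd (d7.trans e1) (d19.trans e1)) h1
    exact ⟨R2, M2, H2, e1.trans e2, h2⟩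
  fin := fun _ _ _ _ _ _ _ hk => absurd hk (by simp [o73])

theorem oE_ok {n73 : ℕ} (S : LS a h g t D) (p73 : pOK 73 a n73 = true) (z73 : 0 < n73)
    (b13 : lc π.n13 π.n19 ≤ m)
    {S73 : CL} {i tv : ℕ} {T : TL} (m73 : S73.At i tv T) (C73 : Cn 73 a n73 n73 g tv T) :
    OpS (oE c133_73 c247_73_0 c247_73_1 π a n73 S73) π a m h g t D where
  flt := fun _ _ _ _ H _ _ hk => ⟨_, _, H, dvd_rfl, hk⟩
  fin := by
    intro T3 T5 T7 T13 T19 T37 tv13 tv19 tv37 X R Mo H d7 d13 d19 hk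
    have i1 : NeZero c133_73.q := ⟨by decide +kernel⟩
    have i2 : NeZero c247_73_0.q := ⟨by decide +kernel⟩
    have i3 : NeZero c247_73_1.q := ⟨by decide +kernel⟩
    have hk' : pf (x133_73 c133_73) (e133_73 c133_73) 73 a (lc π.n7 π.n19) T7 T19 (fun N W =>
      ext n73 R Mo (fun R Mo => S73.all (fun tv _ =>
      force (sl1 tv (Nat.mul 7 (Nat.mod R n73))) (fun t =>
        rl 73 I73 (lc π.n7 π.n19) N W R Mo t (fun R Mo =>
        pf (x247 c247_73_0) (e247 c247_73_0) 73 a (lc π.n13 π.n19) T13 T19 (fun N' W' =>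
        rl 73 I73 (lc π.n13 π.n19) N' W' R Mo t (fun R Mo =>
        pf (x247 c247_73_1) (e247 c247_73_1) 73 a (lc π.n13 π.n19) T13 T19 (fun N'' W'' =>
        rl 73 I73 (lc π.n13 π.n19) N'' W'' R Mo t (fun _ _ => false))))))))) = true := hk
    rw [pf_eq] at hk'
    obtain ⟨R1, M1, H1, e1, n1, hs⟩ := ext_sound z73 H hk'
    have h1 := CL.all_at hs m73
    rw [force_eq] at h1
    have e : sl1 tv (Nat.mul 7 (Nat.mod R1 n73)) = res t 73 :=
      Cn.rs S C73 k73 (by norm_num) p73 z73 H1 n1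
    obtain ⟨R2, M2, H2, e2, h2⟩ := S.rl (p := 73) c133_73_ok (by decide +kernel)
      (by decide +kernel)
      (lc_pos X.K.z7 X.K.z19)
      (Cg_two (q := c133_73.q) (by decide +kernel) (by norm_num) X.K.p7 X.K.p19 g)
      (heh_133_73 X.S.base) X.C7 X.C19.tr X.K.b5 (fun i => rfl) (fun i => rfl) rfl (by norm_num)
      ci73 (by norm_num) e H1 (lc_dvd (d7.trans e1) (d19.trans e1)) h1
    have f2 := e1.trans e2
    rw [pf_eq] at h2
    obtain ⟨R3, M3, H3, e3, h3⟩ := S.rl (p := 73) c247_73_0_ok (by decide +kernel)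
      (by decide +kernel)
      (lc_pos X.K.z13 X.K.z19)
      (Cg_two (q := c247_73_0.q) (by decide +kernel) (by norm_num) X.K.p13 X.K.p19 g)
      (heh_247_0 X.S.base) X.C13.tr X.C19.tr b13 (fun i => rfl) (fun i => rfl) rfl (by norm_num)
      ci73 (by norm_num) e H2 (lc_dvd (d13.trans f2) (d19.trans f2)) h2
    have f3 := f2.trans e3
    rw [pf_eq] at h3
    obtain ⟨R4, M4, H4, e4, h4⟩ := S.rl (p := 73) c247_73_1_ok (by decide +kernel)
      (by decide +kernel)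
      (lc_pos X.K.z13 X.K.z19)
      (Cg_two (q := c247_73_1.q) (by decide +kernel) (by norm_num) X.K.p13 X.K.p19 g)
      (heh_247_1 X.S.base) X.C13.tr X.C19.tr b13 (fun i => rfl) (fun i => rfl) rfl (by norm_num)
      ci73 (by norm_num) e H3 (lc_dvd (d13.trans f3) (d19.trans f3)) h3
    exact absurd h4 (by simp)

theorem srch73_sound (S : LS a h g t D) (K : POK π a m) {n73 : ℕ} (p73 : pOK 73 a n73 = true)
    (z73 : 0 < n73) {lo n h0 cnt : ℕ} (h1 : lo ≤ res (nBh g) 37) (h2 : res (nBh g) 37 < lo + n)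
    (g1 : h0 ≤ h % lc π.n37 π.n7) (g2 : h % lc π.n37 π.n7 < h0 + cnt)
    (hs : srch73 c133_73 π a m n73 lo n h0 cnt = true) : False := by
  unfold srch73 at hs
  obtain ⟨S73, i73, tv73, T73, m73, C73, hs⟩ :=
    S.ctr k73 (by norm_num) (by norm_num) ci73 iq73 (le_refl n73) hs
  exact srch_sound S K (o73_ok S p73 z73 m73 C73) h1 h2 g1 g2 hs

theorem srchE_sound (S : LS a h g t D) (K : POK π a m) {n73 : ℕ} (p73 : pOK 73 a n73 = true)
    (z73 : 0 < n73) (b13 : lc π.n13 π.n19 ≤ m)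
    {lo n h0 cnt : ℕ} (h1 : lo ≤ res (nBh g) 37) (h2 : res (nBh g) 37 < lo + n)
    (g1 : h0 ≤ h % lc π.n37 π.n7) (g2 : h % lc π.n37 π.n7 < h0 + cnt)
    (hs : srchE c133_73 c247_73_0 c247_73_1 π a m n73 lo n h0 cnt = true) : False := by
  unfold srchE at hs
  obtain ⟨S73, i73, tv73, T73, m73, C73, hs⟩ :=
    S.ctr k73 (by norm_num) (by norm_num) ci73 iq73 (le_refl n73) hs
  exact srch_sound S K (oE_ok S p73 z73 b13 m73 C73) h1 h2 g1 g2 hs

theorem srch0_sound (S : LS a h g t D) (K : POK π a m)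
    {lo n h0 cnt : ℕ} (h1 : lo ≤ res (nBh g) 37) (h2 : res (nBh g) 37 < lo + n)
    (g1 : h0 ≤ h % lc π.n37 π.n7) (g2 : h % lc π.n37 π.n7 < h0 + cnt)
    (hs : srch π o0 a m lo n h0 cnt = true) : False :=
  srch_sound S K o0_ok h1 h2 g1 g2 hs

end opt

end Pool.Agent.L0h49.F
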