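import Pool.Agent.L0h49.F.A5

/-! From a relation for a word to a form at the centre; the three-term identity. -/

set_option maxRecDepth 100000

namespace Pool.Agent.L0h49.F

open H419R2 Finset
open Pool.Agent.N911 Pool.Agent.L0h49.E

theorem flip_of_eq {f : Fm} (h : f.C = f.A) : flip f = f := by
  cases f
  simp only at h
  subst h
  rfl

theorem LS_of {a h : ℕ} {t P : ℤ} (H : BaseH (t ^ 2 + 4 * P))
    (hsym : (it a (f0 t P) h).C = (it a (f0 t P) h).A)
    (hrel : ∀ c : CD, c.OK → c.q ∣ M2n → c.p ∣ M2n → ∀ _ : NeZero c.q,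
      RelW (chi c.q c.p c.T) (rp a h) t P = 0) : ∃ g D', LS a h g t D' := by
  set G := it a (f0 t P) h with hG
  have hdG : G.disc = t ^ 2 + 4 * P := by rw [hG, it_disc, f0_disc]
  set u := ivh G.A with hu
  have hflip : flip G = G := flip_of_eq hsym
  have hA : ∀ l : ℕ, l ∈ LPh → ((G.A * u : ℤ) : ZMod l) = 1 := fun l hl => H.ivA hdG (LPh_dvd hl)
  have H' : BaseH (u ^ 2 * (t ^ 2 + 4 * P)) := by
    constructor
    intro l hl hs
    apply H.nsq l hl
    have e := hA l hl
    push_cast at e hs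
    have e2 := sq_ofU (x := (t : ZMod l) ^ 2 + 4 * (P : ZMod l)) (y := (u : ZMod l)) (y' := (G.A : ZMod l)) e hs
    push_cast
    exact e2
  have hd' : (sm u G).disc = u ^ 2 * (t ^ 2 + 4 * P) := by rw [sm_disc, hdG]
  have hlast : it a G (h + 1) = ⟨1, 2 * a - t, P + a * t - a ^ 2⟩ := by
    rw [it_succ]
    have e2 : it a G h = flip (f0 t P) := by
      have := it_flip a (f0 t P) (le_refl h)
      rw [← hG, hflip, Nat.sub_self] at this
      exact this
    rw [e2]
    unfold Pool.Agent.L0h49.E.flip f0 Fm.step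
    simp only [Fm.mk.injEq, true_and]
    constructor <;> ring
  refine ⟨sm u G, u ^ 2 * (t ^ 2 + 4 * P), H', hd', ?_, ?_, ?_, ?_⟩
  · intro l hl
    rw [← hA l hl]
    change ((u * G.A : ℤ) : ZMod l) = _
    rw [mul_comm]
  · intro l hl
    rw [← hA l hl]
    change ((u * G.C : ℤ) : ZMod l) = _
    rw [hsym, mul_comm]
  · intro l hl
    have e := H'.ivA (f := it a (sm u G) (h + 1)) (by rw [it_disc]; exact hd') (LPh_dvd hl)
    rw [it_sm, hlast] at e ⊢
    change ((u * 1 * ivh (u * 1) : ℤ) : ZMod l) = 1 at e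
    change (t : ZMod l) = ((2 * a - u * (2 * a - t) * ivh (u * 1) : ℤ) : ZMod l)
    push_cast at e ⊢
    linear_combination (2 * (a : ZMod l) - t) * e
  · intro c hc h1 h2 hne
    have hmul := chi_mul hc.mul
    have hodd := chi_neg hc.q1 hc.mul hc.oth
    have r := hrel c hc h1 h2 hne
    rw [RelW_out hodd (by rw [← hG]; exact hflip), ← hG] at r
    rw [SG_sm hmul, it_sm, sy_sm hmul]
    linear_combination (chi c.q c.p c.T (u : ZMod c.q)) * r

/-! ### The three-term identity -/

section three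

variable {N : ℕ} [NeZero N]

theorem wY_neg (x : ZMod N) : wY (-x) = wY x := by
  unfold wY
  by_cases hx : x = 0
  · subst hx; simp
  · have h := ZMod.neg_val x
    rw [if_neg hx] at h
    rw [h, Nat.cast_sub (ZMod.val_lt x).le]
    ring

/-- three-term relation of the weights -/
theorem w_three {x y : ZMod N} (h : ¬ (x = 0 ∧ y = 0)) :
    3 * (wE x y - wE (x - y) y + wE x (x - y)) = wY (x - y) + wY x + wY y := by
  have key : ∀ a b : ZMod N, ¬ (a = 0 ∧ b = 0) →
      3 * (wE (a + b) b - wE a b + wE (a + b) a) = wY a + wY (a + b) + wY b := by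
    intro a b hab
    have hN : 0 < N := NeZero.pos N
    have ha := ZMod.val_lt a
    have hb := ZMod.val_lt b
    have z : ∀ c : ZMod N, c = 0 ↔ c.val = 0 := fun c => (ZMod.val_eq_zero c).symm
    have hv : (a + b).val = (a.val + b.val) % N := ZMod.val_add a b
    unfold wE wY
    simp only [z] at hab
    simp only [z, hv]
    rcases Nat.lt_or_ge (a.val + b.val) N with h1 | h1
    · rw [Nat.mod_eq_of_lt h1]
      by_cases a0 : a.val = 0
      · rw [a0] at hab ⊢
        have b0 : b.val ≠ 0 := fun h => hab ⟨rfl, h⟩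
        simp only [zero_add, b0, or_self, if_false, true_or, or_true, if_true]
        push_cast
        ring
      · by_cases b0 : b.val = 0
        · rw [b0]
          simp only [add_zero, a0, or_self, if_false, or_true, if_true]
          push_cast
          ring
        · have c0 : a.val + b.val ≠ 0 := by omega
          simp only [a0, b0, c0, or_self, if_false]
          push_cast
          ring
    · have hm : (a.val + b.val) % N = a.val + b.val - N := by
        rw [Nat.mod_eq_sub_mod h1, Nat.mod_eq_of_lt (by omega)]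
      rw [hm]
      have a0 : a.val ≠ 0 := by omega
      have b0 : b.val ≠ 0 := by omega
      by_cases c0 : a.val + b.val - N = 0
      · have e : b.val = N - a.val := by omega
        rw [c0, e]
        have b0' : N - a.val ≠ 0 := by omega
        simp only [a0, b0', true_or, or_self, if_false, if_true]
        rw [Nat.cast_sub ha.le]
        push_cast
        ring
      · simp only [a0, b0, c0, or_self, if_false]
        rw [Nat.cast_sub h1]
        push_cast
        ring
  have h2 := key (x - y) y (by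
    rintro ⟨h3, h4⟩
    apply h
    rw [h4, sub_zero] at h3
    exact ⟨h3, h4⟩)
  rw [sub_add_cancel] at h2
  rw [← h2]

variable {M : Type*} [CommRing M] {f : ZMod N → M} (hodd : ∀ x, f (-x) = -f x)

include hodd

theorem SE_shift1 (t P : ZMod N) : SE f 1 (-t - 2) (P - t - 1) =
    -∑ x : ZMod N, ∑ y : ZMod N, f (x ^ 2 + t * (x * y) - P * y ^ 2) * (wE (x - y) y : M) := by
  unfold SE
  rw [← Finset.sum_neg_distrib, Finset.sum_comm]
  conv_rhs => rw [Finset.sum_congr rfl (fun x _ => (Finset.sum_neg_distrib (f := fun y =>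
    f (x ^ 2 + t * (x * y) - P * y ^ 2) * (wE (x - y) y : M))).symm)]
  rw [Finset.sum_comm (γ := ZMod N) (s := univ) (t := univ) (f := fun x y =>
    -(f (x ^ 2 + t * (x * y) - P * y ^ 2) * (wE (x - y) y : M)))]
  rw [← Equiv.sum_comp (Equiv.neg (ZMod N))]
  apply Finset.sum_congr rfl
  intro y _
  rw [← Equiv.sum_comp (Equiv.subRight y)]
  apply Finset.sum_congr rfl
  intro x _
  simp only [Equiv.neg_apply, Equiv.subRight_apply]
  have e1 : (1 : ZMod N) * (x - y) ^ 2 + (-t - 2) * ((x - y) * -y) - (P - t - 1) * (-y) ^ 2 =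
      x ^ 2 + t * (x * y) - P * y ^ 2 := by ring
  have e2 : wE (x - y) (-y) = -wE (x - y) y := by rw [wE_swap, wE_neg, wE_swap]
  rw [e1, e2]
  push_cast
  ring

theorem SE_shift2 (t P : ZMod N) : SE f (P - t - 1) (2 * P - t) (-P) =
    ∑ x : ZMod N, ∑ y : ZMod N, f (x ^ 2 + t * (x * y) - P * y ^ 2) * (wE x (x - y) : M) := by
  unfold SE
  apply Finset.sum_congr rfl
  intro x _
  rw [← Equiv.sum_comp (Equiv.subRight x)]
  apply Finset.sum_congr rfl
  intro y _
  simp only [Equiv.subRight_apply]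
  have e1 : (P - t - 1) * x ^ 2 + (2 * P - t) * (x * (y - x)) - -P * (y - x) ^ 2 =
      -(x ^ 2 + t * (x * y) - P * y ^ 2) := by ring
  have e2 : wE x (y - x) = -wE x (x - y) := by
    have e3 : y - x = -(x - y) := by ring
    rw [e3, wE_swap, wE_neg, wE_swap]
  rw [e1, e2, hodd]
  push_cast
  ring

theorem SY_shift2 (t P : ZMod N) : SY f (P - t - 1) (2 * P - t) (-P) =
    -∑ x : ZMod N, ∑ y : ZMod N, f (x ^ 2 + t * (x * y) - P * y ^ 2) * (wY (x - y) : M) := by
  unfold SY
  rw [← Finset.sum_neg_distrib]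
  apply Finset.sum_congr rfl
  intro x _
  rw [← Finset.sum_neg_distrib, ← Equiv.sum_comp (Equiv.subRight x)]
  apply Finset.sum_congr rfl
  intro y _
  simp only [Equiv.subRight_apply]
  have e1 : (P - t - 1) * x ^ 2 + (2 * P - t) * (x * (y - x)) - -P * (y - x) ^ 2 =
      -(x ^ 2 + t * (x * y) - P * y ^ 2) := by ring
  have e2 : wY (y - x) = wY (x - y) := by
    have e3 : y - x = -(x - y) := by ring
    rw [e3, wY_neg]
  rw [e1, e2, hodd]
  ring

omit hodd in
theorem SY_shift1 (t P : ZMod N) : SY f 1 (-t - 2) (P - t - 1) = SY f 1 t P := by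
  unfold SY
  rw [Finset.sum_comm]
  conv_rhs => rw [Finset.sum_comm]
  rw [← Equiv.sum_comp (Equiv.neg (ZMod N))]
  apply Finset.sum_congr rfl
  intro y _
  rw [← Equiv.sum_comp (Equiv.subRight y)]
  apply Finset.sum_congr rfl
  intro x _
  simp only [Equiv.neg_apply, Equiv.subRight_apply]
  have e1 : (1 : ZMod N) * (x - y) ^ 2 + (-t - 2) * ((x - y) * -y) - (P - t - 1) * (-y) ^ 2 =
      1 * x ^ 2 + t * (x * y) - P * y ^ 2 := by ring
  rw [e1, wY_neg]

theorem SY_flip0 (t P : ZMod N) : SY f P t 1 =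
    -∑ x : ZMod N, ∑ y : ZMod N, f (x ^ 2 + t * (x * y) - P * y ^ 2) * (wY x : M) := by
  unfold SY
  rw [← Finset.sum_neg_distrib, Finset.sum_comm]
  apply Finset.sum_congr rfl
  intro x _
  rw [← Finset.sum_neg_distrib, ← Equiv.sum_comp (Equiv.neg (ZMod N))]
  apply Finset.sum_congr rfl
  intro y _
  simp only [Equiv.neg_apply]
  have e1 : P * (-y) ^ 2 + t * (-y * x) - 1 * x ^ 2 = -(x ^ 2 + t * (x * y) - P * y ^ 2) := by ring
  rw [e1, hodd]
  ring

/-- the three-term identity -/
theorem three_term (hf0 : f 0 = 0) (t P : ZMod N) :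
    6 * (SE f 1 t P + SE f 1 (-t - 2) (P - t - 1) + SE f (P - t - 1) (2 * P - t) (-P)) +
      2 * (SY f (P - t - 1) (2 * P - t) (-P) + SY f P t 1 - SY f 1 t P) = 0 := by
  rw [SE_shift1 hodd, SE_shift2 hodd, SY_shift2 hodd, SY_flip0 hodd]
  have e1 : SE f 1 t P = ∑ x : ZMod N, ∑ y : ZMod N,
      f (x ^ 2 + t * (x * y) - P * y ^ 2) * (wE x y : M) := by
    unfold SE
    apply Finset.sum_congr rfl
    intro x _
    apply Finset.sum_congr rfl
    intro y _
    rw [one_mul]
  have e2 : SY f 1 t P = ∑ x : ZMod N, ∑ y : ZMod N,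
      f (x ^ 2 + t * (x * y) - P * y ^ 2) * (wY y : M) := by
    unfold SY
    apply Finset.sum_congr rfl
    intro x _
    apply Finset.sum_congr rfl
    intro y _
    rw [one_mul]
  rw [e1, e2]
  have key : ∑ x : ZMod N, ∑ y : ZMod N, f (x ^ 2 + t * (x * y) - P * y ^ 2) *
      ((3 * (wE x y - wE (x - y) y + wE x (x - y)) - (wY (x - y) + wY x + wY y) : ℤ) : M) = 0 := by
    apply Finset.sum_eq_zero
    intro x _
    apply Finset.sum_eq_zero
    intro y _
    by_cases h : x = 0 ∧ y = 0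
    · obtain ⟨rfl, rfl⟩ := h
      have e3 : (0 : ZMod N) ^ 2 + t * (0 * 0) - P * 0 ^ 2 = 0 := by ring
      rw [e3, hf0, zero_mul]
    · rw [w_three h, sub_self]
      simp
  have key2 : ∑ x : ZMod N, ∑ y : ZMod N, f (x ^ 2 + t * (x * y) - P * y ^ 2) *
      ((3 * (wE x y - wE (x - y) y + wE x (x - y)) - (wY (x - y) + wY x + wY y) : ℤ) : M) =
      3 * (∑ x : ZMod N, ∑ y : ZMod N, f (x ^ 2 + t * (x * y) - P * y ^ 2) * (wE x y : M) -
      ∑ x : ZMod N, ∑ y : ZMod N, f (x ^ 2 + t * (x * y) - P * y ^ 2) * (wE (x - y) y : M) +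
      ∑ x : ZMod N, ∑ y : ZMod N, f (x ^ 2 + t * (x * y) - P * y ^ 2) * (wE x (x - y) : M)) -
      (∑ x : ZMod N, ∑ y : ZMod N, f (x ^ 2 + t * (x * y) - P * y ^ 2) * (wY (x - y) : M) +
      ∑ x : ZMod N, ∑ y : ZMod N, f (x ^ 2 + t * (x * y) - P * y ^ 2) * (wY x : M) +
      ∑ x : ZMod N, ∑ y : ZMod N, f (x ^ 2 + t * (x * y) - P * y ^ 2) * (wY y : M)) := by
    rw [← Finset.sum_sub_distrib, ← Finset.sum_add_distrib, ← Finset.sum_add_distrib,
      ← Finset.sum_add_distrib, Finset.mul_sum, ← Finset.sum_sub_distrib]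
    apply Finset.sum_congr rfl
    intro x _
    rw [← Finset.sum_sub_distrib, ← Finset.sum_add_distrib, ← Finset.sum_add_distrib,
      ← Finset.sum_add_distrib, Finset.mul_sum, ← Finset.sum_sub_distrib]
    apply Finset.sum_congr rfl
    intro y _
    push_cast
    ring
  rw [key2] at key
  linear_combination 2 * key

end three

/-- negative form -/
def ng (f : Fm) : Fm := ⟨-f.A, -f.B, -f.C⟩

theorem ng_step (a : ℕ) (f : Fm) : (ng f).step a = ng (f.step a) := by
  unfold ng Fm.step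
  simp only [Fm.mk.injEq, true_and]
  constructor <;> ring

section rel

variable {N : ℕ} [NeZero N] {M : Type*} [CommRing M] {f : ZMod N → M} (hodd : ∀ x, f (-x) = -f x)

include hodd

theorem se_ng (k : Fm) : se f (ng k) = -se f k := by
  unfold se ng SE
  rw [← Finset.sum_neg_distrib]
  apply Finset.sum_congr rfl
  intro x _
  rw [← Finset.sum_neg_distrib]
  apply Finset.sum_congr rfl
  intro y _
  have e : ((-k.A : ℤ) : ZMod N) * x ^ 2 + ((-k.B : ℤ) : ZMod N) * (x * y) -
      ((-k.C : ℤ) : ZMod N) * y ^ 2 = -(k.A * x ^ 2 + k.B * (x * y) - k.C * y ^ 2) := by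
    push_cast
    ring
  change f (((-k.A : ℤ) : ZMod N) * x ^ 2 + ((-k.B : ℤ) : ZMod N) * (x * y) -
      ((-k.C : ℤ) : ZMod N) * y ^ 2) * _ = _
  rw [e, hodd]
  ring

theorem sy_ng (k : Fm) : sy f (ng k) = -sy f k := by
  unfold sy ng SY
  rw [← Finset.sum_neg_distrib]
  apply Finset.sum_congr rfl
  intro x _
  rw [← Finset.sum_neg_distrib]
  apply Finset.sum_congr rfl
  intro y _
  have e : ((-k.A : ℤ) : ZMod N) * x ^ 2 + ((-k.B : ℤ) : ZMod N) * (x * y) -
      ((-k.C : ℤ) : ZMod N) * y ^ 2 = -(k.A * x ^ 2 + k.B * (x * y) - k.C * y ^ 2) := by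
    push_cast
    ring
  change f (((-k.A : ℤ) : ZMod N) * x ^ 2 + ((-k.B : ℤ) : ZMod N) * (x * y) -
      ((-k.C : ℤ) : ZMod N) * y ^ 2) * _ = _
  rw [e, hodd]
  ring

omit hodd in
theorem RS_cons (a : ℕ) (l : WL) (k : Fm) : RS f (.cons a l) k =
    6 * se f k + 2 * a * sy f (k.step a) + RS f l (k.step a) := rfl

omit hodd in
theorem RS_nil (k : Fm) : RS f .nil k = 3 * se f k := rfl

theorem RS_ng (l : WL) (k : Fm) : RS f l (ng k) = -RS f l k := by
  induction l generalizing k with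
  | nil => rw [RS_nil, RS_nil, se_ng hodd]; ring
  | cons a l ih =>
    rw [RS_cons, RS_cons, se_ng hodd, ng_step, sy_ng hodd, ih]
    ring

theorem RelW_neg (hf0 : f 0 = 0) (b h : ℕ) (t P : ℤ) :
    RelW f (.cons 1 (.cons b (rp (b + 1) h))) (-t - 2) (P - t - 1) =
      -RelW f (rp (b + 1) (h + 1)) t P := by
  unfold RelW
  have e1 : (rp (b + 1) (h + 1)) = .cons (b + 1) (rp (b + 1) h) := rfl
  rw [e1, RS_cons, RS_cons, RS_cons]
  have g1 : (f0 (-t - 2) (P - t - 1)).step 1 = ⟨P - t - 1, 2 * P - t, -P⟩ := by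
    unfold f0 Fm.step
    simp only [Fm.mk.injEq, true_and]
    push_cast
    constructor <;> ring
  have g2 : ((f0 (-t - 2) (P - t - 1)).step 1).step b = ng ((f0 t P).step (b + 1)) := by
    rw [g1]
    unfold f0 Fm.step ng
    simp only [Fm.mk.injEq]
    push_cast
    refine ⟨trivial, ?_, ?_⟩ <;> ring
  rw [g2, RS_ng hodd, sy_ng hodd, g1, sy_step]
  have h3 := three_term hodd hf0 (t : ZMod N) (P : ZMod N)
  have s1 : se f (f0 t P) = SE f 1 (t : ZMod N) (P : ZMod N) := by
    unfold se f0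
    push_cast
    rfl
  have s2 : se f (f0 (-t - 2) (P - t - 1)) = SE f 1 (-t - 2 : ZMod N) (P - t - 1 : ZMod N) := by
    unfold se f0
    push_cast
    rfl
  have s3 : se f ⟨P - t - 1, 2 * P - t, -P⟩ =
      SE f (P - t - 1 : ZMod N) (2 * P - t : ZMod N) (-P : ZMod N) := by
    unfold se
    push_cast
    rfl
  have s4 : sy f ⟨P - t - 1, 2 * P - t, -P⟩ =
      SY f (P - t - 1 : ZMod N) (2 * P - t : ZMod N) (-P : ZMod N) := by
    unfold sy
    push_cast
    rfl
  have s5 : sy f (flip (f0 t P)) = SY f (P : ZMod N) (t : ZMod N) 1 := by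
    unfold sy Pool.Agent.L0h49.E.flip f0
    push_cast
    rfl
  have s6 := SY_shift1 (f := f) (t : ZMod N) (P : ZMod N)
  rw [s1, s2, s3, s4, s5]
  push_cast
  rw [s6]
  linear_combination h3

theorem RelW_neg1 (hf0 : f 0 = 0) (h : ℕ) (t P : ℤ) :
    RelW f (.cons 2 (rp 1 h)) (-t - 2) (P - t - 1) = -RelW f (rp 1 (h + 2)) t P := by
  have e := RelW_neg hodd hf0 0 (h + 1) t P
  have e0 : (0 + 1 : ℕ) = 1 := rfl
  rw [e0] at e
  rw [← e]
  unfold RelW
  have e1 : (rp 1 (h + 1)) = .cons 1 (rp 1 h) := rfl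
  rw [e1, RS_cons, RS_cons, RS_cons, RS_cons]
  set k := f0 (-t - 2) (P - t - 1) with hk
  have g3 : ((k.step 1).step 0).step 1 = k.step 2 := by
    unfold Fm.step
    simp only [Fm.mk.injEq]
    push_cast
    refine ⟨?_, ?_, ?_⟩ <;> ring
  have g4 : se f ((k.step 1).step 0) = -se f (k.step 1) := by
    have g5 : (k.step 1).step 0 = ng ⟨-(k.step 1).C, (k.step 1).B, -(k.step 1).A⟩ := by
      unfold Fm.step ng
      simp only [Fm.mk.injEq]
      push_cast
      refine ⟨?_, ?_, ?_⟩ <;> ring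
    have g6 : se f ⟨-(k.step 1).C, (k.step 1).B, -(k.step 1).A⟩ = se f (k.step 1) := by
      unfold se SE
      rw [Finset.sum_comm]
      apply Finset.sum_congr rfl
      intro x _
      apply Finset.sum_congr rfl
      intro y _
      rw [wE_swap]
      congr 2
      push_cast
      ring
    rw [g5, se_ng hodd, g6]
  rw [g3, g4, sy_step, sy_step]
  push_cast
  ring

end rel

end Pool.Agent.L0h49.F
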