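import Pool.Agent.L0h49.F.A6

/-! Explicit coefficients for constant symmetric parts. -/

set_option maxRecDepth 100000

namespace Pool.Agent.L0h49.F

open H419R2 Finset
open Pool.Agent.N911 Pool.Agent.L0h49.E

/-- the Lucas sequence with parameters `a` and `-1` -/
def luc (a : ℕ) : ℕ → ℕ
  | 0 => 0
  | 1 => 1
  | n + 2 => a * luc a (n + 1) + luc a n

theorem luc_rec (a n : ℕ) : luc a (n + 2) = a * luc a (n + 1) + luc a n := rfl

theorem luc_recZ (a n : ℕ) : (luc a (n + 2) : ℤ) = a * luc a (n + 1) + luc a n := by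
  rw [luc_rec]; push_cast; ring

theorem luc_det (a n : ℕ) : (luc a (2 * n + 1) : ℤ) ^ 2 =
    a * luc a (2 * n + 1) * luc a (2 * n) + (luc a (2 * n) : ℤ) ^ 2 + 1 := by
  induction n with
  | zero => simp [luc]
  | succ n ih =>
    have e1 : 2 * (n + 1) = 2 * n + 2 := by ring
    have e2 : 2 * n + 2 + 1 = (2 * n + 1) + 2 := by ring
    rw [e1, e2, luc_recZ, luc_recZ]
    linear_combination ih

/-- fixed form -/
theorem it_fix (a n : ℕ) : it a ⟨1, a, 1⟩ n = ⟨1, a, 1⟩ := by
  induction n with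
  | zero => rfl
  | succ n ih =>
    rw [it_succ, ih]
    unfold Fm.step
    simp only [Fm.mk.injEq, true_and]
    constructor <;> ring

theorem it_dir (a i m : ℕ) : it a ⟨0, luc a (i + m + 1), luc a (i + m)⟩ i =
    ⟨luc a i * luc a (m + 1), luc a (i + 1) * luc a (m + 1) - luc a i * luc a m,
      luc a (i + 1) * luc a m⟩ := by
  induction i generalizing m with
  | zero =>
    change (⟨0, luc a (0 + m + 1), luc a (0 + m)⟩ : Fm) = _
    rw [Nat.zero_add]
    simp [luc]
  | succ i ih =>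
    have e1 : i + 1 + m + 1 = i + (m + 1) + 1 := by ring
    have e2 : i + 1 + m = i + (m + 1) := by ring
    rw [it_succ, e1, e2, ih]
    unfold Fm.step
    have r1 := luc_recZ a m
    have r2 := luc_recZ a i
    have e3 : m + 1 + 1 = m + 2 := rfl
    have e4 : i + 1 + 1 = i + 2 := rfl
    rw [e3, e4]
    simp only [Fm.mk.injEq]
    refine ⟨trivial, ?_, ?_⟩
    · linear_combination (luc a (m + 1) : ℤ) * (-r2) + (luc a (i + 1) : ℤ) * (-r1)
    · linear_combination (luc a i : ℤ) * r1 - (luc a m : ℤ) * r2 + (a : ℤ) * luc a (i + 1) * r1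

theorem it_add_smul (a : ℕ) (f g : Fm) (k : ℤ) (n : ℕ) :
    it a ⟨f.A + k * g.A, f.B + k * g.B, f.C + k * g.C⟩ n =
      ⟨(it a f n).A + k * (it a g n).A, (it a f n).B + k * (it a g n).B,
        (it a f n).C + k * (it a g n).C⟩ := by
  induction n with
  | zero => rfl
  | succ n ih =>
    rw [it_succ, it_succ, it_succ, ih]
    unfold Fm.step
    simp only [Fm.mk.injEq, true_and]
    constructor <;> ring

/-- the forms of the family -/
theorem it_fam (a i m : ℕ) (j : ℤ) :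
    it a (f0 (a + j * luc a (i + m + 1)) (1 + j * luc a (i + m))) i =
    ⟨1 + j * (luc a i * luc a (m + 1)), a + j * (luc a (i + 1) * luc a (m + 1) -
      luc a i * luc a m), 1 + j * (luc a (i + 1) * luc a m)⟩ := by
  have e := it_add_smul a ⟨1, a, 1⟩ ⟨0, luc a (i + m + 1), luc a (i + m)⟩ j i
  rw [it_fix, it_dir] at e
  have e2 : f0 (a + j * luc a (i + m + 1)) (1 + j * luc a (i + m)) =
      ⟨1 + j * 0, a + j * luc a (i + m + 1), 1 + j * luc a (i + m)⟩ := by
    unfold f0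
    simp
  rw [e2]
  exact e

/-- symmetry at the centre -/
theorem fam_sym (a h : ℕ) (j : ℤ) :
    (it a (f0 (a + j * luc a (2 * h + 1)) (1 + j * luc a (2 * h))) h).C =
    (it a (f0 (a + j * luc a (2 * h + 1)) (1 + j * luc a (2 * h))) h).A := by
  have e : 2 * h = h + h := by ring
  rw [e, it_fam]
  change 1 + j * (luc a (h + 1) * luc a h : ℤ) = 1 + j * (luc a h * luc a (h + 1))
  ring

/-- positive words -/
theorem fs_pos {a h i : ℕ} (hi : i ≤ h) (j : ℤ) :
    (fs (rp a h) (f0 (a + j * luc a (2 * h + 1)) (1 + j * luc a (2 * h))) i).A =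
    1 + j * (luc a i * luc a (2 * h + 1 - i)) := by
  rw [fs_rp _ hi]
  obtain ⟨m, hm⟩ : ∃ m, 2 * h = i + m := ⟨2 * h - i, by omega⟩
  rw [hm, it_fam]
  have e : i + m + 1 - i = m + 1 := by omega
  rw [e]

theorem pos_C {a h : ℕ} (j : ℤ) :
    (fs (rp a h) (f0 (a + j * luc a (2 * h + 1)) (1 + j * luc a (2 * h))) h).C =
    (fs (rp a h) (f0 (a + j * luc a (2 * h + 1)) (1 + j * luc a (2 * h))) h).A := by
  rw [fs_rp _ (le_refl h)]
  exact fam_sym a h j

/-- word for negative parameters -/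
def wn (b h : ℕ) : WL := .cons 1 (.cons b (rp (b + 1) h))

theorem fs_ng (v : WL) (f : Fm) (n : ℕ) : fs v (ng f) n = ng (fs v f n) := by
  induction n with
  | zero => rfl
  | succ n ih =>
    have e : ∀ f, fs v f (n + 1) = (fs v f n).step (v.get n) := fun _ => rfl
    rw [e, e, ih, ng_step]

theorem step_one (t P : ℤ) : (f0 (-t - 2) (P - t - 1)).step 1 = ⟨P - t - 1, 2 * P - t, -P⟩ := by
  unfold f0 Fm.step
  simp only [Fm.mk.injEq, true_and]
  push_cast
  constructor <;> ring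

theorem step_two (b : ℕ) (t P : ℤ) : ((f0 (-t - 2) (P - t - 1)).step 1).step b =
    ng ((f0 t P).step (b + 1)) := by
  rw [step_one]
  unfold f0 Fm.step ng
  simp only [Fm.mk.injEq]
  push_cast
  refine ⟨trivial, ?_, ?_⟩ <;> ring

theorem fs_wn {b h i : ℕ} (hi : i ≤ h) (t P : ℤ) :
    fs (wn b h) (f0 (-t - 2) (P - t - 1)) (i + 2) = ng (it (b + 1) (f0 t P) (i + 1)) := by
  have e1 : fs (wn b h) (f0 (-t - 2) (P - t - 1)) (i + 2) =
      fs (rp (b + 1) h) (((f0 (-t - 2) (P - t - 1)).step 1).step b) i := by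
    unfold wn
    rw [fs_cons, fs_cons]
  rw [e1, step_two, fs_ng, fs_rp _ hi, it_step]

/-- word for negative parameters, `a = 1` -/
def w1 (h : ℕ) : WL := .cons 2 (rp 1 h)

theorem fs_w1 {h i : ℕ} (hi : i ≤ h) (t P : ℤ) :
    fs (w1 h) (f0 (-t - 2) (P - t - 1)) (i + 1) = ng (it 1 (f0 t P) (i + 2)) := by
  have e1 : fs (w1 h) (f0 (-t - 2) (P - t - 1)) (i + 1) =
      fs (rp 1 h) ((f0 (-t - 2) (P - t - 1)).step 2) i := by
    unfold w1
    rw [fs_cons]
  have e2 : (f0 (-t - 2) (P - t - 1)).step 2 = ng (it 1 (f0 t P) 2) := by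
    change _ = ng (((f0 t P).step 1).step 1)
    unfold f0 Fm.step ng
    simp only [Fm.mk.injEq]
    push_cast
    refine ⟨?_, ?_, ?_⟩ <;> ring
  rw [e1, e2, fs_ng, fs_rp _ hi, it_add, Nat.add_comm 2 i]

end Pool.Agent.L0h49.F
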