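import Pool.Agent.L0h49.F.A7
import Pool.Agent.N911.U8
import Pool.Agent.N911.U9

/-! Small and large parameters. -/

set_option maxRecDepth 100000

namespace Pool.Agent.L0h49.F

open H419R2 Finset
open Pool.Agent.N911 Pool.Agent.L0h49.E

/-- the final list -/
def ListF : List ℕ := [5, 13, 17, 29, 37, 41, 53, 61, 101, 149, 157, 173, 197, 269, 293, 317, 461,
  557, 677, 773, 797, 941, 1013, 1877, 2477]

/-- membership in the final list -/
def inF (D : ℕ) : Bool := anyL ListF (fun x => Nat.beq x D)

theorem inF_sound {D : ℕ} (h : inF D = true) : D ∈ ListF := by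
  unfold inF at h
  rw [anyL_iff] at h
  obtain ⟨x, hx, h1⟩ := h
  rw [← Nat.eq_of_beq_eq_true h1]; exact hx

/-- divisible by a square -/
def sqF (D : ℕ) : Bool := anyL PW (fun l => Nat.beq (Nat.mod D (Nat.mul l l)) 0)

/-- check of one parameter -/
noncomputable def cktF (v : WL) (t P : ℕ) : Bool :=
  or (Nat.beq (Nat.mod t 2) 0) (force (Nat.add (Nat.mul t t) (Nat.mul 4 P)) (fun D =>
    or (inF D) (or (sqF D) (witU v t P D))))

/-- check of all parameters from a given one on -/
noncomputable def smF (U x : ℕ) (v : WL) (fuel : ℕ) : ℕ → ℕ → Bool :=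
  @Nat.rec (fun _ => ℕ → ℕ → Bool) (fun _ _ => false)
    (fun _ ih t P => @Bool.rec (fun _ => Bool)
      (cj (cktF v t P) (force (Nat.add t U) (fun t' => force (Nat.add P x) (fun P' => ih t' P'))))
      true (cj (Nat.ble 21316 (Nat.add (Nat.mul t t) (Nat.mul 4 P)))
        (qW (fun C => Nat.ble 74 C) v 1 t P))) fuel

theorem smF_sound {U x : ℕ} {v : WL} {fuel : ℕ} : ∀ {t P : ℕ}, smF U x v fuel t P = true →
    ∀ j : ℕ, cktF v (t + j * U) (P + j * x) = true ∨
      ∃ i ≤ j, Big v (t + i * U) (P + i * x) := by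
  induction fuel with
  | zero =>
    intro t P h
    exact absurd h (by simp [smF])
  | succ n ih =>
    intro t P h j
    have e : smF U x v (n + 1) t P = @Bool.rec (fun _ => Bool)
      (cj (cktF v t P) (force (Nat.add t U) (fun t' => force (Nat.add P x) (fun P' =>
        smF U x v n t' P'))))
      true (cj (Nat.ble 21316 (Nat.add (Nat.mul t t) (Nat.mul 4 P)))
        (qW (fun C => Nat.ble 74 C) v 1 t P)) := rfl
    rw [e] at h
    cases hb : (cj (Nat.ble 21316 (Nat.add (Nat.mul t t) (Nat.mul 4 P)))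
        (qW (fun C => Nat.ble 74 C) v 1 t P)) with
    | true =>
      right
      refine ⟨0, Nat.zero_le _, ?_⟩
      rw [zero_mul, zero_mul, add_zero, add_zero]
      exact big_of hb
    | false =>
      rw [hb] at h
      change cj (cktF v t P) (force (Nat.add t U) (fun t' => force (Nat.add P x) (fun P' =>
        smF U x v n t' P'))) = true at h
      rw [cj_true, force_eq, force_eq] at h
      obtain ⟨h1, h2⟩ := h
      cases j with
      | zero =>
        left
        rw [zero_mul, zero_mul, add_zero, add_zero]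
        exact h1
      | succ j =>
        have e1 : ∀ i, t + (i + 1) * U = (t + U) + i * U := fun i => by ring
        have e2 : ∀ i, P + (i + 1) * x = (P + x) + i * x := fun i => by ring
        rcases ih h2 j with h3 | ⟨i, hi, h3⟩
        · left
          rw [e1, e2]
          exact h3
        · right
          refine ⟨i + 1, by omega, ?_⟩
          rw [e1, e2]
          exact h3

/-- check of all parameters -/
theorem smF_all {U x : ℕ} {v : WL} {fuel t P : ℕ} (h0 : qW (fun _ => true) v 0 U x = true)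
    (h : smF U x v fuel t P = true) (j : ℕ) :
    cktF v (t + j * U) (P + j * x) = true ∨ Big v (t + j * U) (P + j * x) := by
  rcases smF_sound h j with h4 | ⟨i, hi, h4⟩
  · exact Or.inl h4
  · right
    have h5 := big_mono h0 h4 (j - i)
    have e1 : t + i * U + (j - i) * U = t + j * U := by
      rw [add_assoc, ← add_mul, Nat.add_sub_cancel' hi]
    have e2 : P + i * x + (j - i) * x = P + j * x := by
      rw [add_assoc, ← add_mul, Nat.add_sub_cancel' hi]
    rw [e1, e2] at h5
    exact h5

theorem LPh_prime {l : ℕ} (h : l ∈ LPh) : l.Prime := by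
  unfold LPh at h
  simp only [List.mem_cons, List.not_mem_nil, or_false] at h
  rcases h with rfl | rfl | rfl | rfl | rfl | rfl | rfl | rfl <;> norm_num

theorem LPh_le {l : ℕ} (h : l ∈ LPh) : l ≤ 73 ∧ l ≠ 2 := by
  unfold LPh at h
  simp only [List.mem_cons, List.not_mem_nil, or_false] at h
  rcases h with rfl | rfl | rfl | rfl | rfl | rfl | rfl | rfl <;> norm_num

/-- large parameters are impossible -/
theorem bigF_false {v : WL} {t' P' D : ℕ} (G : GoodW v t' P' D) (hb : Big v t' P')
    {a h : ℕ} {t P : ℤ} (hDD : (D : ℤ) = t ^ 2 + 4 * P)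
    (hsym : (it a (f0 t P) h).C = (it a (f0 t P) h).A)
    (hconv : ∀ (N : ℕ) [NeZero N] (p : ℕ) (f : ZMod N → ZMod p), (∀ x, f (-x) = -f x) → f 0 = 0 →
      RelW f v t' P' = 0 → RelW f (rp a h) t P = 0)
    (hno : ∀ (g : Fm) (D' : ℤ), LS a h g t D' → False) : False := by
  have hD := G.hD
  have hDn : D = t' * t' + 4 * P' := by
    have : (D : ℤ) = ((t' * t' + 4 * P' : ℕ) : ℤ) := by rw [hD]; push_cast; ring
    exact_mod_cast this
  have hDbig : 21316 ≤ D := by rw [hDn]; exact hb.1
  have hno2 : ∀ l : ℕ, l.Prime → l ≤ 73 → ¬ ∃ w0 : ℤ, (l : ℤ) ∣ w0 ^ 2 + t' * w0 - P' := by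
    intro l hl hl73 hex
    obtain ⟨n, hn1, hn2, hA⟩ := G.split l hl (by
      have h1 : (21316 : ℤ) ≤ D := by exact_mod_cast hDbig
      have h2 : (l : ℤ) ≤ 73 := by exact_mod_cast hl73
      have h3 : (0 : ℤ) ≤ l := by positivity
      nlinarith) hex
    have h4 := hb.2 n hn1 hn2
    rw [hA] at h4
    have h2 : (l : ℤ) ≤ 73 := by exact_mod_cast hl73
    linarith
  have hP2 : (P' : ℤ) % 2 = 1 := by
    by_contra hc
    exact hno2 2 Nat.prime_two (by norm_num) ⟨0, by
      have : (P' : ℤ) % 2 = 0 := by omega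
      push_cast
      omega⟩
  have hnsq : ∀ l : ℕ, l ∈ LPh → ¬ IsSquare ((D : ℤ) : ZMod l) := by
    intro l hl hsq
    exact hno2 l (LPh_prime hl) (LPh_le hl).1
      (root_of_square (LPh_prime hl) (LPh_le hl).2 hD hsq)
  have hcD : Nat.Coprime M2n D := by
    have h1 : IsCoprime ((D : ℤ)) (M2n : ℤ) := by
      apply isCoprime_M2
      intro l hl hd
      apply hnsq l hl
      rw [(ZMod.intCast_zmod_eq_zero_iff_dvd _ _).mpr hd]
      exact ⟨0, by simp⟩
    exact (Nat.isCoprime_iff_coprime.mp h1).symm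
  have hbase : BaseH (t ^ 2 + 4 * P) := by
    constructor
    intro l hl
    rw [← hDD]
    exact hnsq l hl
  obtain ⟨g, D', S⟩ := LS_of hbase hsym (by
    intro c hc h1 h2 _
    have h3 : ¬ (c.p : ℤ) ∣ D := by
      intro h
      have h4 : c.p ∣ D := by exact_mod_cast h
      have h5 : c.p ∣ 1 := by
        rw [← hcD]
        exact Nat.dvd_gcd h2 h4
      exact hc.pp.one_lt.ne' (Nat.dvd_one.mp h5)
    have hodd := chi_neg hc.q1 hc.mul hc.oth
    have hr := G.rel_mod hP2 hc.pp hc.p2 h3 (Nat.Coprime.coprime_dvd_left h1 hcD) _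
      (chi_mul hc.mul) hodd (chi_sum hc.oth)
    have hF := Fact.mk hc.pp
    have z0 : chi c.q c.p c.T 0 = 0 := by
      have e := hodd 0
      rw [neg_zero] at e
      have e2 : (2 : ZMod c.p) * chi c.q c.p c.T 0 = 0 := by linear_combination e
      rcases mul_eq_zero.mp e2 with h6 | h6
      · exfalso
        have : ((2 : ℕ) : ZMod c.p) = 0 := by exact_mod_cast h6
        rw [ZMod.natCast_eq_zero_iff] at this
        exact hc.p2 ((Nat.prime_dvd_prime_iff_eq hc.pp Nat.prime_two).mp this)
      · exact h6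
    exact hconv c.q c.p _ hodd z0 hr)
  exact hno g D' S

/-- one word with given parameters -/
theorem coreF {v : WL} (hv : v.Pos) {t P D : ℕ}
    (hsym : (fs v (f0 t P) v.len).C = (fs v (f0 t P) v.len).A)
    (hodd : t % 2 = 1) (hD : D = t * t + 4 * P) (hsf : Squarefree (D : ℤ))
    {K : Type*} [Field K] [NumberField K] (hK : Module.finrank ℚ K = 2) {z : K}
    (hz : z ^ 2 = ((D : ℤ) : K)) (hcl : NumberField.classNumber K = 1)
    (hbf : GoodW v t P D → Big v t P → False)
    (hc : cktF v t P = true ∨ Big v t P) : D ∈ ListF := by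
  have hDz : (D : ℤ) = (t : ℤ) ^ 2 + 4 * (P : ℤ) := by rw [hD]; push_cast; ring
  have mkG : (∀ n, 1 ≤ n → n ≤ v.len → (2 : ℤ) ≤ (fs v (f0 t P) n).A) → GoodW v t P D := by
    intro h
    refine goodW_of_word hv (by omega) hsym ?_ ?_ hDz hsf hodd hK hz hcl
    · intro n hn
      rcases Nat.eq_zero_or_pos n with h0 | h0
      · subst h0; exact one_pos
      · have := h n h0 hn
        unfold qs
        linarith
    · intro n hn1 hn2 h3
      have := h n hn1 hn2
      unfold qs at h3
      linarith
  rcases hc with hc | hb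
  · unfold cktF at hc
    rw [Bool.or_eq_true, force_eq, Bool.or_eq_true, Bool.or_eq_true] at hc
    have eD : Nat.add (Nat.mul t t) (Nat.mul 4 P) = D := hD.symm
    rw [eD] at hc
    rcases hc with hc | hc | hc | hc
    · exfalso
      have : t % 2 = 0 := Nat.eq_of_beq_eq_true hc
      omega
    · exact inF_sound hc
    · exfalso
      unfold sqF at hc
      rw [anyL_iff] at hc
      obtain ⟨l, hl, h1⟩ := hc
      have hp := PW_prime hl
      have h2 : D % (l * l) = 0 := Nat.eq_of_beq_eq_true h1
      have h3 : (l : ℤ) * l ∣ (D : ℤ) := by exact_mod_cast Nat.dvd_of_mod_eq_zero h2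
      have h4 := hsf (l : ℤ) h3
      rw [Int.isUnit_iff] at h4
      have := hp.one_lt
      omega
    · exfalso
      unfold witU at hc
      rw [anyL_iff] at hc
      obtain ⟨l, hl, h1⟩ := hc
      have hp := PW_prime hl
      unfold witU1 at h1
      rw [cj_true, cj_true] at h1
      obtain ⟨h2, h3, h4⟩ := h1
      have h2' : 4 * (l * l) ≤ D := Nat.le_of_ble_eq_true h2
      have hq := qW_sound h3
      have G := mkG (by
        intro n hn1 hn2
        obtain ⟨q, h5, h6⟩ := hq n hn1 hn2
        rw [cj_true] at h5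
        rw [f0_nat, h6]
        exact_mod_cast Nat.le_of_ble_eq_true h5.1)
      obtain ⟨w, _, h5⟩ := anyU_true h4
      have h6' : (w * w + t * w) % l = P % l := Nat.eq_of_beq_eq_true h5
      have h7 : (l : ℤ) ∣ (w : ℤ) ^ 2 + t * w - P := by
        have h8 : (w * w + t * w) ≡ P [MOD l] := h6'
        have h9 := (Nat.modEq_iff_dvd.mp h8)
        push_cast at h9
        have : (w : ℤ) ^ 2 + t * w - P = -((P : ℤ) - (w * w + t * w)) := by ring
        rw [this]
        exact (dvd_neg).mpr h9
      obtain ⟨n, hn1, hn2, hA⟩ := G.split l hp (by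
        have : (4 * (l * l) : ℤ) ≤ D := by exact_mod_cast h2'
        linarith) ⟨w, h7⟩
      obtain ⟨q, h8, h9⟩ := hq n hn1 hn2
      rw [cj_true] at h8
      rw [f0_nat, h9] at hA
      have : q = l := by exact_mod_cast hA
      subst this
      simp at h8
  · exfalso
    have G := mkG (by
      intro n hn1 hn2
      have := hb.2 n hn1 hn2
      linarith)
    exact hbf G hb

end Pool.Agent.L0h49.F
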