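import Pool.Agent.L0h49.F.A8

/-! The families of discriminants. -/

set_option maxRecDepth 100000

namespace Pool.Agent.L0h49.F

open H419R2 Finset
open Pool.Agent.N911 Pool.Agent.L0h49.E

theorem luc_mono {a : ℕ} (ha : 1 ≤ a) {m n : ℕ} (h : m ≤ n) : luc a m ≤ luc a n := by
  have key : ∀ n, luc a n ≤ luc a (n + 1) := by
    intro n
    cases n with
    | zero => simp [luc]
    | succ n =>
      rw [luc_rec]
      nlinarith [Nat.zero_le (luc a n), Nat.zero_le (luc a (n + 1))]
  exact monotone_nat_of_le_succ key h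

theorem luc_ge {a : ℕ} (ha : 1 ≤ a) (n : ℕ) : luc 1 n ≤ luc a n ∧ luc 1 (n + 1) ≤ luc a (n + 1) := by
  induction n with
  | zero => simp [luc]
  | succ n ih =>
    refine ⟨ih.2, ?_⟩
    rw [luc_rec, luc_rec]
    have h1 : 1 * luc 1 (n + 1) ≤ a * luc a (n + 1) := Nat.mul_le_mul ha ih.2
    omega

theorem luc_lb {a : ℕ} (ha : 1 ≤ a) {k n : ℕ} (h : k ≤ n) : luc 1 k ≤ luc a n :=
  (luc_ge ha k).1.trans (luc_mono ha h)

theorem prod_lb {a h i : ℕ} (ha : 1 ≤ a) (hh : 6 ≤ h) (h1 : 1 ≤ i) (h2 : i ≤ h) :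
    89 ≤ luc a i * luc a (2 * h + 1 - i) := by
  have key : ∀ k l : ℕ, k ≤ i → l ≤ 2 * h + 1 - i → luc 1 k * luc 1 l ≤
      luc a i * luc a (2 * h + 1 - i) := fun k l hk hl =>
    Nat.mul_le_mul (luc_lb ha hk) (luc_lb ha hl)
  rcases Nat.lt_or_ge i 6 with h3 | h3
  · interval_cases i
    · exact le_trans (by decide) (key 1 12 (le_refl _) (by omega))
    · exact le_trans (by decide) (key 2 11 (le_refl _) (by omega))
    · exact le_trans (by decide) (key 3 10 (le_refl _) (by omega))
    · exact le_trans (by decide) (key 4 9 (le_refl _) (by omega))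
    · exact le_trans (by decide) (key 5 8 (le_refl _) (by omega))
  · exact le_trans (by decide) (key 6 7 h3 (by omega))

theorem luc_n {a h : ℕ} (ha : 1 ≤ a) (hh : 6 ≤ h) : 233 ≤ luc a (2 * h + 1) :=
  le_trans (by decide) (luc_lb ha (show 13 ≤ 2 * h + 1 by omega))

theorem luc_np {a h : ℕ} (ha : 1 ≤ a) (hh : 6 ≤ h) : 144 ≤ luc a (2 * h) :=
  le_trans (by decide) (luc_lb ha (show 12 ≤ 2 * h by omega))

/-- check of positive parameters -/
noncomputable def chkP (a h : ℕ) : Bool :=
  force (luc a (2 * h + 1)) (fun U => force (luc a (2 * h)) (fun x =>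
    cj (qW (fun _ => true) (rp a h) 0 U x) (smF U x (rp a h) 80 (Nat.add a U) (Nat.add 1 x))))

/-- check of negative parameters -/
noncomputable def chkN (b h : ℕ) : Bool :=
  force (luc (b + 1) (2 * (h + 1) + 1)) (fun U => force (luc (b + 1) (2 * (h + 1))) (fun x =>
    force (Nat.sub U x) (fun x' =>
    cj (Nat.ble (Nat.add b 3) U) (cj (Nat.ble (Nat.add b 1) x')
    (cj (qW (fun _ => true) (wn b h) 0 U x')
      (smF U x' (wn b h) 80 (Nat.sub U (Nat.add b 3)) (Nat.sub x' (Nat.add b 1))))))))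

/-- check of negative parameters, `a = 1` -/
noncomputable def chkN1 (h : ℕ) : Bool :=
  force (luc 1 (2 * (h + 2) + 1)) (fun U => force (luc 1 (2 * (h + 2))) (fun x =>
    force (Nat.sub U x) (fun x' =>
    cj (Nat.ble 3 U) (cj (Nat.ble 1 x')
    (cj (qW (fun _ => true) (w1 h) 0 U x')
      (smF U x' (w1 h) 80 (Nat.sub U 3) (Nat.sub x' 1)))))))

section cases

variable {D : ℕ} (hsf : Squarefree (D : ℤ)) (hD2 : D % 2 = 1)
    {K : Type*} [Field K] [NumberField K] (hK : Module.finrank ℚ K = 2) {z : K}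
    (hz : z ^ 2 = ((D : ℤ) : K)) (hcl : NumberField.classNumber K = 1)

include hsf hD2 hK hz hcl

theorem sq_case {s : ℕ} (hD : D = s * s + 4)
    (hno : ∀ (g : Fm) (t D' : ℤ), LS 1 0 g t D' → False)
    (hck : smF 1 0 .nil 150 1 1 = true) : D ∈ ListF := by
  have hs : s % 2 = 1 := by
    rcases Nat.mod_two_eq_zero_or_one s with h | h
    · exfalso
      obtain ⟨k, rfl⟩ : ∃ k, s = 2 * k := ⟨s / 2, by omega⟩
      have : D = 2 * (2 * (k * k) + 2) := by rw [hD]; ring
      omega
    · exact h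
  have hD' : D = s * s + 4 * 1 := by omega
  refine coreF (v := .nil) (t := s) (P := 1) trivial rfl hs hD' hsf hK hz hcl ?_ ?_
  · intro G hb
    exact bigF_false (a := 1) (h := 0) (t := s) (P := 1) G hb
      (by rw [hD]; push_cast; ring) rfl (fun N _ p f _ _ h => h)
      (fun g D' S => hno g s D' S)
  · have e := smF_all (v := .nil) rfl hck (s - 1)
    have e1 : 1 + (s - 1) * 1 = s := by omega
    have e2 : 1 + (s - 1) * 0 = 1 := by omega
    rw [e1, e2] at e
    exact e

theorem pos_case {a h j : ℕ} (ha : 1 ≤ a) (hj : 1 ≤ j)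
    (hD : D = (a + j * luc a (2 * h + 1)) * (a + j * luc a (2 * h + 1)) +
      4 * (1 + j * luc a (2 * h)))
    (hno : ∀ (g : Fm) (t D' : ℤ), LS a h g t D' → False)
    (hck : h ≤ 5 → chkP a h = true) : D ∈ ListF := by
  have hs : (a + j * luc a (2 * h + 1)) % 2 = 1 := by
    rcases Nat.mod_two_eq_zero_or_one (a + j * luc a (2 * h + 1)) with h1 | h1
    · exfalso
      obtain ⟨k, hk⟩ : ∃ k, a + j * luc a (2 * h + 1) = 2 * k :=
        ⟨(a + j * luc a (2 * h + 1)) / 2, by omega⟩
      rw [hk] at hD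
      have : D = 2 * (2 * (k * k) + 2 * (1 + j * luc a (2 * h))) := by rw [hD]; ring
      omega
    · exact h1
  have ct : ((a + j * luc a (2 * h + 1) : ℕ) : ℤ) = a + (j : ℤ) * luc a (2 * h + 1) := by
    push_cast; ring
  have cP : ((1 + j * luc a (2 * h) : ℕ) : ℤ) = 1 + (j : ℤ) * luc a (2 * h) := by
    push_cast; ring
  refine coreF (v := rp a h) (rp_pos (by omega) h) (t := a + j * luc a (2 * h + 1))
    (P := 1 + j * luc a (2 * h)) ?_ hs hD hsf hK hz hcl ?_ ?_
  · rw [rp_len, ct, cP]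
    exact pos_C j
  · intro G hb
    refine bigF_false (a := a) (h := h) (t := a + (j : ℤ) * luc a (2 * h + 1))
      (P := 1 + (j : ℤ) * luc a (2 * h)) G hb ?_ ?_ ?_ ?_
    · rw [hD]; push_cast; ring
    · exact fam_sym a h j
    · intro N _ p f _ _ h
      rw [ct, cP] at h
      exact h
    · intro g D' S
      exact hno g _ D' S
  · rcases Nat.lt_or_ge h 6 with h6 | h6
    · have hc := hck (by omega)
      unfold chkP at hc
      rw [force_eq, force_eq, cj_true] at hc
      obtain ⟨c1, c2⟩ := hc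
      have e := smF_all c1 c2 (j - 1)
      have e1 : Nat.add a (luc a (2 * h + 1)) + (j - 1) * luc a (2 * h + 1) =
          a + j * luc a (2 * h + 1) := by
        change a + luc a (2 * h + 1) + (j - 1) * luc a (2 * h + 1) = _
        obtain ⟨k, rfl⟩ : ∃ k, j = k + 1 := ⟨j - 1, by omega⟩
        rw [Nat.add_sub_cancel]
        ring
      have e2 : Nat.add 1 (luc a (2 * h)) + (j - 1) * luc a (2 * h) =
          1 + j * luc a (2 * h) := by
        change 1 + luc a (2 * h) + (j - 1) * luc a (2 * h) = _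
        obtain ⟨k, rfl⟩ : ∃ k, j = k + 1 := ⟨j - 1, by omega⟩
        rw [Nat.add_sub_cancel]
        ring
      rw [e1, e2] at e
      exact e
    · right
      refine ⟨?_, ?_⟩
      · have h7 := luc_n ha h6
        have h8 : 146 ≤ a + j * luc a (2 * h + 1) := by nlinarith
        nlinarith
      · intro n hn1 hn2
        rw [rp_len] at hn2
        rw [ct, cP, fs_pos hn2]
        have h7 := prod_lb ha h6 hn1 hn2
        have h8 : 1 * 89 ≤ j * (luc a n * luc a (2 * h + 1 - n)) := Nat.mul_le_mul hj h7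
        have h9 : ((1 * 89 : ℕ) : ℤ) ≤ ((j * (luc a n * luc a (2 * h + 1 - n)) : ℕ) : ℤ) := by
          exact_mod_cast h8
        push_cast at h9
        linarith

theorem neg_case {b h m : ℕ} (hb : 1 ≤ b) (hm : 1 ≤ m) {t' P' : ℕ}
    (ht' : (t' : ℤ) = -((b + 1 : ℕ) + (-(m : ℤ)) * luc (b + 1) (2 * (h + 1) + 1)) - 2)
    (hP' : (P' : ℤ) = (1 + (-(m : ℤ)) * luc (b + 1) (2 * (h + 1))) -
      ((b + 1 : ℕ) + (-(m : ℤ)) * luc (b + 1) (2 * (h + 1) + 1)) - 1)
    (hD : D = t' * t' + 4 * P')
    (hno : ∀ (g : Fm) (t D' : ℤ), LS (b + 1) (h + 1) g t D' → False)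
    (hck : h + 1 ≤ 5 → chkN b h = true) : D ∈ ListF := by
  have ha : 1 ≤ b + 1 := by omega
  have hs : t' % 2 = 1 := by
    rcases Nat.mod_two_eq_zero_or_one t' with h1 | h1
    · exfalso
      obtain ⟨k, hk⟩ : ∃ k, t' = 2 * k := ⟨t' / 2, by omega⟩
      rw [hk] at hD
      have : D = 2 * (2 * (k * k) + 2 * P') := by rw [hD]; ring
      omega
    · exact h1
  set t : ℤ := (b + 1 : ℕ) + (-(m : ℤ)) * luc (b + 1) (2 * (h + 1) + 1) with htd
  set P : ℤ := 1 + (-(m : ℤ)) * luc (b + 1) (2 * (h + 1)) with hPd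
  have hlen : (wn b h).len = h + 2 := by
    change (rp (b + 1) h).len + 1 + 1 = h + 2
    rw [rp_len]
  have hsym0 := fam_sym (b + 1) (h + 1) (-(m : ℤ))
  rw [← htd, ← hPd] at hsym0
  refine coreF (v := wn b h) ⟨Nat.one_pos, hb, rp_pos (by omega) h⟩ (t := t') (P := P') ?_ hs hD
    hsf hK hz hcl ?_ ?_
  · rw [hlen, ht', hP', fs_wn (le_refl h)]
    unfold ng
    change -(it (b + 1) (f0 t P) (h + 1)).C = -(it (b + 1) (f0 t P) (h + 1)).A
    rw [hsym0]
  · intro G hbg
    refine bigF_false (a := b + 1) (h := h + 1) (t := t) (P := P) G hbg ?_ hsym0 ?_ ?_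
    · rw [hD]
      push_cast
      rw [ht', hP']
      ring
    · intro N _ p f hodd hf0 hr
      rw [ht', hP'] at hr
      have e := RelW_neg hodd hf0 b h t P
      have e2 : RelW f (wn b h) (-t - 2) (P - t - 1) = 0 := hr
      unfold wn at e2
      rw [e2] at e
      exact neg_eq_zero.mp e.symm
    · intro g D' S
      exact hno g _ D' S
  · rcases Nat.lt_or_ge (h + 1) 6 with h6 | h6
    · have hc := hck (by omega)
      unfold chkN at hc
      rw [force_eq, force_eq, force_eq, cj_true, cj_true, cj_true] at hc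
      obtain ⟨c1, c2, c3, c4⟩ := hc
      have c1' : b + 3 ≤ luc (b + 1) (2 * (h + 1) + 1) := Nat.le_of_ble_eq_true c1
      have c2' : b + 1 ≤ luc (b + 1) (2 * (h + 1) + 1) - luc (b + 1) (2 * (h + 1)) :=
        Nat.le_of_ble_eq_true c2
      have e := smF_all c3 c4 (m - 1)
      obtain ⟨k, rfl⟩ : ∃ k, m = k + 1 := ⟨m - 1, by omega⟩
      rw [Nat.add_sub_cancel] at e
      have hux : luc (b + 1) (2 * (h + 1)) ≤ luc (b + 1) (2 * (h + 1) + 1) :=
        luc_mono ha (Nat.le_succ _)
      generalize luc (b + 1) (2 * (h + 1) + 1) = U at *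
      generalize luc (b + 1) (2 * (h + 1)) = x at *
      have e1 : Nat.sub U (Nat.add b 3) + k * U = t' := by
        change U - (b + 3) + k * U = t'
        have : ((U - (b + 3) + k * U : ℕ) : ℤ) = t' := by
          rw [ht', htd]
          push_cast [Nat.cast_sub c1']
          ring
        exact_mod_cast this
      have e2 : Nat.sub (Nat.sub U x) (Nat.add b 1) + k * (Nat.sub U x) = P' := by
        change U - x - (b + 1) + k * (U - x) = P'
        have : ((U - x - (b + 1) + k * (U - x) : ℕ) : ℤ) = P' := by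
          rw [hP', htd, hPd]
          rw [Nat.cast_add, Nat.cast_sub c2', Nat.cast_mul, Nat.cast_sub hux]
          push_cast
          ring
        exact_mod_cast this
      rw [e1, e2] at e
      exact e
    · right
      have h7 := luc_n ha h6
      have h8 := luc_np ha h6
      have h9 : luc (b + 1) (2 * (h + 1) + 1) = (b + 1) * luc (b + 1) (2 * (h + 1)) +
          luc (b + 1) (2 * h + 1) := luc_rec (b + 1) (2 * h + 1)
      have h10 : 89 ≤ luc (b + 1) (2 * h + 1) :=
        le_trans (by decide) (luc_lb ha (show 11 ≤ 2 * h + 1 by omega))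
      have h9z : (luc (b + 1) (2 * (h + 1) + 1) : ℤ) = (b + 1) * luc (b + 1) (2 * (h + 1)) +
          luc (b + 1) (2 * h + 1) := by exact_mod_cast h9
      have h8z : (144 : ℤ) ≤ luc (b + 1) (2 * (h + 1)) := by exact_mod_cast h8
      have h10z : (89 : ℤ) ≤ luc (b + 1) (2 * h + 1) := by exact_mod_cast h10
      have hmz : (1 : ℤ) ≤ m := by exact_mod_cast hm
      have hbz : (1 : ℤ) ≤ b := by exact_mod_cast hb
      generalize hX : (luc (b + 1) (2 * (h + 1)) : ℤ) = X at *
      generalize hY : (luc (b + 1) (2 * h + 1) : ℤ) = Y at *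
      have hXm : X ≤ m * X := by nlinarith
      have hbX : (b : ℤ) * 144 ≤ b * X := by nlinarith
      have hU : (b : ℤ) * 144 + 144 + 89 ≤ m * ((b + 1) * X + Y) := by nlinarith
      have hP2 : (b : ℤ) * 144 + 89 ≤ m * (b * X + Y) := by nlinarith
      refine ⟨?_, ?_⟩
      · have h11 : (146 : ℤ) ≤ t' := by
          rw [ht', htd, h9z]
          push_cast
          linarith
        have h12 : 146 ≤ t' := by exact_mod_cast h11
        nlinarith
      · intro n hn1 hn2
        rw [hlen] at hn2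
        rw [ht', hP']
        rcases Nat.lt_or_ge n 2 with h13 | h13
        · have hn : n = 1 := by omega
          subst hn
          change (74 : ℤ) ≤ P - t - 1
          rw [hPd, htd, h9z]
          push_cast
          have : (P' : ℤ) = m * (b * X + Y) - (b + 1) := by
            rw [hP', hPd, htd, h9z]
            push_cast
            ring
          linarith
        · obtain ⟨i, rfl⟩ : ∃ i, n = i + 2 := ⟨n - 2, by omega⟩
          rw [fs_wn (by omega)]
          unfold ng
          change (74 : ℤ) ≤ -(it (b + 1) (f0 t P) (i + 1)).A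
          have e := fs_pos (a := b + 1) (h := h + 1) (i := i + 1) (by omega) (-(m : ℤ))
          rw [fs_rp _ (by omega), hX, ← htd, ← hPd] at e
          rw [e]
          have h14 := prod_lb ha h6 (show 1 ≤ i + 1 by omega) (show i + 1 ≤ h + 1 by omega)
          have h15 : 1 * 89 ≤ m * (luc (b + 1) (i + 1) *
            luc (b + 1) (2 * (h + 1) + 1 - (i + 1))) := Nat.mul_le_mul hm h14
          have h16 : ((1 * 89 : ℕ) : ℤ) ≤ ((m * (luc (b + 1) (i + 1) *
            luc (b + 1) (2 * (h + 1) + 1 - (i + 1))) : ℕ) : ℤ) := by exact_mod_cast h15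
          push_cast at h16
          linarith

theorem neg1_case {h m : ℕ} (hm : 1 ≤ m) {t' P' : ℕ}
    (ht' : (t' : ℤ) = -((1 : ℕ) + (-(m : ℤ)) * luc 1 (2 * (h + 2) + 1)) - 2)
    (hP' : (P' : ℤ) = (1 + (-(m : ℤ)) * luc 1 (2 * (h + 2))) -
      ((1 : ℕ) + (-(m : ℤ)) * luc 1 (2 * (h + 2) + 1)) - 1)
    (hD : D = t' * t' + 4 * P')
    (hno : ∀ (g : Fm) (t D' : ℤ), LS 1 (h + 2) g t D' → False)
    (hck : h + 2 ≤ 5 → chkN1 h = true) : D ∈ ListF := by
  have hs : t' % 2 = 1 := by
    rcases Nat.mod_two_eq_zero_or_one t' with h1 | h1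
    · exfalso
      obtain ⟨k, hk⟩ : ∃ k, t' = 2 * k := ⟨t' / 2, by omega⟩
      rw [hk] at hD
      have : D = 2 * (2 * (k * k) + 2 * P') := by rw [hD]; ring
      omega
    · exact h1
  set t : ℤ := (1 : ℕ) + (-(m : ℤ)) * luc 1 (2 * (h + 2) + 1) with htd
  set P : ℤ := 1 + (-(m : ℤ)) * luc 1 (2 * (h + 2)) with hPd
  have hlen : (w1 h).len = h + 1 := by
    change (rp 1 h).len + 1 = h + 1
    rw [rp_len]
  have hsym0 := fam_sym 1 (h + 2) (-(m : ℤ))
  rw [← htd, ← hPd] at hsym0
  refine coreF (v := w1 h) ⟨by norm_num, rp_pos (by omega) h⟩ (t := t') (P := P') ?_ hs hD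
    hsf hK hz hcl ?_ ?_
  · rw [hlen, ht', hP', fs_w1 (le_refl h)]
    unfold ng
    change -(it 1 (f0 t P) (h + 2)).C = -(it 1 (f0 t P) (h + 2)).A
    rw [hsym0]
  · intro G hbg
    refine bigF_false (a := 1) (h := h + 2) (t := t) (P := P) G hbg ?_ hsym0 ?_ ?_
    · rw [hD]
      push_cast
      rw [ht', hP']
      ring
    · intro N _ p f hodd hf0 hr
      rw [ht', hP'] at hr
      have e := RelW_neg1 hodd hf0 h t P
      have e2 : RelW f (w1 h) (-t - 2) (P - t - 1) = 0 := hr
      unfold w1 at e2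
      rw [e2] at e
      exact neg_eq_zero.mp e.symm
    · intro g D' S
      exact hno g _ D' S
  · rcases Nat.lt_or_ge (h + 2) 6 with h6 | h6
    · have hc := hck (by omega)
      unfold chkN1 at hc
      rw [force_eq, force_eq, force_eq, cj_true, cj_true, cj_true] at hc
      obtain ⟨c1, c2, c3, c4⟩ := hc
      have c1' : 3 ≤ luc 1 (2 * (h + 2) + 1) := Nat.le_of_ble_eq_true c1
      have c2' : 1 ≤ luc 1 (2 * (h + 2) + 1) - luc 1 (2 * (h + 2)) :=
        Nat.le_of_ble_eq_true c2
      have e := smF_all c3 c4 (m - 1)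
      obtain ⟨k, rfl⟩ : ∃ k, m = k + 1 := ⟨m - 1, by omega⟩
      rw [Nat.add_sub_cancel] at e
      have hux : luc 1 (2 * (h + 2)) ≤ luc 1 (2 * (h + 2) + 1) :=
        luc_mono (le_refl 1) (Nat.le_succ _)
      generalize luc 1 (2 * (h + 2) + 1) = U at *
      generalize luc 1 (2 * (h + 2)) = x at *
      have e1 : Nat.sub U 3 + k * U = t' := by
        change U - 3 + k * U = t'
        have : ((U - 3 + k * U : ℕ) : ℤ) = t' := by
          rw [ht', htd]
          push_cast [Nat.cast_sub c1']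
          ring
        exact_mod_cast this
      have e2 : Nat.sub (Nat.sub U x) 1 + k * (Nat.sub U x) = P' := by
        change U - x - 1 + k * (U - x) = P'
        have : ((U - x - 1 + k * (U - x) : ℕ) : ℤ) = P' := by
          rw [hP', htd, hPd]
          rw [Nat.cast_add, Nat.cast_sub c2', Nat.cast_mul, Nat.cast_sub hux]
          push_cast
          ring
        exact_mod_cast this
      rw [e1, e2] at e
      exact e
    · right
      have h7 := luc_n (le_refl 1) h6
      have h7z : (233 : ℤ) ≤ luc 1 (2 * (h + 2) + 1) := by exact_mod_cast h7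
      have hmz : (1 : ℤ) ≤ m := by exact_mod_cast hm
      refine ⟨?_, ?_⟩
      · have h11 : (146 : ℤ) ≤ t' := by
          rw [ht', htd]
          push_cast
          nlinarith
        have h12 : 146 ≤ t' := by exact_mod_cast h11
        nlinarith
      · intro n hn1 hn2
        rw [hlen] at hn2
        rw [ht', hP']
        obtain ⟨i, rfl⟩ : ∃ i, n = i + 1 := ⟨n - 1, by omega⟩
        rw [fs_w1 (by omega)]
        unfold ng
        change (74 : ℤ) ≤ -(it 1 (f0 t P) (i + 2)).A
        have e := fs_pos (a := 1) (h := h + 2) (i := i + 2) (by omega) (-(m : ℤ))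
        rw [fs_rp _ (by omega), ← htd, ← hPd] at e
        rw [e]
        have h14 := prod_lb (le_refl 1) h6 (show 1 ≤ i + 2 by omega) (show i + 2 ≤ h + 2 by omega)
        have h15 : 1 * 89 ≤ m * (luc 1 (i + 2) *
          luc 1 (2 * (h + 2) + 1 - (i + 2))) := Nat.mul_le_mul hm h14
        have h16 : ((1 * 89 : ℕ) : ℤ) ≤ ((m * (luc 1 (i + 2) *
          luc 1 (2 * (h + 2) + 1 - (i + 2))) : ℕ) : ℤ) := by exact_mod_cast h15
        push_cast at h16
        linarith

end cases

end Pool.Agent.L0h49.F
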