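import Pool.Agent.L0h49.F.N1
import Pool.Agent.N911.U11

/-! The final classification. -/

set_option maxRecDepth 100000

namespace Pool.Agent.L0h49.F

open H419R2 Finset
open Pool.Agent.N911 Pool.Agent.L0h49.E

/-- the discriminant of the family with parameters `a`, `n = 2 h + 1`, `j` -/
def famD (a h : ℕ) (j : ℤ) : ℤ :=
  (a + j * luc a (2 * h + 1)) ^ 2 + 4 * (1 + j * luc a (2 * h))

theorem famD_sq (a : ℕ) (j : ℤ) : famD a 0 j = (a + j) ^ 2 + 4 := by
  unfold famD
  simp [luc]

theorem famD_zero (a h : ℕ) : famD a h 0 = (a : ℤ) ^ 2 + 4 := by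
  unfold famD
  ring

section

variable {D : ℕ} (hsf : Squarefree (D : ℤ)) (hD2 : D % 2 = 1)
    {K : Type*} [Field K] [NumberField K] (hK : Module.finrank ℚ K = 2) {z : K}
    (hz : z ^ 2 = ((D : ℤ) : K)) (hcl : NumberField.classNumber K = 1)

include hsf hD2 hK hz hcl

theorem sq_all {s : ℤ} (hD : (D : ℤ) = s ^ 2 + 4) : D ∈ ListF := by
  have h : (D : ℤ) = ((s.natAbs * s.natAbs + 4 : ℕ) : ℤ) := by
    rw [hD]
    push_cast
    rw [abs_mul_abs_self]
    ring
  have h' : D = s.natAbs * s.natAbs + 4 := by exact_mod_cast h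
  exact sq_case hsf hD2 hK hz hcl h' (fun g t D' S => no_1 S) k_sq

theorem pos_all {a h j : ℕ} (h1 : 1 ≤ a) (h2 : a ≤ 30) (h3 : 1 ≤ h) (hj : 1 ≤ j)
    (hD : (D : ℤ) = famD a h j) : D ∈ ListF := by
  have hD' : D = (a + j * luc a (2 * h + 1)) * (a + j * luc a (2 * h + 1)) +
      4 * (1 + j * luc a (2 * h)) := by
    have : (D : ℤ) = (((a + j * luc a (2 * h + 1)) * (a + j * luc a (2 * h + 1)) +
      4 * (1 + j * luc a (2 * h)) : ℕ) : ℤ) := by
      rw [hD]
      unfold famD
      push_cast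
      ring
    exact_mod_cast this
  exact pos_case hsf hD2 hK hz hcl h1 hj hD' (fun g t D' S => noLS h1 h2 S)
    (fun h5 => kP h1 h2 h3 h5)

theorem fam_all {a h : ℕ} {j : ℤ} (h1 : 1 ≤ a) (h2 : a ≤ 30) (hD1 : 1 < D)
    (hD : (D : ℤ) = famD a h j) : D ∈ ListF := by
  rcases Nat.eq_zero_or_pos h with h0 | h0
  · subst h0
    rw [famD_sq] at hD
    exact sq_all hsf hD2 hK hz hcl hD
  rcases lt_trichotomy j 0 with hj | hj | hj
  · -- negative
    obtain ⟨m, hm⟩ : ∃ m : ℕ, j = -(m : ℤ) := ⟨j.natAbs, by omega⟩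
    have hm1 : 1 ≤ m := by omega
    rcases Nat.lt_or_ge 1 a with ha | ha
    · obtain ⟨b, rfl⟩ : ∃ b, a = b + 1 := ⟨a - 1, by omega⟩
      obtain ⟨k, rfl⟩ : ∃ k, h = k + 1 := ⟨h - 1, by omega⟩
      have e1 : luc (b + 1) (2 * (k + 1) + 1) = (b + 1) * luc (b + 1) (2 * (k + 1)) +
          luc (b + 1) (2 * k + 1) := luc_rec (b + 1) (2 * k + 1)
      have e2 : luc (b + 1) (2 * (k + 1)) = (b + 1) * luc (b + 1) (2 * k + 1) +
          luc (b + 1) (2 * k) := luc_rec (b + 1) (2 * k)
      have e3 : 1 ≤ luc (b + 1) (2 * k + 1) := by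
        have := luc_mono (a := b + 1) h1 (show 1 ≤ 2 * k + 1 by omega)
        exact this
      have g1 : (b : ℤ) + 3 ≤ luc (b + 1) (2 * (k + 1) + 1) := by
        have : b + 3 ≤ luc (b + 1) (2 * (k + 1) + 1) := by
          rw [e1, e2]
          have q1 : (b + 1) * 1 ≤ (b + 1) * luc (b + 1) (2 * k + 1) := Nat.mul_le_mul_left _ e3
          have q2 : (b + 1) * ((b + 1) * 1) ≤ (b + 1) * ((b + 1) * luc (b + 1) (2 * k + 1) +
            luc (b + 1) (2 * k)) := Nat.mul_le_mul_left _ (by omega)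
          have q3 : 2 * (b + 1) ≤ (b + 1) * ((b + 1) * 1) := by
            rw [mul_one]
            exact Nat.mul_le_mul_right _ (by omega)
          omega
        exact_mod_cast this
      have g2 : (b : ℤ) + 1 ≤ luc (b + 1) (2 * (k + 1) + 1) - luc (b + 1) (2 * (k + 1)) := by
        have : b + 1 + luc (b + 1) (2 * (k + 1)) ≤ luc (b + 1) (2 * (k + 1) + 1) := by
          rw [e1, e2]
          have q1 : (b + 1) * 1 ≤ (b + 1) * luc (b + 1) (2 * k + 1) := Nat.mul_le_mul_left _ e3
          have q2 : b * ((b + 1) * 1) ≤ b * ((b + 1) * luc (b + 1) (2 * k + 1) +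
            luc (b + 1) (2 * k)) := Nat.mul_le_mul_left _ (by omega)
          have q3 : 1 * (b + 1) ≤ b * ((b + 1) * 1) := by
            rw [mul_one]
            exact Nat.mul_le_mul_right _ (by omega)
          have q4 : (b + 1) * ((b + 1) * luc (b + 1) (2 * k + 1) + luc (b + 1) (2 * k)) =
            b * ((b + 1) * luc (b + 1) (2 * k + 1) + luc (b + 1) (2 * k)) +
            ((b + 1) * luc (b + 1) (2 * k + 1) + luc (b + 1) (2 * k)) := by ring
          omega
        have h := this
        have : ((b + 1 + luc (b + 1) (2 * (k + 1)) : ℕ) : ℤ) ≤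
          (luc (b + 1) (2 * (k + 1) + 1) : ℤ) := by exact_mod_cast h
        push_cast at this
        linarith
      have hmz : (1 : ℤ) ≤ m := by exact_mod_cast hm1
      obtain ⟨t', ht'⟩ : ∃ t' : ℕ, (t' : ℤ) = -((b + 1 : ℕ) +
          (-(m : ℤ)) * luc (b + 1) (2 * (k + 1) + 1)) - 2 := by
        refine ⟨(-((b + 1 : ℕ) + (-(m : ℤ)) * luc (b + 1) (2 * (k + 1) + 1)) - 2).toNat,
          Int.toNat_of_nonneg ?_⟩
        push_cast
        nlinarith
      obtain ⟨P', hP'⟩ : ∃ P' : ℕ, (P' : ℤ) = (1 + (-(m : ℤ)) * luc (b + 1) (2 * (k + 1))) -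
          ((b + 1 : ℕ) + (-(m : ℤ)) * luc (b + 1) (2 * (k + 1) + 1)) - 1 := by
        refine ⟨((1 + (-(m : ℤ)) * luc (b + 1) (2 * (k + 1))) -
          ((b + 1 : ℕ) + (-(m : ℤ)) * luc (b + 1) (2 * (k + 1) + 1)) - 1).toNat,
          Int.toNat_of_nonneg ?_⟩
        push_cast
        nlinarith
      have hD' : D = t' * t' + 4 * P' := by
        have : (D : ℤ) = ((t' * t' + 4 * P' : ℕ) : ℤ) := by
          rw [hD]
          unfold famD
          push_cast
          rw [ht', hP', hm]
          push_cast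
          ring
        exact_mod_cast this
      exact neg_case hsf hD2 hK hz hcl (by omega) hm1 ht' hP' hD'
        (fun g t D' S => noLS h1 h2 S) (fun h5 => kN (by omega) h2 h5)
    · have ha1 : a = 1 := by omega
      subst ha1
      rcases Nat.lt_or_ge 1 h with hh | hh
      · obtain ⟨k, rfl⟩ : ∃ k, h = k + 2 := ⟨h - 2, by omega⟩
        have e1 : luc 1 (2 * (k + 2) + 1) = 1 * luc 1 (2 * (k + 2)) +
            luc 1 (2 * (k + 1) + 1) := luc_rec 1 (2 * (k + 1) + 1)
        have e3 : 2 ≤ luc 1 (2 * (k + 1) + 1) := by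
          have := luc_mono (a := 1) h1 (show 3 ≤ 2 * (k + 1) + 1 by omega)
          exact this
        have e4 : 3 ≤ luc 1 (2 * (k + 2)) := by
          have := luc_mono (a := 1) h1 (show 4 ≤ 2 * (k + 2) by omega)
          exact this
        have g1 : (3 : ℤ) ≤ luc 1 (2 * (k + 2) + 1) := by
          have : 3 ≤ luc 1 (2 * (k + 2) + 1) := by omega
          exact_mod_cast this
        have g2 : (1 : ℤ) ≤ luc 1 (2 * (k + 2) + 1) - luc 1 (2 * (k + 2)) := by
          have : 1 + luc 1 (2 * (k + 2)) ≤ luc 1 (2 * (k + 2) + 1) := by omega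
          have h : ((1 + luc 1 (2 * (k + 2)) : ℕ) : ℤ) ≤
            (luc 1 (2 * (k + 2) + 1) : ℤ) := by exact_mod_cast this
          push_cast at h
          linarith
        have hmz : (1 : ℤ) ≤ m := by exact_mod_cast hm1
        obtain ⟨t', ht'⟩ : ∃ t' : ℕ, (t' : ℤ) = -((1 : ℕ) +
            (-(m : ℤ)) * luc 1 (2 * (k + 2) + 1)) - 2 := by
          refine ⟨(-((1 : ℕ) + (-(m : ℤ)) * luc 1 (2 * (k + 2) + 1)) - 2).toNat,
            Int.toNat_of_nonneg ?_⟩
          push_cast
          nlinarith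
        obtain ⟨P', hP'⟩ : ∃ P' : ℕ, (P' : ℤ) = (1 + (-(m : ℤ)) * luc 1 (2 * (k + 2))) -
            ((1 : ℕ) + (-(m : ℤ)) * luc 1 (2 * (k + 2) + 1)) - 1 := by
          refine ⟨((1 + (-(m : ℤ)) * luc 1 (2 * (k + 2))) -
            ((1 : ℕ) + (-(m : ℤ)) * luc 1 (2 * (k + 2) + 1)) - 1).toNat,
            Int.toNat_of_nonneg ?_⟩
          push_cast
          nlinarith
        have hD' : D = t' * t' + 4 * P' := by
          have : (D : ℤ) = ((t' * t' + 4 * P' : ℕ) : ℤ) := by
            rw [hD]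
            unfold famD
            push_cast
            rw [ht', hP', hm]
            push_cast
            ring
          exact_mod_cast this
        exact neg1_case hsf hD2 hK hz hcl hm1 ht' hP' hD'
          (fun g t D' S => no_1 S) (fun h5 => kN1 h5)
      · have hh1 : h = 1 := by omega
        subst hh1
        have e1 : luc 1 (2 * 1 + 1) = 2 := rfl
        have e2 : luc 1 (2 * 1) = 1 := rfl
        have hD3 : (D : ℤ) = (2 * j + 2) ^ 2 + 1 := by
          rw [hD]
          unfold famD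
          rw [e1, e2]
          push_cast
          ring
        have hj2 : j ≤ -2 := by
          by_contra hc
          have : j = -1 := by omega
          rw [this] at hD3
          norm_num at hD3
          omega
        rcases eq_or_lt_of_le hj2 with hj3 | hj3
        · rw [hj3] at hD3
          norm_num at hD3
          have : D = 5 := by exact_mod_cast hD3
          subst this
          decide
        · obtain ⟨i, hi⟩ : ∃ i : ℕ, (i : ℤ) = -2 - j := ⟨(-2 - j).toNat, by omega⟩
          refine pos_all hsf hD2 hK hz hcl (a := 1) (h := 1) (j := i) h1 h2 (le_refl 1)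
            (by omega) ?_
          rw [hD3]
          unfold famD
          rw [e1, e2, hi]
          push_cast
          ring
  · rw [hj, famD_zero] at hD
    exact sq_all hsf hD2 hK hz hcl hD
  · obtain ⟨i, hi⟩ : ∃ i : ℕ, (i : ℤ) = j := ⟨j.toNat, by omega⟩
    rw [← hi] at hD
    exact pos_all hsf hD2 hK hz hcl h1 h2 h0 (by omega) hD

end

end Pool.Agent.L0h49.F
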