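import Pool.Agent.L0h49.F.B1

/-! From the Pell equation to the family. -/

set_option maxRecDepth 100000

namespace Pool.Agent.L0h49.F

open H419R2 Finset
open Pool.Agent.N911 Pool.Agent.L0h49.E

theorem luc_pos {a : ℕ} (ha : 1 ≤ a) (h : ℕ) : 0 < luc a (2 * h + 1) := by
  have := luc_mono (a := a) ha (show 1 ≤ 2 * h + 1 by omega)
  exact this

/-- the companion sequence at odd places -/
def lv (a h : ℕ) : ℤ := a * luc a (2 * h + 1) + 2 * luc a (2 * h)

theorem lv_sq (a h : ℕ) : lv a h ^ 2 + 4 = ((a : ℤ) ^ 2 + 4) * (luc a (2 * h + 1) : ℤ) ^ 2 := by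
  unfold lv
  linear_combination -4 * luc_det a h

theorem fam_pell {a h : ℕ} (ha : 1 ≤ a) {T : ℤ} {D : ℕ}
    (hT : T ^ 2 + 4 = D * (luc a (2 * h + 1) : ℤ) ^ 2)
    (hmod : (luc a (2 * h + 1) : ℤ) ^ 2 ∣ T - lv a h) : ∃ j : ℤ, (D : ℤ) = famD a h j := by
  obtain ⟨j, hj⟩ := hmod
  refine ⟨j, ?_⟩
  have hU : (luc a (2 * h + 1) : ℤ) ^ 2 ≠ 0 := by
    have := luc_pos ha h
    positivity
  apply mul_right_cancel₀ hU
  rw [← hT]
  have e : T = lv a h + (luc a (2 * h + 1) : ℤ) ^ 2 * j := by linarith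
  rw [e]
  have s := lv_sq a h
  have v : lv a h = a * luc a (2 * h + 1) + 2 * luc a (2 * h) := rfl
  unfold famD
  linear_combination s + 2 * (luc a (2 * h + 1) : ℤ) ^ 2 * j * v

/-- prime powers and their doubles -/
theorem pp_mod {a h : ℕ} {T : ℤ} {D : ℕ} (hDo : D % 2 = 1)
    (hT : T ^ 2 + 4 = D * (luc a (2 * h + 1) : ℤ) ^ 2) {p k : ℕ} (hp : p.Prime) (hp2 : p ≠ 2)
    (hU : luc a (2 * h + 1) = p ^ k ∨ luc a (2 * h + 1) = 2 * p ^ k) :
    (luc a (2 * h + 1) : ℤ) ^ 2 ∣ T - lv a h ∨ (luc a (2 * h + 1) : ℤ) ^ 2 ∣ T + lv a h := by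
  have hV := lv_sq a h
  set U : ℤ := (luc a (2 * h + 1) : ℤ) with hUd
  set V := lv a h with hVd
  set q : ℤ := (p : ℤ) ^ k with hq
  have hpodd : (p : ℤ) % 2 = 1 := by
    have := hp.eq_two_or_odd
    omega
  have hqodd : Odd q := by
    rw [hq]
    exact Odd.pow (Int.odd_iff.mpr hpodd)
  have hqU : q ∣ U := by
    rcases hU with h1 | h1
    · exact ⟨1, by rw [hUd, h1, hq]; push_cast; ring⟩
    · exact ⟨2, by rw [hUd, h1, hq]; push_cast; ring⟩
  have hprod : q ^ 2 ∣ (T - V) * (T + V) := by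
    have e : (T - V) * (T + V) = U ^ 2 * (D - (a ^ 2 + 4)) := by linear_combination hT - hV
    rw [e]
    exact (pow_dvd_pow_of_dvd hqU 2).mul_right _
  -- one of the factors
  have hq2 : q ^ 2 ∣ T - V ∨ q ^ 2 ∣ T + V := by
    rcases Nat.eq_zero_or_pos k with h0 | h0
    · left
      have : q = 1 := by rw [hq, h0, pow_zero]
      rw [this]
      simp
    have hpp : Prime (p : ℤ) := Nat.prime_iff_prime_int.mp hp
    have hpq : (p : ℤ) ∣ q := by
      rw [hq]
      exact dvd_pow_self _ (by omega)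
    have hnot : ¬ ((p : ℤ) ∣ T - V ∧ (p : ℤ) ∣ T + V) := by
      rintro ⟨h1, h2⟩
      have h3 : (p : ℤ) ∣ 2 * V := by
        have : 2 * V = (T + V) - (T - V) := by ring
        rw [this]
        exact dvd_sub h2 h1
      have h4 : (p : ℤ) ∣ V := by
        rcases hpp.dvd_or_dvd h3 with h5 | h5
        · exfalso
          have h6 : p ∣ 2 := by exact_mod_cast h5
          have h7 := (Nat.prime_dvd_prime_iff_eq hp Nat.prime_two).mp h6
          exact hp2 h7
        · exact h5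
      have h5 : (p : ℤ) ∣ 4 := by
        have e : (4 : ℤ) = (a ^ 2 + 4) * U ^ 2 - V ^ 2 := by linear_combination hV
        rw [e]
        refine dvd_sub ((dvd_pow (hpq.trans hqU) (by norm_num)).mul_left _)
          (dvd_pow h4 (by norm_num))
      have h6 : p ∣ 2 ^ 2 := by exact_mod_cast h5
      have h7 := (Nat.prime_dvd_prime_iff_eq hp Nat.prime_two).mp (hp.dvd_of_dvd_pow h6)
      exact hp2 h7
    by_cases h1 : (p : ℤ) ∣ T - V
    · left
      have h2 : ¬ (p : ℤ) ∣ T + V := fun h => hnot ⟨h1, h⟩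
      have h3 : IsCoprime (q ^ 2) (T + V) := by
        rw [hq, ← pow_mul]
        exact IsCoprime.pow_left ((Prime.coprime_iff_not_dvd hpp).mpr h2)
      exact h3.dvd_of_dvd_mul_right hprod
    · right
      have h3 : IsCoprime (q ^ 2) (T - V) := by
        rw [hq, ← pow_mul]
        exact IsCoprime.pow_left ((Prime.coprime_iff_not_dvd hpp).mpr h1)
      exact h3.dvd_of_dvd_mul_left hprod
  rcases hU with h1 | h1
  · have e : U = q := by rw [hUd, h1, hq]; push_cast; rfl
    rw [e]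
    exact hq2
  · have e : U = 2 * q := by rw [hUd, h1, hq]; push_cast; rfl
    -- both `T` and `V` are divisible by four
    obtain ⟨r, hr⟩ := hqodd
    have hq4 : q ^ 2 = 4 * (r ^ 2 + r) + 1 := by rw [hr]; ring
    have four : ∀ x m : ℤ, x ^ 2 + 4 = m * U ^ 2 → m % 2 = 1 → (4 : ℤ) ∣ x := by
      intro x m hx hm
      rw [e] at hx
      have hx2 : x % 2 = 0 := by
        rcases Int.emod_two_eq_zero_or_one x with h2 | h2
        · exact h2
        · exfalso
          obtain ⟨y, hy⟩ : ∃ y, x = 2 * y + 1 := ⟨x / 2, by omega⟩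
          have : 2 * (2 * y ^ 2 + 2 * y + 2 - 2 * m * q ^ 2) = -1 := by
            rw [hy] at hx
            linear_combination hx
          omega
      obtain ⟨s, hs⟩ : ∃ s, x = 2 * s := ⟨x / 2, by omega⟩
      have hs2 : s ^ 2 + 1 = m * q ^ 2 := by
        rw [hs] at hx
        have : 4 * (s ^ 2 + 1) = 4 * (m * q ^ 2) := by linear_combination hx
        linarith
      have hs0 : s % 2 = 0 := by
        rcases Int.emod_two_eq_zero_or_one s with h2 | h2
        · exact h2
        · exfalso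
          obtain ⟨y, hy⟩ : ∃ y, s = 2 * y + 1 := ⟨s / 2, by omega⟩
          obtain ⟨w, hw⟩ : ∃ w, m = 2 * w + 1 := ⟨m / 2, by omega⟩
          rw [hq4, hw, hy] at hs2
          have : 2 * (2 * y ^ 2 + 2 * y + 1 - w * (4 * (r ^ 2 + r) + 1) - 2 * (r ^ 2 + r)) = 1 := by
            linear_combination hs2
          omega
      obtain ⟨y, hy⟩ : ∃ y, s = 2 * y := ⟨s / 2, by omega⟩
      exact ⟨y, by rw [hs, hy]; ring⟩
    have fT : (4 : ℤ) ∣ T := four T D hT (by exact_mod_cast hDo)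
    have fV : (4 : ℤ) ∣ V := by
      rcases Int.emod_two_eq_zero_or_one ((a : ℤ) ^ 2 + 4) with h2 | h2
      · exfalso
        -- `a` even is impossible
        have ha : (a : ℤ) % 2 = 0 := by
          rcases Int.emod_two_eq_zero_or_one (a : ℤ) with h3 | h3
          · exact h3
          · exfalso
            obtain ⟨y, hy⟩ : ∃ y, (a : ℤ) = 2 * y + 1 := ⟨(a : ℤ) / 2, by omega⟩
            rw [hy] at h2
            have : (2 * y + 1) ^ 2 + 4 = 2 * (2 * y ^ 2 + 2 * y + 2) + 1 := by ring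
            omega
        obtain ⟨b, hb⟩ : ∃ b, (a : ℤ) = 2 * b := ⟨(a : ℤ) / 2, by omega⟩
        rw [e, hb] at hV
        have hv2 : V % 2 = 0 := by
          rcases Int.emod_two_eq_zero_or_one V with h3 | h3
          · exact h3
          · exfalso
            obtain ⟨y, hy⟩ : ∃ y, V = 2 * y + 1 := ⟨V / 2, by omega⟩
            rw [hy] at hV
            have : 2 * (2 * y ^ 2 + 2 * y + 2 - 8 * (b ^ 2 + 1) * q ^ 2) = -1 := by
              linear_combination hV
            omega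
        obtain ⟨s, hs⟩ : ∃ s, V = 2 * s := ⟨V / 2, by omega⟩
        rw [hs] at hV
        have h4 : s ^ 2 + 1 = 4 * ((b ^ 2 + 1) * q ^ 2) := by
          have : 4 * (s ^ 2 + 1) = 4 * (4 * ((b ^ 2 + 1) * q ^ 2)) := by linear_combination hV
          linarith
        rcases Int.emod_two_eq_zero_or_one s with h3 | h3
        · obtain ⟨y, hy⟩ : ∃ y, s = 2 * y := ⟨s / 2, by omega⟩
          rw [hy] at h4
          have : 4 * (y ^ 2 - (b ^ 2 + 1) * q ^ 2) = -1 := by linear_combination h4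
          omega
        · obtain ⟨y, hy⟩ : ∃ y, s = 2 * y + 1 := ⟨s / 2, by omega⟩
          rw [hy] at h4
          have : 4 * (y ^ 2 + y - (b ^ 2 + 1) * q ^ 2) = -2 := by linear_combination h4
          omega
      · exact four V _ hV h2
    have c4 : IsCoprime (4 : ℤ) (q ^ 2) := ⟨-(r ^ 2 + r), 1, by rw [hq4]; ring⟩
    have e2 : U ^ 2 = 4 * q ^ 2 := by rw [e]; ring
    rw [e2]
    rcases hq2 with h2 | h2
    · exact Or.inl (c4.mul_dvd (dvd_sub fT fV) h2)
    · exact Or.inr (c4.mul_dvd (dvd_add fT fV) h2)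

/-- the classification -/
theorem final {d : ℕ} (hsf : Squarefree d) (hd1 : 1 < d)
    {K : Type*} [Field K] [NumberField K] (hK : Module.finrank ℚ K = 2) {z : K}
    (hz : z ^ 2 = (d : K)) (hcl : NumberField.classNumber K = 1)
    {a h : ℕ} (h1 : 1 ≤ a) (h2 : a ≤ 30) {T : ℤ} {D : ℕ}
    (hD : D = if d % 4 = 1 then d else 4 * d)
    (hT : T ^ 2 + 4 = D * (luc a (2 * h + 1) : ℤ) ^ 2)
    (hmod : (luc a (2 * h + 1) : ℤ) ^ 2 ∣ T - lv a h ∨
      ∃ p k : ℕ, p.Prime ∧ p ≠ 2 ∧
        (luc a (2 * h + 1) = p ^ k ∨ luc a (2 * h + 1) = 2 * p ^ k)) :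
    d = 2 ∨ d ∈ ListF := by
  have hU := luc_pos h1 h
  by_cases h4 : d % 4 = 1
  · right
    rw [if_pos h4] at hD
    subst hD
    have hDo : D % 2 = 1 := by omega
    have hz' : z ^ 2 = ((D : ℤ) : K) := by rw [hz]; push_cast; rfl
    have key : ∀ S : ℤ, S ^ 2 + 4 = D * (luc a (2 * h + 1) : ℤ) ^ 2 →
        (luc a (2 * h + 1) : ℤ) ^ 2 ∣ S - lv a h → D ∈ ListF := by
      intro S hS hm
      obtain ⟨j, hj⟩ := fam_pell h1 hS hm
      exact fam_all (Int.squarefree_natCast.mpr hsf) hDo hK hz' hcl h1 h2 hd1 hj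
    rcases hmod with hm | ⟨p, k, hp, hp2, hU2⟩
    · exact key T hT hm
    · rcases pp_mod hDo hT hp hp2 hU2 with hm | hm
      · exact key T hT hm
      · refine key (-T) (by rw [neg_sq]; exact hT) ?_
        have e : -T - lv a h = -(T + lv a h) := by ring
        rw [e]
        exact dvd_neg.mpr hm
  · left
    rw [if_neg h4] at hD
    have hTn : T.natAbs * T.natAbs + 4 = d * ((2 * luc a (2 * h + 1)) * (2 * luc a (2 * h + 1))) := by
      have : ((T.natAbs * T.natAbs + 4 : ℕ) : ℤ) =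
          ((d * ((2 * luc a (2 * h + 1)) * (2 * luc a (2 * h + 1))) : ℕ) : ℤ) := by
        push_cast
        rw [abs_mul_abs_self]
        rw [hD] at hT
        push_cast at hT
        linear_combination hT
      exact_mod_cast this
    rcases Nat.mod_two_eq_zero_or_one d with h0 | h0
    · exact Ev.even_two hsf hd1 h0 hK hz hcl hTn
    · exfalso
      obtain ⟨x, y, t, P, -, -, ht, hdt, -⟩ := exists_par hTn (by omega) hd1 h0
      obtain ⟨s, rfl⟩ : ∃ s, t = 2 * s + 1 := ⟨t / 2, by omega⟩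
      apply h4
      rw [hdt]
      have : (2 * s + 1) * (2 * s + 1) + 4 * P = 4 * (s * s + s + P) + 1 := by ring
      omega

end Pool.Agent.L0h49.F
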