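import Pool.Agent.L0h49.F.S1
import Pool.Agent.N911.D1
import Pool.Agent.N911.D3

/-! Searches. -/

set_option maxRecDepth 1000000

namespace Pool.Agent.L0h49.F

open H419R2
open Pool.Agent.N911 Pool.Agent.L0h49.E

theorem s_1_33 :
    srchE c133_73 c247_73_0 c247_73_1 ⟨4, 5, 8, 7, 18, 19⟩ 1 152 37 33 2 0 152 = true := by
  decide +kernel
theorem s_11_24 :
    srch ⟨4, 5, 8, 7, 18, 19⟩ o0 11 152 24 13 0 152 = true := by
  decide +kernel
theorem s_13_0 :
    srch ⟨4, 3, 8, 2, 4, 18⟩ o0 13 72 0 37 0 72 = true := by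
  decide +kernel
theorem s_30_0 :
    srch ⟨2, 2, 6, 7, 18, 9⟩ o0 30 42 0 37 0 18 = true := by
  decide +kernel

end Pool.Agent.L0h49.F
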