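import Pool.Agent.L0h49.F.S1
import Pool.Agent.N911.D1
import Pool.Agent.N911.D3

/-! Searches. -/

set_option maxRecDepth 1000000

namespace Pool.Agent.L0h49.F

open H419R2
open Pool.Agent.N911 Pool.Agent.L0h49.E

theorem s_2_18 :
    srch ⟨4, 3, 6, 7, 20, 19⟩ o0 2 114 18 19 0 114 = true := by
  decide +kernel
theorem s_3_6 :
    srch ⟨2, 3, 8, 13, 20, 19⟩ o0 3 152 6 14 0 152 = true := by
  decide +kernel
theorem s_6_0 :
    srch ⟨2, 5, 8, 6, 4, 3⟩ o0 6 40 0 37 0 24 = true := by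
  decide +kernel
theorem s_17_24 :
    srch73 c133_73 ⟨4, 3, 8, 7, 20, 9⟩ 17 72 6 24 13 0 72 = true := by
  decide +kernel
theorem s_23_18 :
    srch ⟨4, 3, 6, 13, 6, 19⟩ o0 23 114 18 19 0 114 = true := by
  decide +kernel
theorem s_24_0 :
    srch ⟨2, 5, 8, 7, 20, 18⟩ o0 24 90 0 18 0 72 = true := by
  decide +kernel

end Pool.Agent.L0h49.F
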