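import Pool.Agent.L0h49.F.S1
import Pool.Agent.N911.D1
import Pool.Agent.N911.D3

/-! Searches. -/

set_option maxRecDepth 1000000

namespace Pool.Agent.L0h49.F

open H419R2
open Pool.Agent.N911 Pool.Agent.L0h49.E

theorem s_8_6 :
    srch ⟨4, 3, 8, 3, 18, 19⟩ o0 8 152 6 3 0 152 = true := by
  decide +kernel
theorem s_8_9 :
    srch ⟨4, 3, 8, 3, 18, 19⟩ o0 8 152 9 13 0 152 = true := by
  decide +kernel
theorem s_8_22 :
    srch ⟨4, 3, 8, 3, 18, 19⟩ o0 8 152 22 15 0 152 = true := by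
  decide +kernel
theorem s_12_0 :
    srch ⟨2, 3, 6, 7, 20, 37⟩ o0 12 222 0 12 0 222 = true := by
  decide +kernel
theorem s_19_0 :
    srch ⟨4, 5, 6, 6, 2, 19⟩ o0 19 114 0 18 0 114 = true := by
  decide +kernel
theorem s_27_0 :
    srch ⟨2, 3, 8, 7, 18, 9⟩ o0 27 72 0 37 0 72 = true := by
  decide +kernel

end Pool.Agent.L0h49.F
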