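import Pool.Agent.L0h49.F.S1
import Pool.Agent.N911.D1
import Pool.Agent.N911.D3

/-! Searches. -/

set_option maxRecDepth 1000000

namespace Pool.Agent.L0h49.F

open H419R2
open Pool.Agent.N911 Pool.Agent.L0h49.E

theorem s_1_35 :
    srchE c133_73 c247_73_0 c247_73_1 ⟨4, 5, 8, 7, 18, 19⟩ 1 152 37 35 1 0 152 = true := by
  decide +kernel
theorem s_11_0 :
    srch ⟨4, 5, 8, 7, 18, 19⟩ o0 11 152 0 9 0 152 = true := by
  decide +kernel
theorem s_14_0 :
    srch ⟨4, 5, 2, 7, 20, 19⟩ o0 14 95 0 37 0 38 = true := by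
  decide +kernel
theorem s_16_0 :
    srch ⟨4, 5, 6, 13, 20, 6⟩ o0 16 78 0 37 0 6 = true := by
  decide +kernel
theorem s_23_0 :
    srch ⟨4, 3, 6, 13, 6, 19⟩ o0 23 114 0 18 0 114 = true := by
  decide +kernel

end Pool.Agent.L0h49.F
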