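import Pool.Agent.L0h49.F.S1
import Pool.Agent.N911.D1
import Pool.Agent.N911.D3

/-! Searches. -/

set_option maxRecDepth 1000000

namespace Pool.Agent.L0h49.F

open H419R2
open Pool.Agent.N911 Pool.Agent.L0h49.E

theorem s_1_0 :
    srchE c133_73 c247_73_0 c247_73_1 ⟨4, 5, 8, 7, 18, 19⟩ 1 152 37 0 3 0 152 = true := by
  decide +kernel
theorem s_17_0 :
    srch73 c133_73 ⟨4, 3, 8, 7, 20, 9⟩ 17 72 6 0 12 0 72 = true := by
  decide +kernel
theorem s_19_18 :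
    srch ⟨4, 5, 6, 6, 2, 19⟩ o0 19 114 18 19 0 114 = true := by
  decide +kernel
theorem s_22_0 :
    srch ⟨4, 3, 8, 7, 20, 18⟩ o0 22 72 0 18 0 72 = true := by
  decide +kernel
theorem s_24_18 :
    srch ⟨2, 5, 8, 7, 20, 18⟩ o0 24 90 18 19 0 72 = true := by
  decide +kernel

end Pool.Agent.L0h49.F
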