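import Pool.Agent.L0h49.F.S1
import Pool.Agent.N911.D1
import Pool.Agent.N911.D3

/-! Searches. -/

set_option maxRecDepth 1000000

namespace Pool.Agent.L0h49.F

open H419R2
open Pool.Agent.N911 Pool.Agent.L0h49.E

theorem s_5_18 :
    srch ⟨4, 2, 6, 3, 20, 19⟩ o0 5 114 18 19 0 114 = true := by
  decide +kernel
theorem s_9_0 :
    srch ⟨2, 5, 6, 7, 18, 18⟩ o0 9 90 0 37 0 18 = true := by
  decide +kernel
theorem s_11_12 :
    srch ⟨4, 5, 8, 7, 18, 19⟩ o0 11 152 12 12 0 152 = true := by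
  decide +kernel
theorem s_18_12 :
    srch ⟨2, 3, 8, 3, 18, 19⟩ o0 18 152 12 12 0 152 = true := by
  decide +kernel
theorem s_20_0 :
    srch ⟨4, 2, 8, 6, 18, 9⟩ o0 20 72 0 37 0 72 = true := by
  decide +kernel
theorem s_25_12 :
    srch ⟨4, 2, 8, 7, 4, 37⟩ o0 25 296 12 12 0 296 = true := by
  decide +kernel

end Pool.Agent.L0h49.F
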