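import Pool.Agent.L0h49.F.S1
import Pool.Agent.N911.D1
import Pool.Agent.N911.D3

/-! Searches. -/

set_option maxRecDepth 1000000

namespace Pool.Agent.L0h49.F

open H419R2
open Pool.Agent.N911 Pool.Agent.L0h49.E

theorem s_4_0 :
    srch ⟨4, 5, 8, 7, 6, 19⟩ o0 4 152 0 6 0 152 = true := by
  decide +kernel
theorem s_4_6 :
    srch ⟨4, 5, 8, 7, 6, 19⟩ o0 4 152 6 12 0 152 = true := by
  decide +kernel
theorem s_5_0 :
    srch ⟨4, 2, 6, 3, 20, 19⟩ o0 5 114 0 18 0 114 = true := by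
  decide +kernel
theorem s_18_24 :
    srch ⟨2, 3, 8, 3, 18, 19⟩ o0 18 152 24 13 0 152 = true := by
  decide +kernel
theorem s_25_24 :
    srch ⟨4, 2, 8, 7, 4, 37⟩ o0 25 296 24 13 0 296 = true := by
  decide +kernel
theorem s_29_24 :
    srch ⟨4, 5, 8, 13, 18, 19⟩ o0 29 152 24 4 0 152 = true := by
  decide +kernel

end Pool.Agent.L0h49.F
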