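import Pool.Agent.L0h49.F.A9

/-! Small parameters. -/

set_option maxRecDepth 1000000

namespace Pool.Agent.L0h49.F

open H419R2 Finset
open Pool.Agent.N911 Pool.Agent.L0h49.E

theorem k_sq : smF 1 0 .nil 150 1 1 = true := by decide +kernel
theorem k_N1 : allN 4 (fun h => chkN1 h) = true := by decide +kernel
theorem k_P1 : allN 15 (fun a => allN 5 (fun h => chkP (a + 1) (h + 1))) = true := by
  decide +kernel
theorem k_P2 : allN 15 (fun a => allN 5 (fun h => chkP (a + 16) (h + 1))) = true := by
  decide +kernel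
theorem k_Na : allN 15 (fun b => allN 5 (fun h => chkN (b + 1) h)) = true := by decide +kernel
theorem k_Nb : allN 14 (fun b => allN 5 (fun h => chkN (b + 16) h)) = true := by decide +kernel

theorem kP {a h : ℕ} (h1 : 1 ≤ a) (h2 : a ≤ 30) (h3 : 1 ≤ h) (h4 : h ≤ 5) : chkP a h = true := by
  rcases Nat.lt_or_ge a 16 with h5 | h5
  · have e := k_P1
    rw [allN_iff] at e
    have e1 := e (a - 1) (by omega)
    rw [allN_iff] at e1
    have e2 := e1 (h - 1) (by omega)
    rw [Nat.sub_add_cancel h1, Nat.sub_add_cancel h3] at e2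
    exact e2
  · have e := k_P2
    rw [allN_iff] at e
    have e1 := e (a - 16) (by omega)
    rw [allN_iff] at e1
    have e2 := e1 (h - 1) (by omega)
    rw [Nat.sub_add_cancel h5, Nat.sub_add_cancel h3] at e2
    exact e2

theorem kN {b h : ℕ} (h1 : 1 ≤ b) (h2 : b + 1 ≤ 30) (h4 : h + 1 ≤ 5) : chkN b h = true := by
  rcases Nat.lt_or_ge b 16 with h5 | h5
  · have e := k_Na
    rw [allN_iff] at e
    have e1 := e (b - 1) (by omega)
    rw [allN_iff] at e1
    have e2 := e1 h (by omega)
    rw [Nat.sub_add_cancel h1] at e2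
    exact e2
  · have e := k_Nb
    rw [allN_iff] at e
    have e1 := e (b - 16) (by omega)
    rw [allN_iff] at e1
    have e2 := e1 h (by omega)
    rw [Nat.sub_add_cancel h5] at e2
    exact e2

theorem kN1 {h : ℕ} (h4 : h + 2 ≤ 5) : chkN1 h = true := by
  have e := k_N1
  rw [allN_iff] at e
  exact e h (by omega)

end Pool.Agent.L0h49.F
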