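import Pool.Agent.L0h49.F.K1
import Pool.Agent.L0h49.F.C1
import Pool.Agent.L0h49.F.C2
import Pool.Agent.L0h49.F.C3
import Pool.Agent.L0h49.F.C4
import Pool.Agent.L0h49.F.C5
import Pool.Agent.L0h49.F.C6
import Pool.Agent.L0h49.F.C7
import Pool.Agent.L0h49.F.C8
import Pool.Agent.L0h49.F.C9
import Pool.Agent.L0h49.F.C10
import Pool.Agent.L0h49.F.C11
import Pool.Agent.L0h49.F.C12

/-! There is no local solution for `a ≤ 30`. -/

set_option maxRecDepth 1000000

namespace Pool.Agent.L0h49.F

open H419R2 Finset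
open Pool.Agent.N911 Pool.Agent.L0h49.E

theorem use0 {π : Pr} {a m h : ℕ} {g : Fm} {t D : ℤ} (K : POK π a m) (S : LS a h g t D) {L : ℕ}
    (hL : lc π.n37 π.n7 = L) {lo n : ℕ} (hs : srch π o0 a m lo n 0 L = true) :
    ¬ (lo ≤ res (nBh g) 37 ∧ res (nBh g) 37 < lo + n) := by
  rintro ⟨h1, h2⟩
  have h3 := Nat.mod_lt h (lc_pos K.z37 K.z7)
  exact srch0_sound S K h1 h2 (Nat.zero_le _) (by rw [Nat.zero_add, ← hL]; exact h3) hs

theorem use73 {π : Pr} {a m h n73 : ℕ} {g : Fm} {t D : ℤ} (K : POK π a m) (S : LS a h g t D)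
    {L : ℕ} (hL : lc π.n37 π.n7 = L) (p73 : pOK 73 a n73 = true) (z73 : 0 < n73) {lo n : ℕ}
    (hs : srch73 c133_73 π a m n73 lo n 0 L = true) :
    ¬ (lo ≤ res (nBh g) 37 ∧ res (nBh g) 37 < lo + n) := by
  rintro ⟨h1, h2⟩
  have h3 := Nat.mod_lt h (lc_pos K.z37 K.z7)
  exact srch73_sound S K p73 z73 h1 h2 (Nat.zero_le _) (by rw [Nat.zero_add, ← hL]; exact h3) hs

theorem useE {π : Pr} {a m h n73 : ℕ} {g : Fm} {t D : ℤ} (K : POK π a m) (S : LS a h g t D)
    {L : ℕ} (hL : lc π.n37 π.n7 = L) (p73 : pOK 73 a n73 = true) (z73 : 0 < n73)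
    (b13 : lc π.n13 π.n19 ≤ m) {lo n : ℕ}
    (hs : srchE c133_73 c247_73_0 c247_73_1 π a m n73 lo n 0 L = true) :
    ¬ (lo ≤ res (nBh g) 37 ∧ res (nBh g) 37 < lo + n) := by
  rintro ⟨h1, h2⟩
  have h3 := Nat.mod_lt h (lc_pos K.z37 K.z7)
  exact srchE_sound S K p73 z73 b13 h1 h2 (Nat.zero_le _) (by rw [Nat.zero_add, ← hL]; exact h3) hs

theorem no_1 {h : ℕ} {g : Fm} {t D : ℤ} (S : LS 1 h g t D) : False := by
  have K : POK ⟨4, 5, 8, 7, 18, 19⟩ 1 152 := POK_of (by decide +kernel)
  have r := res_lt (nBh g) (show 0 < 37 by norm_num)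
  have e0 := useE K S (show lc _ _ = 152 by decide) (by decide +kernel) (by decide)
    (by decide) s_1_0
  have e1 := useE K S (show lc _ _ = 152 by decide) (by decide +kernel) (by decide)
    (by decide) s_1_3
  have e2 := useE K S (show lc _ _ = 152 by decide) (by decide +kernel) (by decide)
    (by decide) s_1_14
  have e3 := useE K S (show lc _ _ = 152 by decide) (by decide +kernel) (by decide)
    (by decide) s_1_25
  have e4 := useE K S (show lc _ _ = 152 by decide) (by decide +kernel) (by decide)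
    (by decide) s_1_33
  have e5 := useE K S (show lc _ _ = 152 by decide) (by decide +kernel) (by decide)
    (by decide) s_1_35
  have e6 := useE K S (show lc _ _ = 152 by decide) (by decide +kernel) (by decide)
    (by decide) s_1_36
  omega

theorem no_2 {h : ℕ} {g : Fm} {t D : ℤ} (S : LS 2 h g t D) : False := by
  have K : POK ⟨4, 3, 6, 7, 20, 19⟩ 2 114 := POK_of (by decide +kernel)
  have r := res_lt (nBh g) (show 0 < 37 by norm_num)
  have e0 := use0 K S (show lc _ _ = 114 by decide) s_2_0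
  have e1 := use0 K S (show lc _ _ = 114 by decide) s_2_18
  omega

theorem no_3 {h : ℕ} {g : Fm} {t D : ℤ} (S : LS 3 h g t D) : False := by
  have K : POK ⟨2, 3, 8, 13, 20, 19⟩ 3 152 := POK_of (by decide +kernel)
  have r := res_lt (nBh g) (show 0 < 37 by norm_num)
  have e0 := use0 K S (show lc _ _ = 152 by decide) s_3_0
  have e1 := use0 K S (show lc _ _ = 152 by decide) s_3_3
  have e2 := use0 K S (show lc _ _ = 152 by decide) s_3_6
  have e3 := use0 K S (show lc _ _ = 152 by decide) s_3_20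
  omega

theorem no_4 {h : ℕ} {g : Fm} {t D : ℤ} (S : LS 4 h g t D) : False := by
  have K : POK ⟨4, 5, 8, 7, 6, 19⟩ 4 152 := POK_of (by decide +kernel)
  have r := res_lt (nBh g) (show 0 < 37 by norm_num)
  have e0 := use0 K S (show lc _ _ = 152 by decide) s_4_0
  have e1 := use0 K S (show lc _ _ = 152 by decide) s_4_6
  have e2 := use0 K S (show lc _ _ = 152 by decide) s_4_18
  omega

theorem no_5 {h : ℕ} {g : Fm} {t D : ℤ} (S : LS 5 h g t D) : False := by
  have K : POK ⟨4, 2, 6, 3, 20, 19⟩ 5 114 := POK_of (by decide +kernel)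
  have r := res_lt (nBh g) (show 0 < 37 by norm_num)
  have e0 := use0 K S (show lc _ _ = 114 by decide) s_5_0
  have e1 := use0 K S (show lc _ _ = 114 by decide) s_5_18
  omega

theorem no_6 {h : ℕ} {g : Fm} {t D : ℤ} (S : LS 6 h g t D) : False := by
  have K : POK ⟨2, 5, 8, 6, 4, 3⟩ 6 40 := POK_of (by decide +kernel)
  have r := res_lt (nBh g) (show 0 < 37 by norm_num)
  have e0 := use0 K S (show lc _ _ = 24 by decide) s_6_0
  omega

theorem no_7 {h : ℕ} {g : Fm} {t D : ℤ} (S : LS 7 h g t D) : False := by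
  have K : POK ⟨4, 3, 2, 6, 20, 9⟩ 7 60 := POK_of (by decide +kernel)
  have r := res_lt (nBh g) (show 0 < 37 by norm_num)
  have e0 := use0 K S (show lc _ _ = 18 by decide) s_7_0
  omega

theorem no_8 {h : ℕ} {g : Fm} {t D : ℤ} (S : LS 8 h g t D) : False := by
  have K : POK ⟨4, 3, 8, 3, 18, 19⟩ 8 152 := POK_of (by decide +kernel)
  have r := res_lt (nBh g) (show 0 < 37 by norm_num)
  have e0 := use0 K S (show lc _ _ = 152 by decide) s_8_0
  have e1 := use0 K S (show lc _ _ = 152 by decide) s_8_6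
  have e2 := use0 K S (show lc _ _ = 152 by decide) s_8_9
  have e3 := use0 K S (show lc _ _ = 152 by decide) s_8_22
  omega

theorem no_9 {h : ℕ} {g : Fm} {t D : ℤ} (S : LS 9 h g t D) : False := by
  have K : POK ⟨2, 5, 6, 7, 18, 18⟩ 9 90 := POK_of (by decide +kernel)
  have r := res_lt (nBh g) (show 0 < 37 by norm_num)
  have e0 := use0 K S (show lc _ _ = 18 by decide) s_9_0
  omega

theorem no_10 {h : ℕ} {g : Fm} {t D : ℤ} (S : LS 10 h g t D) : False := by
  have K : POK ⟨4, 2, 8, 13, 18, 9⟩ 10 104 := POK_of (by decide +kernel)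
  have r := res_lt (nBh g) (show 0 < 37 by norm_num)
  have e0 := use0 K S (show lc _ _ = 72 by decide) s_10_0
  have e1 := use0 K S (show lc _ _ = 72 by decide) s_10_18
  omega

theorem no_11 {h : ℕ} {g : Fm} {t D : ℤ} (S : LS 11 h g t D) : False := by
  have K : POK ⟨4, 5, 8, 7, 18, 19⟩ 11 152 := POK_of (by decide +kernel)
  have r := res_lt (nBh g) (show 0 < 37 by norm_num)
  have e0 := use0 K S (show lc _ _ = 152 by decide) s_11_0
  have e1 := use0 K S (show lc _ _ = 152 by decide) s_11_9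
  have e2 := use0 K S (show lc _ _ = 152 by decide) s_11_12
  have e3 := use0 K S (show lc _ _ = 152 by decide) s_11_24
  omega

theorem no_12 {h : ℕ} {g : Fm} {t D : ℤ} (S : LS 12 h g t D) : False := by
  have K : POK ⟨2, 3, 6, 7, 20, 37⟩ 12 222 := POK_of (by decide +kernel)
  have r := res_lt (nBh g) (show 0 < 37 by norm_num)
  have e0 := use0 K S (show lc _ _ = 222 by decide) s_12_0
  have e1 := use0 K S (show lc _ _ = 222 by decide) s_12_12
  have e2 := use0 K S (show lc _ _ = 222 by decide) s_12_24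
  omega

theorem no_13 {h : ℕ} {g : Fm} {t D : ℤ} (S : LS 13 h g t D) : False := by
  have K : POK ⟨4, 3, 8, 2, 4, 18⟩ 13 72 := POK_of (by decide +kernel)
  have r := res_lt (nBh g) (show 0 < 37 by norm_num)
  have e0 := use0 K S (show lc _ _ = 72 by decide) s_13_0
  omega

theorem no_14 {h : ℕ} {g : Fm} {t D : ℤ} (S : LS 14 h g t D) : False := by
  have K : POK ⟨4, 5, 2, 7, 20, 19⟩ 14 95 := POK_of (by decide +kernel)
  have r := res_lt (nBh g) (show 0 < 37 by norm_num)
  have e0 := use0 K S (show lc _ _ = 38 by decide) s_14_0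
  omega

theorem no_15 {h : ℕ} {g : Fm} {t D : ℤ} (S : LS 15 h g t D) : False := by
  have K : POK ⟨2, 2, 8, 7, 6, 18⟩ 15 72 := POK_of (by decide +kernel)
  have r := res_lt (nBh g) (show 0 < 37 by norm_num)
  have e0 := use0 K S (show lc _ _ = 72 by decide) s_15_0
  omega

theorem no_16 {h : ℕ} {g : Fm} {t D : ℤ} (S : LS 16 h g t D) : False := by
  have K : POK ⟨4, 5, 6, 13, 20, 6⟩ 16 78 := POK_of (by decide +kernel)
  have r := res_lt (nBh g) (show 0 < 37 by norm_num)
  have e0 := use0 K S (show lc _ _ = 6 by decide) s_16_0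
  omega

theorem no_17 {h : ℕ} {g : Fm} {t D : ℤ} (S : LS 17 h g t D) : False := by
  have K : POK ⟨4, 3, 8, 7, 20, 9⟩ 17 72 := POK_of (by decide +kernel)
  have r := res_lt (nBh g) (show 0 < 37 by norm_num)
  have e0 := use73 K S (show lc _ _ = 72 by decide) (by decide +kernel) (by decide) s_17_0
  have e1 := use73 K S (show lc _ _ = 72 by decide) (by decide +kernel) (by decide) s_17_12
  have e2 := use73 K S (show lc _ _ = 72 by decide) (by decide +kernel) (by decide) s_17_24
  omega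

theorem no_18 {h : ℕ} {g : Fm} {t D : ℤ} (S : LS 18 h g t D) : False := by
  have K : POK ⟨2, 3, 8, 3, 18, 19⟩ 18 152 := POK_of (by decide +kernel)
  have r := res_lt (nBh g) (show 0 < 37 by norm_num)
  have e0 := use0 K S (show lc _ _ = 152 by decide) s_18_0
  have e1 := use0 K S (show lc _ _ = 152 by decide) s_18_12
  have e2 := use0 K S (show lc _ _ = 152 by decide) s_18_24
  omega

theorem no_19 {h : ℕ} {g : Fm} {t D : ℤ} (S : LS 19 h g t D) : False := by
  have K : POK ⟨4, 5, 6, 6, 2, 19⟩ 19 114 := POK_of (by decide +kernel)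
  have r := res_lt (nBh g) (show 0 < 37 by norm_num)
  have e0 := use0 K S (show lc _ _ = 114 by decide) s_19_0
  have e1 := use0 K S (show lc _ _ = 114 by decide) s_19_18
  omega

theorem no_20 {h : ℕ} {g : Fm} {t D : ℤ} (S : LS 20 h g t D) : False := by
  have K : POK ⟨4, 2, 8, 6, 18, 9⟩ 20 72 := POK_of (by decide +kernel)
  have r := res_lt (nBh g) (show 0 < 37 by norm_num)
  have e0 := use0 K S (show lc _ _ = 72 by decide) s_20_0
  omega

theorem no_21 {h : ℕ} {g : Fm} {t D : ℤ} (S : LS 21 h g t D) : False := by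
  have K : POK ⟨2, 5, 2, 3, 20, 6⟩ 21 30 := POK_of (by decide +kernel)
  have r := res_lt (nBh g) (show 0 < 37 by norm_num)
  have e0 := use0 K S (show lc _ _ = 6 by decide) s_21_0
  omega

theorem no_22 {h : ℕ} {g : Fm} {t D : ℤ} (S : LS 22 h g t D) : False := by
  have K : POK ⟨4, 3, 8, 7, 20, 18⟩ 22 72 := POK_of (by decide +kernel)
  have r := res_lt (nBh g) (show 0 < 37 by norm_num)
  have e0 := use0 K S (show lc _ _ = 72 by decide) s_22_0
  have e1 := use0 K S (show lc _ _ = 72 by decide) s_22_18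
  omega

theorem no_23 {h : ℕ} {g : Fm} {t D : ℤ} (S : LS 23 h g t D) : False := by
  have K : POK ⟨4, 3, 6, 13, 6, 19⟩ 23 114 := POK_of (by decide +kernel)
  have r := res_lt (nBh g) (show 0 < 37 by norm_num)
  have e0 := use0 K S (show lc _ _ = 114 by decide) s_23_0
  have e1 := use0 K S (show lc _ _ = 114 by decide) s_23_18
  omega

theorem no_24 {h : ℕ} {g : Fm} {t D : ℤ} (S : LS 24 h g t D) : False := by
  have K : POK ⟨2, 5, 8, 7, 20, 18⟩ 24 90 := POK_of (by decide +kernel)
  have r := res_lt (nBh g) (show 0 < 37 by norm_num)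
  have e0 := use0 K S (show lc _ _ = 72 by decide) s_24_0
  have e1 := use0 K S (show lc _ _ = 72 by decide) s_24_18
  omega

theorem no_25 {h : ℕ} {g : Fm} {t D : ℤ} (S : LS 25 h g t D) : False := by
  have K : POK ⟨4, 2, 8, 7, 4, 37⟩ 25 296 := POK_of (by decide +kernel)
  have r := res_lt (nBh g) (show 0 < 37 by norm_num)
  have e0 := use0 K S (show lc _ _ = 296 by decide) s_25_0
  have e1 := use0 K S (show lc _ _ = 296 by decide) s_25_12
  have e2 := use0 K S (show lc _ _ = 296 by decide) s_25_24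
  omega

theorem no_26 {h : ℕ} {g : Fm} {t D : ℤ} (S : LS 26 h g t D) : False := by
  have K : POK ⟨4, 5, 6, 2, 20, 19⟩ 26 114 := POK_of (by decide +kernel)
  have r := res_lt (nBh g) (show 0 < 37 by norm_num)
  have e0 := use0 K S (show lc _ _ = 114 by decide) s_26_0
  have e1 := use0 K S (show lc _ _ = 114 by decide) s_26_18
  omega

theorem no_27 {h : ℕ} {g : Fm} {t D : ℤ} (S : LS 27 h g t D) : False := by
  have K : POK ⟨2, 3, 8, 7, 18, 9⟩ 27 72 := POK_of (by decide +kernel)
  have r := res_lt (nBh g) (show 0 < 37 by norm_num)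
  have e0 := use0 K S (show lc _ _ = 72 by decide) s_27_0
  omega

theorem no_28 {h : ℕ} {g : Fm} {t D : ℤ} (S : LS 28 h g t D) : False := by
  have K : POK ⟨4, 3, 2, 7, 18, 18⟩ 28 36 := POK_of (by decide +kernel)
  have r := res_lt (nBh g) (show 0 < 37 by norm_num)
  have e0 := use0 K S (show lc _ _ = 18 by decide) s_28_0
  omega

theorem no_29 {h : ℕ} {g : Fm} {t D : ℤ} (S : LS 29 h g t D) : False := by
  have K : POK ⟨4, 5, 8, 13, 18, 19⟩ 29 152 := POK_of (by decide +kernel)
  have r := res_lt (nBh g) (show 0 < 37 by norm_num)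
  have e0 := use0 K S (show lc _ _ = 152 by decide) s_29_0
  have e1 := use0 K S (show lc _ _ = 152 by decide) s_29_6
  have e2 := use0 K S (show lc _ _ = 152 by decide) s_29_14
  have e3 := use0 K S (show lc _ _ = 152 by decide) s_29_24
  have e4 := use0 K S (show lc _ _ = 152 by decide) s_29_28
  have e5 := use0 K S (show lc _ _ = 152 by decide) s_29_32
  omega

theorem no_30 {h : ℕ} {g : Fm} {t D : ℤ} (S : LS 30 h g t D) : False := by
  have K : POK ⟨2, 2, 6, 7, 18, 9⟩ 30 42 := POK_of (by decide +kernel)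
  have r := res_lt (nBh g) (show 0 < 37 by norm_num)
  have e0 := use0 K S (show lc _ _ = 18 by decide) s_30_0
  omega

theorem noLS {a : ℕ} (h1 : 1 ≤ a) (h2 : a ≤ 30) {h : ℕ} {g : Fm} {t D : ℤ}
    (S : LS a h g t D) : False := by
  interval_cases a
  · exact no_1 S
  · exact no_2 S
  · exact no_3 S
  · exact no_4 S
  · exact no_5 S
  · exact no_6 S
  · exact no_7 S
  · exact no_8 S
  · exact no_9 S
  · exact no_10 S
  · exact no_11 S
  · exact no_12 S
  · exact no_13 S
  · exact no_14 S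
  · exact no_15 S
  · exact no_16 S
  · exact no_17 S
  · exact no_18 S
  · exact no_19 S
  · exact no_20 S
  · exact no_21 S
  · exact no_22 S
  · exact no_23 S
  · exact no_24 S
  · exact no_25 S
  · exact no_26 S
  · exact no_27 S
  · exact no_28 S
  · exact no_29 S
  · exact no_30 S

end Pool.Agent.L0h49.F
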