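import Pool.Agent.L0h49.E.B2

/-! Search functions for constant symmetric parts, outwards from the centre of the period. -/

set_option maxRecDepth 100000

namespace Pool.Agent.L0h49.F

open H419R2
open Pool.Agent.N911 Pool.Agent.L0h49.E

/-- head of a trace -/
noncomputable def hd (T : TL) (g : ℕ → ℕ → TL → Bool) : Bool :=
  @TL.rec (fun _ => Bool) (g 0 0 TL.nil) (fun q k r _ => g q k r) T

/-- least common multiple -/
def lc (m n : ℕ) : ℕ := Nat.div (Nat.mul m n) (Nat.gcd m n)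

/-- trace of the iterated forms -/
noncomputable def mkG (l I a n : ℕ) : ℕ → ℕ → ℕ → (TL → Bool) → Bool :=
  @Nat.rec (fun _ => ℕ → ℕ → ℕ → (TL → Bool) → Bool)
    (fun c B C g => force (Nat.mul 7 c) (fun q => force (Nat.mul 7 (Nat.add (Nat.mul B l) C))
      (fun k => g (TL.cons q k TL.nil))))
    (fun _ ih c B C g => force (Nat.mul 7 c) (fun q =>
      force (Nat.mul 7 (Nat.add (Nat.mul B l) C)) (fun k => force (look I C) (fun i =>
      force (Nat.mod (Nat.mul c C) l) (fun c' =>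
      force (Nat.mod (Nat.mul (Nat.add (Nat.mul (Nat.mul 2 a) C) (Nat.sub l B)) i) l) (fun B' =>
      force (Nat.mod (Nat.mul (Nat.add (Nat.add 1 (Nat.mul a B)) (Nat.mul (Nat.mul a a)
        (Nat.sub l C))) i) l) (fun C' => ih c' B' C' (fun r => g (TL.cons q k r))))))))) n

/-- packed residues of `t` -/
noncomputable def tvl (l a : ℕ) (n : ℕ) : TL → (ℕ → Bool) → Bool :=
  @Nat.rec (fun _ => TL → (ℕ → Bool) → Bool) (fun _ g => g 0)
    (fun _ ih T g => hd T (fun _ k r =>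
      force (Nat.mod (Nat.add (Nat.mul 2 a) (Nat.sub l (Nat.div (Nat.div k 7) l))) l) (fun t =>
        ih r (fun n => force (Nat.add t (Nat.mul 128 n)) g)))) n

/-- lists of centres -/
inductive CL where
  | nil : CL
  | cons (tv : ℕ) (T : TL) (l : CL) : CL

/-- all centres modulo `l` -/
noncomputable def ctr (l I Q a n nl : ℕ) (g : CL → Bool) : Bool :=
  @Nat.rec (fun _ => CL → Bool) g
    (fun b ih S => @Bool.rec (fun _ => Bool)
      (mkG l I a n 1 b 1 (fun T => hd T (fun _ _ r => tvl l a nl r (fun tv =>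
        ih (CL.cons tv T S))))) (ih S)
      (tb Q (Nat.mod (Nat.add (Nat.mul b b) 4) l))) l CL.nil

/-- profile: packed partial sums, and the last partial sum -/
noncomputable def pfl (gx ge : ℕ → ℕ → ℕ) (p a4 n : ℕ) :
    TL → TL → ℕ → (ℕ → ℕ → Bool) → Bool :=
  @Nat.rec (fun _ => TL → TL → ℕ → (ℕ → ℕ → Bool) → Bool) (fun _ _ D k => k 0 D)
    (fun _ ih T T' D k => hd T (fun x e r => hd T' (fun q i r' =>
      force (ge e i) (fun v => force (gx x q) (fun x =>
      force (Nat.mod (Nat.mul x (Nat.div v 128)) p) (fun y =>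
      force (Nat.mod (Nat.add D (Nat.add (Nat.mul 2 (Nat.mul x (Nat.mod v 128)))
        (Nat.mul a4 y))) p) (fun D' => ih r r' D' (fun N W =>
          force (Nat.add (Nat.add D (Nat.mul 128 y)) (Nat.mul 16384 N)) (fun N => k N W))))))))) n

/-- profile of a relation: packed partial sums, and the sum over a period -/
noncomputable def pf (gx ge : ℕ → ℕ → ℕ) (p a n : ℕ) (T T' : TL) (k : ℕ → ℕ → Bool) : Bool :=
  hd T (fun x e r => hd T' (fun q i r' =>
    force (Nat.mod (Nat.mul (gx x q) (Nat.mod (ge e i) 128)) p) (fun D =>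
    force (Nat.mul 4 a) (fun a4 =>
    pfl gx ge p a4 n r r' D (fun N D' => force (Nat.mod (Nat.add D' (Nat.sub p D)) p)
      (fun W => k N W))))))

/-- solutions of `A x + B = 0` -/
noncomputable def sv (p I A B : ℕ) (f : ℕ → Bool) : Bool :=
  @Nat.rec (fun _ => Bool) (imp (Nat.beq (Nat.mod B p) 0) (allN p f))
    (fun A' _ => force (Nat.mod (Nat.mul (Nat.sub p (Nat.mod B p)) (look I (Nat.succ A'))) p) f)
    (Nat.mod A p)

/-- extension of the known residue to a further period -/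
noncomputable def ext (n R Mo : ℕ) (f : ℕ → ℕ → Bool) : Bool :=
  force (Nat.div n (Nat.gcd Mo n)) (fun r => force (Nat.mul Mo r) (fun Mo' =>
    allN r (fun s => force (Nat.add R (Nat.mul Mo s)) (fun R' => f R' Mo'))))

/-- one relation -/
noncomputable def rl (p I L N W R Mo t : ℕ) (f : ℕ → ℕ → Bool) : Bool :=
  force (sl2 N (Nat.mul 7 (Nat.mod R L))) (fun d =>
  force (Nat.mod (Nat.add (Nat.add (Nat.mod d 128) (Nat.mul W (Nat.div R L)))
    (Nat.mul (Nat.mul 2 t) (Nat.div d 128))) p) (fun b =>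
  @Nat.rec (fun _ => Bool)
    (imp (Nat.beq b 0) (f R Mo))
    (fun c' _ => force (Nat.mod (Nat.mul (Nat.sub p b) (look I (Nat.succ c'))) p) (fun s =>
       force (Nat.add R (Nat.mul Mo s)) (fun R' => force (Nat.mul Mo p) (fun Mo' => f R' Mo'))))
    (Nat.mod (Nat.mul W (Nat.div Mo L)) p)))

/-- lists of profiles -/
inductive NL where
  | nil : NL
  | cons (N W : ℕ) (l : NL) : NL

/-- lists of pairs of profiles -/
inductive QL where
  | nil : QL
  | cons (N W N' W' : ℕ) (l : QL) : QL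

/-- lists of lists of profiles -/
inductive NLL where
  | nil : NLL
  | cons (y : NL) (l : NLL) : NLL

/-- data modulo 19 -/
inductive DL where
  | nil : DL
  | cons (tv : ℕ) (T : TL) (y : NL) (l : DL) : DL

/-- data modulo 19 relative to a centre modulo 7 -/
inductive XL where
  | nil : XL
  | cons (tv N W N' W' N'' W'' : ℕ) (T : TL) (y : NL) (l : XL) : XL

/-- data modulo 13 relative to a centre modulo 7 -/
inductive VL where
  | nil : VL
  | cons (tv N W : ℕ) (T : TL) (l : VL) : VL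

/-- data modulo 7 -/
inductive ZL where
  | nil : ZL
  | cons (T : TL) (x19 : XL) (x3 : NLL) (x13 : VL) (l : ZL) : ZL

/-- profiles over a list of centres -/
noncomputable def mpN (gx ge : ℕ → ℕ → ℕ) (p a n : ℕ) (A : TL) (S : CL) : (NL → Bool) → Bool :=
  @CL.rec (fun _ => (NL → Bool) → Bool) (fun g => g NL.nil)
    (fun _ T _ ih g => pf gx ge p a n A T (fun N W => ih (fun y => g (NL.cons N W y)))) S

/-- pairs of profiles over a list of centres -/
noncomputable def mpQ (p a n : ℕ) (A A' : TL) (S : CL) : (QL → Bool) → Bool :=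
  @CL.rec (fun _ => (QL → Bool) → Bool) (fun g => g QL.nil)
    (fun _ T _ ih g => pf sl1 sl2 p a n A T (fun N W => pf sl1 sl2 p a n A' T (fun N' W' =>
      ih (fun y => g (QL.cons N W N' W' y))))) S

/-- combination of a sliced trace with a second trace -/
noncomputable def zp (fx fe : ℕ → ℕ → ℕ) (T : TL) : TL → (TL → Bool) → Bool :=
  @TL.rec (fun _ => TL → (TL → Bool) → Bool) (fun _ g => g TL.nil)
    (fun x e _ ih T' g => hd T' (fun q i r' => force (fx x q) (fun x => force (fe e i) (fun e =>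
      ih r' (fun r => g (TL.cons x e r)))))) T

/-- profiles of a relation with three primes -/
noncomputable def mpL (p a n : ℕ) (A : TL) (S S' : CL) : (NLL → Bool) → Bool :=
  @CL.rec (fun _ => (NLL → Bool) → Bool) (fun g => g NLL.nil)
    (fun _ T _ ih g => zp (sl 5) (sl 50) A T (fun A' => mpN sl1 sl2 p a n A' S' (fun y =>
      ih (fun z => g (NLL.cons y z))))) S

/-- data modulo 19 -/
noncomputable def mk19 (a n : ℕ) (S S5 : CL) : (DL → Bool) → Bool :=
  @CL.rec (fun _ => (DL → Bool) → Bool) (fun g => g DL.nil)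
    (fun tv T _ ih g => mapT (sl 5 X95) (sl 50 E95) T (fun A => mpN sl1 sl2 13 a n A S5 (fun y =>
      ih (fun z => g (DL.cons tv T y z))))) S

/-- options: a further relation modulo 7 and 19 -/
structure Op where
  gx : ℕ → ℕ → ℕ
  ge : ℕ → ℕ → ℕ
  m : ℕ
  flt : ℕ → ℕ → ℕ → ℕ → (ℕ → ℕ → Bool) → Bool
  fin : TL → TL → TL → ℕ → ℕ → Bool

/-- data modulo 19 relative to a centre modulo 7 -/
noncomputable def mkX (o : Op) (a n : ℕ) (T7 A A' : TL) (S : DL) : (XL → Bool) → Bool :=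
  @DL.rec (fun _ => (XL → Bool) → Bool) (fun g => g XL.nil)
    (fun tv T y _ ih g => pf sl1 sl2 37 a n A T (fun N W => pf sl1 sl2 13 a n A' T (fun N' W' =>
      pf o.gx o.ge 73 a o.m T7 T (fun N'' W'' =>
      ih (fun z => g (XL.cons tv N W N' W' N'' W'' T y z)))))) S

/-- data modulo 13 relative to a centre modulo 7 -/
noncomputable def mkV (a n : ℕ) (A : TL) (S : CL) : (VL → Bool) → Bool :=
  @CL.rec (fun _ => (VL → Bool) → Bool) (fun g => g VL.nil)
    (fun tv T _ ih g => pf sl1 sl2 37 a n A T (fun N W => ih (fun z =>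
      g (VL.cons tv N W T z)))) S

/-- data modulo 7 -/
noncomputable def mkZ (o : Op) (a n133 n105 n91 : ℕ) (S : CL) (S19 : DL) (S3 S5 S13 : CL) :
    (ZL → Bool) → Bool :=
  @CL.rec (fun _ => (ZL → Bool) → Bool) (fun g => g ZL.nil)
    (fun _ T _ ih g =>
      mapT (sl 19 X133_37) (sl 722 E133_37) T (fun A => mapT (sl 19 X133_13) (sl 722 E133_13) T
        (fun A' => mkX o a n133 T A A' S19 (fun x19 =>
      mapT (sl 15 X105) (sl 450 E105) T (fun B => mpL 13 a n105 B S3 S5 (fun x3 =>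
      mapT (sl 13 X91) (sl 338 E91) T (fun C => mkV a n91 C S13 (fun x13 =>
      ih (fun z => g (ZL.cons T x19 x3 x13 z)))))))))) S

/-- all entries -/
noncomputable def XL.all (S : XL)
    (f : ℕ → ℕ → ℕ → ℕ → ℕ → ℕ → ℕ → TL → NL → Bool) : Bool :=
  @XL.rec (fun _ => Bool) true
    (fun tv N W N' W' N'' W'' T y _ ih => cj (f tv N W N' W' N'' W'' T y) ih) S

/-- all entries -/
noncomputable def VL.all (S : VL) (f : ℕ → ℕ → ℕ → TL → Bool) : Bool :=
  @VL.rec (fun _ => Bool) true (fun tv N W T _ ih => cj (f tv N W T) ih) S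

/-- all entries -/
noncomputable def ZL.all (S : ZL) (f : TL → XL → NLL → VL → Bool) : Bool :=
  @ZL.rec (fun _ => Bool) true (fun T x y z _ ih => cj (f T x y z) ih) S

/-- all entries of two parallel lists -/
noncomputable def all2 (S : QL) : NLL → (ℕ → ℕ → ℕ → ℕ → NL → Bool) → Bool :=
  @QL.rec (fun _ => NLL → (ℕ → ℕ → ℕ → ℕ → NL → Bool) → Bool) (fun _ _ => true)
    (fun N W N' W' _ ih S' f => @NLL.rec (fun _ => Bool) true
      (fun y r _ => cj (f N W N' W' y) (ih r f)) S') S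

/-- all entries of three parallel lists -/
noncomputable def all3 (S : NL) : NL → NL → (ℕ → ℕ → ℕ → ℕ → ℕ → ℕ → Bool) → Bool :=
  @NL.rec (fun _ => NL → NL → (ℕ → ℕ → ℕ → ℕ → ℕ → ℕ → Bool) → Bool) (fun _ _ _ => true)
    (fun N W _ ih S' S'' f => @NL.rec (fun _ => Bool) true
      (fun N' W' r' _ => @NL.rec (fun _ => Bool) true
        (fun N'' W'' r'' _ => cj (f N W N' W' N'' W'') (ih r' r'' f)) S'') S') S

/-- the scan of the partial sums modulo 37 and 7 -/
noncomputable def scn (L W0 W1 W2 : ℕ) (nx : ℕ → ℕ → ℕ → Bool) (n : ℕ) :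
    ℕ → ℕ → ℕ → ℕ → Bool :=
  @Nat.rec (fun _ => ℕ → ℕ → ℕ → ℕ → Bool) (fun _ _ _ _ => true)
    (fun _ ih h N0 N1 N2 => cj
      (sv 19 I19 W2 (Nat.mod N2 128) (fun s => force (Nat.mod N0 16384) (fun d =>
        sv 19 I19 (Nat.mul 2 (Nat.div d 128)) (Nat.add (Nat.mod d 128) (Nat.mul s W0)) (fun t =>
          force (Nat.mod N1 16384) (fun d => imp (Nat.beq (Nat.mod (Nat.add (Nat.add (Nat.mod d 128)
            (Nat.mul s W1)) (Nat.mul (Nat.mul 2 t) (Nat.div d 128))) 19) 0)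
            (force (Nat.add h (Nat.mul L s)) (fun R => force (Nat.mul L 19) (fun Mo =>
              nx R Mo t))))))))
      (force (Nat.succ h) (fun h => force (Nat.div N0 16384) (fun N0 =>
        force (Nat.div N1 16384) (fun N1 => force (Nat.div N2 16384) (fun N2 =>
          ih h N0 N1 N2)))))) n

/-- periods -/
structure Pr where
  n3 : ℕ
  n5 : ℕ
  n7 : ℕ
  n13 : ℕ
  n19 : ℕ
  n37 : ℕ

/-- stage modulo 13 -/
noncomputable def s13 (π : Pr) (o : Op) (T7 T19 : TL) (t37 : ℕ) (x13 : VL) (t13 R Mo : ℕ) : Bool :=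
  ext π.n13 R Mo (fun R Mo => x13.all (fun tv N W T13 =>
    imp (Nat.beq (sl1 tv (Nat.mul 7 (Nat.mod R π.n13))) t13)
      (rl 37 I37 (lc π.n7 π.n13) N W R Mo t37 (fun R Mo => o.fin T7 T13 T19 R Mo))))

/-- stage modulo 5 -/
noncomputable def s5 (π : Pr) (o : Op) (T7 T19 : TL) (t37 : ℕ)
    (x13 : VL) (y185 y95 y105 : NL) (N133 W133 R Mo : ℕ) : Bool :=
  ext π.n5 R Mo (fun R Mo => all3 y185 y95 y105 (fun N W N' W' N'' W'' =>
    allN 13 (fun t13 =>
      rl 13 I13 (lc π.n7 π.n19) N133 W133 R Mo t13 (fun R Mo =>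
      rl 13 I13 (lc π.n37 π.n5) N W R Mo t13 (fun R Mo =>
      rl 13 I13 (lc π.n19 π.n5) N' W' R Mo t13 (fun R Mo =>
      rl 13 I13 (lc π.n7 (lc π.n3 π.n5)) N'' W'' R Mo t13 (fun R Mo =>
        s13 π o T7 T19 t37 x13 t13 R Mo)))))))

/-- stage modulo 3 -/
noncomputable def s3 (π : Pr) (o : Op) (T7 T19 : TL) (t37 t19 : ℕ)
    (q3 : QL) (x3 : NLL) (x13 : VL) (y185 y95 : NL) (N133 W133 R Mo : ℕ) : Bool :=
  ext π.n3 R Mo (fun R Mo => all2 q3 x3 (fun N W N' W' y105 =>
    rl 19 I19 (lc π.n37 π.n3) N W R Mo t19 (fun R Mo =>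
    rl 19 I19 (lc π.n37 π.n3) N' W' R Mo t19 (fun R Mo =>
      s5 π o T7 T19 t37 x13 y185 y95 y105 N133 W133 R Mo))))

/-- stage modulo 19 -/
noncomputable def s19 (π : Pr) (o : Op) (T7 : TL) (tv37 : ℕ) (q3 : QL) (y185 : NL)
    (x19 : XL) (x3 : NLL) (x13 : VL) (R Mo t19 : ℕ) : Bool :=
  ext π.n19 R Mo (fun R Mo => x19.all (fun tv N W N' W' N'' W'' T19 y95 =>
    imp (Nat.beq (sl1 tv (Nat.mul 7 (Nat.mod R π.n19))) t19)
      (force (sl1 tv37 (Nat.mul 7 (Nat.mod R π.n37))) (fun t37 =>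
        rl 37 I37 (lc π.n7 π.n19) N W R Mo t37 (fun R Mo => o.flt N'' W'' R Mo (fun R Mo =>
          s3 π o T7 T19 t37 t19 q3 x3 x13 y185 y95 N' W' R Mo))))))

/-- one centre modulo 37 -/
noncomputable def s37 (π : Pr) (o : Op) (a m : ℕ) (S3 S5 : CL) (Z : ZL) (h0 cnt b : ℕ) : Bool :=
  mkG 37 I37 a m 1 b 1 (fun T37 => hd T37 (fun _ _ r => tvl 37 a π.n37 r (fun tv37 =>
  mapT (sl 7 X259_0) (sl 98 E259_0) T37 (fun A0 => mapT (sl 7 X259_1) (sl 98 E259_1) T37 (fun A1 =>
  mapT (sl 7 X259_2) (sl 49 E259_2) T37 (fun A2 =>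
  mapT (sl 3 X111_0) (sl 18 E111_0) T37 (fun B0 => mapT (sl 3 X111_1) (sl 18 E111_1) T37 (fun B1 =>
  force (lc π.n37 π.n3) (fun n => mpQ 19 a n B0 B1 S3 (fun q3 =>
  mapT (sl 5 X185) (sl 50 E185) T37 (fun C => force (lc π.n37 π.n5) (fun n =>
  mpN sl1 sl2 13 a n C S5 (fun y185 =>
  force (lc π.n37 π.n7) (fun L =>
  Z.all (fun T7 x19 x3 x13 =>
    pf sl1 sl2 19 a L A0 T7 (fun N0 W0 => pf sl1 sl2 19 a L A1 T7 (fun N1 W1 =>
    pf sl1 sl1 19 a L A2 T7 (fun N2 W2 =>
      force (Nat.mul 14 h0) (fun e => force (Nat.shiftRight N0 e) (fun N0 =>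
      force (Nat.shiftRight N1 e) (fun N1 => force (Nat.shiftRight N2 e) (fun N2 =>
      scn L W0 W1 W2 (fun R Mo t19 =>
        s19 π o T7 tv37 q3 y185 x19 x3 x13 R Mo t19) cnt h0 N0 N1 N2))))))))))))))))))))))

/-- the search for the centres modulo 37 in a range -/
noncomputable def srch (π : Pr) (o : Op) (a m lo n h0 cnt : ℕ) : Bool :=
  ctr 3 I3 Q3 a m π.n3 (fun S3 => ctr 5 I5 Q5 a m π.n5 (fun S5 => ctr 13 I13 Q13 a m π.n13 (fun S13 =>
  ctr 7 I7 Q7 a m π.n7 (fun S7 => ctr 19 I19 Q19 a m π.n19 (fun S19 =>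
  force (lc π.n19 π.n5) (fun n95 => mk19 a n95 S19 S5 (fun D19 =>
  force (lc π.n7 π.n19) (fun n133 => force (lc π.n7 (lc π.n3 π.n5)) (fun n105 =>
  force (lc π.n7 π.n13) (fun n91 =>
  mkZ o a n133 n105 n91 S7 D19 S3 S5 S13 (fun Z =>
    allN n (fun i => force (Nat.add lo i) (fun b => @Bool.rec (fun _ => Bool)
      (s37 π o a m S3 S5 Z h0 cnt b) true
      (tb Q37 (Nat.mod (Nat.add (Nat.mul b b) 4) 37)))))))))))))))

/-- no options -/
noncomputable def o0 : Op where
  gx := fun _ _ => 0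
  ge := fun _ _ => 0
  m := 0
  flt := fun _ _ R Mo k => k R Mo
  fin := fun _ _ _ _ _ => false

/-- all centres -/
noncomputable def CL.all (S : CL) (f : ℕ → TL → Bool) : Bool :=
  @CL.rec (fun _ => Bool) true (fun tv T _ ih => cj (f tv T) ih) S

/-- the relation modulo 7, 19 and 73 is used at once -/
noncomputable def o73 (c : CD) (π : Pr) (n73 : ℕ) (S73 : CL) : Op where
  gx := x133_73 c
  ge := e133_73 c
  m := lc π.n7 π.n19
  flt := fun N W R Mo k => ext n73 R Mo (fun R Mo => S73.all (fun tv _ =>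
    force (sl1 tv (Nat.mul 7 (Nat.mod R n73))) (fun t =>
      rl 73 I73 (lc π.n7 π.n19) N W R Mo t k)))
  fin := fun _ _ _ _ _ => false

noncomputable def x247 (c : CD) (a b : ℕ) : ℕ := chD c 209 39 a b
noncomputable def e247 (c : CD) (a b : ℕ) : ℕ := evD c 13 209 19 39 a b

/-- three relations modulo 73 at the end -/
noncomputable def oE (c c' c'' : CD) (π : Pr) (a n73 : ℕ) (S73 : CL) : Op where
  gx := fun _ _ => 0
  ge := fun _ _ => 0
  m := 0
  flt := fun _ _ R Mo k => k R Mo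
  fin := fun T7 T13 T19 R Mo =>
    pf (x133_73 c) (e133_73 c) 73 a (lc π.n7 π.n19) T7 T19 (fun N W =>
    ext n73 R Mo (fun R Mo => S73.all (fun tv _ =>
      force (sl1 tv (Nat.mul 7 (Nat.mod R n73))) (fun t =>
        rl 73 I73 (lc π.n7 π.n19) N W R Mo t (fun R Mo =>
        pf (x247 c') (e247 c') 73 a (lc π.n13 π.n19) T13 T19 (fun N' W' =>
        rl 73 I73 (lc π.n13 π.n19) N' W' R Mo t (fun R Mo =>
        pf (x247 c'') (e247 c'') 73 a (lc π.n13 π.n19) T13 T19 (fun N'' W'' =>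
        rl 73 I73 (lc π.n13 π.n19) N'' W'' R Mo t (fun _ _ => false)))))))))

/-- search with the relation modulo 7, 19 and 73 -/
noncomputable def srch73 (c : CD) (π : Pr) (a m n73 lo n h0 cnt : ℕ) : Bool :=
  ctr 73 I73 Q73 a n73 n73 (fun S73 => srch π (o73 c π n73 S73) a m lo n h0 cnt)

/-- search with three relations at the end -/
noncomputable def srchE (c c' c'' : CD) (π : Pr) (a m n73 lo n h0 cnt : ℕ) : Bool :=
  ctr 73 I73 Q73 a n73 n73 (fun S73 => srch π (oE c c' c'' π a n73 S73) a m lo n h0 cnt)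

end Pool.Agent.L0h49.F
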